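import Mathlib

/-!
# The theorem of Erdos and Rado for pairs (copied from Pool.Agent.Helper397)
-/

set_option autoImplicit false

namespace Pool.Agent.H764R3.ER

open Cardinal

universe u

theorem exists_rec {I : Type*} [LinearOrder I] [WellFoundedLT I] {X : Type*} [Inhabited X]
    (Phi : I → (I → X) → X → Prop)
    (hloc : ∀ i (D D' : I → X) x, (∀ j, j < i → D j = D' j) → Phi i D x → Phi i D' x)
    (hex : ∀ i D, ∃ x, Phi i D x) : ∃ D : I → X, ∀ i, Phi i D (D i) := by
  classical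
  let step : (i : I) → ((j : I) → j < i → X) → X := fun i D =>
    Classical.choose (hex i (fun j => if h : j < i then D j h else default))
  let D : I → X := WellFounded.fix (wellFounded_lt (α := I)) step
  refine ⟨D, fun i => ?_⟩
  have h1 : D i = step i (fun j _ => D j) := WellFounded.fix_eq _ _ _
  have h2 : Phi i (fun j => if h : j < i then D j else default) (step i (fun j _ => D j)) :=
    Classical.choose_spec (hex i (fun j => if h : j < i then D j else default))
  rw [← h1] at h2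
  refine hloc i _ _ _ ?_ h2
  intro j hj
  simp [hj]

/-- Pigeonhole principle for regular cardinals. -/
theorem ph {X Z : Type u} {m : Cardinal.{u}} (hm : m.IsRegular) (S : Set X) (hS : m ≤ #S)
    (col : X → Z) (hZ : #Z < m) : ∃ z, m ≤ #{x | x ∈ S ∧ col x = z} := by
  by_contra hcon
  push Not at hcon
  have h1 : S ⊆ ⋃ z, {x | x ∈ S ∧ col x = z} := fun x hx => Set.mem_iUnion.mpr ⟨col x, hx, rfl⟩
  have h2 : #S ≤ Cardinal.sum (fun z => #{x | x ∈ S ∧ col x = z}) :=
    (Cardinal.mk_le_mk_of_subset h1).trans Cardinal.mk_iUnion_le_sum_mk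
  have h3 : Cardinal.sum (fun z => #{x | x ∈ S ∧ col x = z}) < m :=
    Cardinal.sum_lt_of_isRegular hm hZ hcon
  exact absurd (hS.trans h2) (not_le.mpr h3)

/-- The theorem of Erdos and Rado for pairs. -/
theorem erdos_rado {U : Type u} [LinearOrder U] [WellFoundedLT U] {μ : Cardinal.{u}}
    (hμ : ℵ₀ ≤ μ) (hU : (2 : Cardinal.{u}) ^ μ < #U) {Z : Type u} (hZ : #Z ≤ μ) (g : U → U → Z) :
    ∃ H : Set U, Order.succ μ ≤ #H ∧ ∃ z, ∀ a ∈ H, ∀ b ∈ H, a < b → g a b = z := by
  classical
  let g' : U → U → Z := fun a b => if a < b then g a b else g b a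
  have hsymm : ∀ a b, a ≠ b → g' a b = g' b a := by
    intro a b hab
    rcases lt_or_gt_of_ne hab with h | h
    · simp [g', h, not_lt.mpr h.le]
    · simp [g', h, not_lt.mpr h.le]
  haveI : Nonempty U := by
    rw [← Cardinal.mk_ne_zero_iff]
    exact (bot_le.trans_lt hU).ne'
  haveI : Inhabited U := ⟨Classical.arbitrary U⟩
  let J := (Order.succ μ).ord.ToType
  have hreg : (Order.succ μ).IsRegular := Cardinal.isRegular_succ hμ
  have hJc : #J = Order.succ μ := Cardinal.mk_ord_toType _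
  have hJlt : ∀ i : J, #(Set.Iio i) ≤ μ := by
    intro i
    have h := Cardinal.mk_Iio_lt i (by simp [J])
    rw [Cardinal.mk_ord_toType, Order.lt_succ_iff] at h
    exact h
  have hseq : ∀ u : U, ∃ v : J → U, ∀ ν, (∀ ν', ν' < ν → v ν' ≠ u) →
      (∀ ν', ν' < ν → v ν ≠ v ν' ∧ g' (v ν') (v ν) = g' (v ν') u) ∧
      ∀ y, (∀ ν', ν' < ν → y ≠ v ν' ∧ g' (v ν') y = g' (v ν') u) → v ν ≤ y := by
    intro u
    obtain ⟨v, hv⟩ := exists_rec (I := J) (X := U)
      (fun ν D x => (∀ ν', ν' < ν → D ν' ≠ u) →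
        (∀ ν', ν' < ν → x ≠ D ν' ∧ g' (D ν') x = g' (D ν') u) ∧
        ∀ y, (∀ ν', ν' < ν → y ≠ D ν' ∧ g' (D ν') y = g' (D ν') u) → x ≤ y)
      (by
        intro ν D D' x h hx hD'
        obtain ⟨h1, h2⟩ := hx (fun ν' hν' => by rw [h ν' hν']; exact hD' ν' hν')
        refine ⟨fun ν' hν' => ?_, fun y hy => h2 y (fun ν' hν' => ?_)⟩
        · rw [← h ν' hν']
          exact h1 ν' hν'
        · rw [h ν' hν']
          exact hy ν' hν')
      (by
        intro ν D
        by_cases hD : ∀ ν', ν' < ν → D ν' ≠ u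
        · have hne : {y | ∀ ν', ν' < ν → y ≠ D ν' ∧ g' (D ν') y = g' (D ν') u}.Nonempty :=
            ⟨u, fun ν' hν' => ⟨(hD ν' hν').symm, rfl⟩⟩
          refine ⟨(wellFounded_lt (α := U)).min _ hne, fun _ => ⟨?_, fun y hy => ?_⟩⟩
          · exact WellFounded.min_mem _ _ hne
          · have hy' : y ∈ {y | ∀ ν', ν' < ν → y ≠ D ν' ∧ g' (D ν') y = g' (D ν') u} := hy
            exact not_lt.mp (WellFounded.not_lt_min (wellFounded_lt (α := U)) _ hy')
        · exact ⟨u, fun h => absurd h hD⟩)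
    exact ⟨v, hv⟩
  choose v hv using hseq
  -- some `u` is never reached
  obtain ⟨u, hu⟩ : ∃ u, ∀ ν, v u ν ≠ u := by
    by_contra hcon
    push Not at hcon
    have hmin : ∀ u, ∃ ν, v u ν = u ∧ ∀ ν', ν' < ν → v u ν' ≠ u := by
      intro u
      have hne : {ν | v u ν = u}.Nonempty := hcon u
      refine ⟨(wellFounded_lt (α := J)).min _ hne, WellFounded.min_mem _ _ hne, fun ν' hν' h => ?_⟩
      have h' : ν' ∈ {ν | v u ν = u} := h
      exact WellFounded.not_lt_min (wellFounded_lt (α := J)) _ h' hν'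
    choose n hn1 hn2 using hmin
    let F : U → Σ ν : J, (Set.Iio ν → Z) := fun u => ⟨n u, fun ν' => g' (v u ν'.1) u⟩
    have hF : Function.Injective F := by
      intro u u' h
      have h1 : n u = n u' := congrArg Sigma.fst h
      have h2 : ∀ ν', ν' < n u → g' (v u ν') u = g' (v u' ν') u' := by
        intro ν' hν'
        have hν'' : ν' < n u' := h1 ▸ hν'
        have key : ∀ (a b : Σ ν : J, (Set.Iio ν → Z)), a = b → ∀ (ha : ν' < a.1) (hb : ν' < b.1),
            a.2 ⟨ν', ha⟩ = b.2 ⟨ν', hb⟩ := by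
          rintro a b rfl ha hb
          rfl
        exact key (F u) (F u') h hν' hν''
      have h3 : ∀ ν', ν' ≤ n u → v u ν' = v u' ν' := by
        intro ν'
        induction ν' using WellFoundedLT.induction with
        | ind ν' ih =>
          intro hν'
          have p1 := hv u ν' (fun ν'' h'' => hn2 u ν'' (h''.trans_le hν'))
          have p2 := hv u' ν' (fun ν'' h'' => hn2 u' ν'' (h''.trans_le (h1 ▸ hν')))
          have e : ∀ ν'', ν'' < ν' → v u ν'' = v u' ν'' := fun ν'' h'' => ih ν'' h'' (h''.le.trans hν')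
          apply le_antisymm
          · refine p1.2 _ (fun ν'' h'' => ?_)
            rw [h2 ν'' (h''.trans_le hν'), e ν'' h'']
            exact p2.1 ν'' h''
          · refine p2.2 _ (fun ν'' h'' => ?_)
            rw [← h2 ν'' (h''.trans_le hν'), ← e ν'' h'']
            exact p1.1 ν'' h''
      calc u = v u (n u) := (hn1 u).symm
        _ = v u' (n u) := h3 _ le_rfl
        _ = v u' (n u') := by rw [h1]
        _ = u' := hn1 u'
    have h1 := Cardinal.mk_le_of_injective hF
    have h2 : #(Σ ν : J, (Set.Iio ν → Z)) ≤ (2 : Cardinal.{u}) ^ μ := by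
      rw [Cardinal.mk_sigma]
      have h3 : ∀ ν : J, #(Set.Iio ν → Z) ≤ (2 : Cardinal.{u}) ^ μ := by
        intro ν
        rw [← Cardinal.power_def]
        calc #Z ^ #(Set.Iio ν) ≤ μ ^ #(Set.Iio ν) := Cardinal.power_le_power_right hZ
          _ ≤ μ ^ μ := Cardinal.power_le_power_left (Cardinal.aleph0_pos.trans_le hμ).ne' (hJlt ν)
          _ = 2 ^ μ := Cardinal.power_self_eq hμ
      calc Cardinal.sum (fun ν : J => #(Set.Iio ν → Z))
          ≤ Cardinal.sum (fun _ : J => (2 : Cardinal.{u}) ^ μ) := Cardinal.sum_le_sum _ _ h3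
        _ = #J * 2 ^ μ := by simp
        _ ≤ 2 ^ μ * 2 ^ μ := by
            rw [hJc]
            gcongr
            exact Order.succ_le_of_lt (Cardinal.cantor μ)
        _ = 2 ^ μ := Cardinal.mul_eq_self (hμ.trans (Cardinal.cantor μ).le)
    exact absurd (h1.trans h2) (not_le.mpr hU)
  have hvu := fun ν => hv u ν (fun ν' _ => hu ν')
  have hinj : Function.Injective (v u) := by
    intro i j hij
    rcases lt_trichotomy i j with h | h | h
    · exact absurd hij.symm ((hvu j).1 i h).1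
    · exact h
    · exact absurd hij ((hvu i).1 j h).1
  obtain ⟨z, hz⟩ := ph hreg (Set.univ : Set J) (by rw [Cardinal.mk_univ, hJc])
    (fun ν => g' (v u ν) u) (hZ.trans_lt (Order.lt_succ μ))
  refine ⟨(v u) '' {x | x ∈ Set.univ ∧ g' (v u x) u = z}, ?_, z, ?_⟩
  · rw [Cardinal.mk_image_eq hinj]
    exact hz
  · rintro _ ⟨ν1, ⟨-, h1⟩, rfl⟩ _ ⟨ν2, ⟨-, h2⟩, rfl⟩ hlt
    have hg : g (v u ν1) (v u ν2) = g' (v u ν1) (v u ν2) := by simp [g', hlt]
    rw [hg]
    rcases lt_trichotomy ν1 ν2 with h | h | h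
    · rw [((hvu ν2).1 ν1 h).2, h1]
    · rw [h] at hlt
      exact absurd hlt (lt_irrefl _)
    · rw [hsymm _ _ hlt.ne, ((hvu ν1).1 ν2 h).2, h2]

end Pool.Agent.H764R3.ER
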