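import Mathlib

set_option autoImplicit false

open Set Topology Filter

namespace Pool.Agent.H764R3.RC

/-- a finite set of coordinates of a point of the closure of the evaluations can be approximated -/
theorem approx {Y : Type} [TopologicalSpace Y] (Φ : {g : Y → ℝ // Continuous g} → ℝ)
    (hΦ : Φ ∈ closure (Set.range (fun (y : Y) (g : {g : Y → ℝ // Continuous g}) => g.1 y)))
    (F : Finset {g : Y → ℝ // Continuous g}) (δ : ℝ) (hδ : 0 < δ) :
    ∃ y : Y, ∀ g ∈ F, |g.1 y - Φ g| < δ := by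
  have hopen : IsOpen {Ψ : {g : Y → ℝ // Continuous g} → ℝ | ∀ g ∈ F, |Ψ g - Φ g| < δ} := by
    have : {Ψ : {g : Y → ℝ // Continuous g} → ℝ | ∀ g ∈ F, |Ψ g - Φ g| < δ} =
        ⋂ g ∈ F, {Ψ | |Ψ g - Φ g| < δ} := by
      ext Ψ
      simp
    rw [this]
    exact isOpen_biInter_finset fun g _ =>
      isOpen_lt ((continuous_apply g).sub continuous_const).abs continuous_const
  obtain ⟨Ψ, hΨ, ⟨y, rfl⟩⟩ := mem_closure_iff.1 hΦ _ hopen (by
    intro g _
    simpa using hδ)
  exact ⟨y, hΨ⟩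

/-- countably many coordinates of a point of the closure of the evaluations are attained -/
theorem hit {Y : Type} [TopologicalSpace Y] (Φ : {g : Y → ℝ // Continuous g} → ℝ)
    (hΦ : Φ ∈ closure (Set.range (fun (y : Y) (g : {g : Y → ℝ // Continuous g}) => g.1 y)))
    (G : ℕ → {g : Y → ℝ // Continuous g}) : ∃ y : Y, ∀ n, (G n).1 y = Φ (G n) := by
  classical
  by_contra hcon
  push Not at hcon
  let t : ℕ → Y → ℝ := fun n y => (1 / 2 : ℝ) ^ n * min 1 |(G n).1 y - Φ (G n)|
  have ht0 : ∀ n y, 0 ≤ t n y := fun n y => by positivity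
  have ht1 : ∀ n y, t n y ≤ (1 / 2 : ℝ) ^ n := fun n y =>
    mul_le_of_le_one_right (by positivity) (min_le_left _ _)
  have hsum : ∀ y, Summable fun n => t n y := fun y =>
    Summable.of_nonneg_of_le (fun n => ht0 n y) (fun n => ht1 n y) summable_geometric_two
  have htc : ∀ n, Continuous (t n) := fun n =>
    continuous_const.mul (continuous_const.min (((G n).2.sub continuous_const).abs))
  have hwc : Continuous fun y => ∑' n, t n y := by
    refine continuous_tsum htc summable_geometric_two (fun n y => ?_)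
    rw [Real.norm_eq_abs, abs_of_nonneg (ht0 n y)]
    exact ht1 n y
  have hw0 : ∀ y, 0 < ∑' n, t n y := by
    intro y
    obtain ⟨n, hn⟩ := hcon y
    refine (hsum y).tsum_pos (fun n => ht0 n y) n ?_
    have : 0 < |(G n).1 y - Φ (G n)| := abs_pos.2 (sub_ne_zero.2 hn)
    show 0 < (1 / 2 : ℝ) ^ n * min 1 |(G n).1 y - Φ (G n)|
    positivity
  let u : {g : Y → ℝ // Continuous g} := ⟨fun y => (∑' n, t n y)⁻¹, hwc.inv₀ fun y => (hw0 y).ne'⟩
  set R : ℝ := |Φ u| + 1 with hR
  have hRpos : 0 < R := by positivity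
  obtain ⟨N, hN⟩ := exists_pow_lt_of_lt_one (show (0:ℝ) < 1 / (8 * R) by positivity)
    (show (1 / 2 : ℝ) < 1 by norm_num)
  have hδ : (0:ℝ) < 1 / (8 * R) := by positivity
  obtain ⟨y, hy⟩ := approx Φ hΦ (insert u ((Finset.range N).image G)) (min 1 (1 / (8 * R)))
    (lt_min one_pos hδ)
  have hyu := hy u (Finset.mem_insert_self _ _)
  have hyG : ∀ n < N, |(G n).1 y - Φ (G n)| < 1 / (8 * R) := fun n hn =>
    (hy (G n) (Finset.mem_insert_of_mem (Finset.mem_image_of_mem _ (Finset.mem_range.2 hn)))).trans_le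
      (min_le_right _ _)
  have hsplit := (hsum y).sum_add_tsum_nat_add N
  have h1 : ∑ n ∈ Finset.range N, t n y ≤ 2 * (1 / (8 * R)) := by
    have h2 : ∑ n ∈ Finset.range N, t n y ≤
        ∑ n ∈ Finset.range N, (1 / 2 : ℝ) ^ n * (1 / (8 * R)) := by
      refine Finset.sum_le_sum fun n hn => ?_
      refine mul_le_mul_of_nonneg_left ?_ (by positivity)
      exact (min_le_right _ _).trans (hyG n (Finset.mem_range.1 hn)).le
    refine h2.trans ?_
    rw [← Finset.sum_mul]
    refine mul_le_mul_of_nonneg_right ?_ hδ.le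
    have h3 := Summable.sum_le_tsum (f := fun n : ℕ => (1 / 2 : ℝ) ^ n) (Finset.range N)
      (fun n _ => by positivity) summable_geometric_two
    rwa [tsum_geometric_two] at h3
  have h4 : ∑' n, t (n + N) y ≤ 2 * (1 / 2 : ℝ) ^ N := by
    have h5 : Summable fun n : ℕ => (1 / 2 : ℝ) ^ (n + N) := by
      simpa [pow_add] using summable_geometric_two.mul_right ((1 / 2 : ℝ) ^ N)
    have h6 : ∑' n, t (n + N) y ≤ ∑' n : ℕ, (1 / 2 : ℝ) ^ (n + N) :=
      Summable.tsum_le_tsum (fun n => ht1 _ _) ((summable_nat_add_iff N).2 (hsum y)) h5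
    refine h6.trans ?_
    simp_rw [pow_add]
    rw [tsum_mul_right, tsum_geometric_two]
  have h7 : ∑' n, t n y < 1 / R := by
    rw [← hsplit]
    have h8 : 2 * (1 / (8 * R)) + 2 * (1 / (8 * R)) = 1 / (2 * R) := by
      field_simp
      norm_num
    have h9 : 1 / (2 * R) < 1 / R := by
      apply one_div_lt_one_div_of_lt hRpos
      linarith
    have h10 : 2 * (1 / 2 : ℝ) ^ N ≤ 2 * (1 / (8 * R)) := by linarith
    linarith
  have h11 : R < u.1 y := by
    show R < (∑' n, t n y)⁻¹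
    rw [lt_inv_comm₀ hRpos (hw0 y)]
    simpa using h7
  have h12 : |u.1 y - Φ u| < 1 := hyu.trans_le (min_le_left _ _)
  have h13 := (abs_lt.1 h12).2
  have h14 := le_abs_self (Φ u)
  linarith

section cp

variable {X : Type} [TopologicalSpace X]

/-- continuous real functions with the topology of pointwise convergence -/
abbrev Cp (X : Type) [TopologicalSpace X] : Type := {f : X → ℝ // Continuous f}

/-- interpolation on finite sets -/
theorem interp [T35Space X] (E : Finset X) (t : X → ℝ) : ∃ f : Cp X, ∀ x ∈ E, f.1 x = t x := by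
  classical
  have h1 : ∀ x : X, ∃ p : X → ℝ, Continuous p ∧ p x = 1 ∧ ∀ y ∈ E, y ≠ x → p y = 0 := by
    intro x
    have hcl : IsClosed ((E.erase x : Finset X) : Set X) := (E.erase x).finite_toSet.isClosed
    obtain ⟨f, hf, h0, h1⟩ := CompletelyRegularSpace.completely_regular x _ hcl (by simp)
    refine ⟨fun z => 1 - (f z : ℝ), continuous_const.sub (continuous_subtype_val.comp hf), ?_, ?_⟩
    · show 1 - (f x : ℝ) = 1
      rw [h0]
      simp
    · intro y hy hyx
      show 1 - (f y : ℝ) = 0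
      rw [h1 (by simp [hy, hyx])]
      simp
  choose p hpc hp1 hp0 using h1
  refine ⟨⟨fun z => ∑ x ∈ E, t x * p x z, continuous_finsetSum _ fun x _ =>
    continuous_const.mul (hpc x)⟩, fun y hy => ?_⟩
  show ∑ x ∈ E, t x * p x y = t y
  rw [Finset.sum_eq_single y]
  · rw [hp1, mul_one]
  · intro x _ hxy
    rw [hp0 x y hy (Ne.symm hxy), mul_zero]
  · intro h
    exact absurd hy h

/-- boxes -/
def box (c : Finset X × (X → ℝ) × ℝ) : Set (X → ℝ) := {t | ∀ x ∈ c.1, |t x - c.2.1 x| < c.2.2}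

theorem box_countable (𝒞 : Set (Finset X × (X → ℝ) × ℝ)) (hpos : ∀ c ∈ 𝒞, 0 < c.2.2)
    (hdis : ∀ c ∈ 𝒞, ∀ d ∈ 𝒞, c ≠ d → Disjoint (box c) (box d)) : 𝒞.Countable := by
  classical
  let γ : X → MeasureTheory.Measure ℝ := fun _ => ProbabilityTheory.gaussianReal 0 1
  let μ : MeasureTheory.Measure (X → ℝ) := MeasureTheory.Measure.infinitePi γ
  have hbox : ∀ c : Finset X × (X → ℝ) × ℝ,
      box c = Set.pi (c.1 : Set X) fun x => Metric.ball (c.2.1 x) c.2.2 := by
    intro c
    ext t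
    simp only [box, Set.mem_setOf_eq, Set.mem_pi, Finset.mem_coe, Metric.mem_ball, Real.dist_eq]
  have hmeas : ∀ c : 𝒞, MeasurableSet (box c.1) := by
    intro c
    rw [hbox]
    exact MeasurableSet.pi c.1.1.countable_toSet fun x _ => measurableSet_ball
  have hd : Pairwise (Function.onFun Disjoint fun c : 𝒞 => box c.1) := by
    intro c d hcd
    exact hdis c.1 c.2 d.1 d.2 fun h => hcd (Subtype.ext h)
  have h1 := MeasureTheory.Measure.countable_meas_pos_of_disjoint_iUnion (μ := μ) hmeas hd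
  have h2 : {c : 𝒞 | 0 < μ (box c.1)} = univ := by
    ext c
    simp only [Set.mem_setOf_eq, Set.mem_univ, iff_true]
    rw [hbox]
    rw [MeasureTheory.Measure.infinitePi_pi _ (fun x _ => measurableSet_ball)]
    rw [pos_iff_ne_zero, Finset.prod_ne_zero_iff]
    intro x _ h0
    have h3 := ProbabilityTheory.gaussianReal_absolutelyContinuous' 0 (v := 1) one_ne_zero h0
    have h4 : 0 < MeasureTheory.volume (Metric.ball (c.1.2.1 x) c.1.2.2) :=
      Metric.measure_ball_pos _ _ (hpos c.1 c.2)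
    exact h4.ne' h3
  rw [h2] at h1
  have : Countable 𝒞 := Set.countable_univ_iff.1 h1
  exact Set.to_countable 𝒞

theorem nbhd {U : Set (Cp X)} (hU : IsOpen U) {f : Cp X} (hf : f ∈ U) :
    ∃ (E : Finset X) (ε : ℝ), 0 < ε ∧ ∀ g : Cp X, (∀ x ∈ E, |g.1 x - f.1 x| < ε) → g ∈ U := by
  classical
  obtain ⟨V, hV, rfl⟩ := isOpen_induced_iff.1 hU
  obtain ⟨E, u, hu, hsub⟩ := isOpen_pi_iff.1 hV f.1 hf
  have h1 : ∀ x : X, ∃ ε : ℝ, 0 < ε ∧ (x ∈ E → Metric.ball (f.1 x) ε ⊆ u x) := by
    intro x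
    by_cases hx : x ∈ E
    · obtain ⟨ε, hε, hb⟩ := Metric.isOpen_iff.1 (hu x hx).1 _ (hu x hx).2
      exact ⟨ε, hε, fun _ => hb⟩
    · exact ⟨1, one_pos, fun h => absurd h hx⟩
  choose ε hε hεu using h1
  obtain ⟨δ, hδ, hδE⟩ : ∃ δ : ℝ, 0 < δ ∧ ∀ x ∈ E, δ ≤ ε x := by
    clear hu hsub hεu
    induction E using Finset.induction_on with
    | empty => exact ⟨1, one_pos, by simp⟩
    | insert a s ha ih =>
      obtain ⟨δ, hδ, h⟩ := ih
      refine ⟨min δ (ε a), lt_min hδ (hε a), fun x hx => ?_⟩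
      rcases Finset.mem_insert.1 hx with rfl | hx
      · exact min_le_right _ _
      · exact (min_le_left _ _).trans (h x hx)
  refine ⟨E, δ, hδ, fun g hg => hsub fun x hx => hεu x hx ?_⟩
  rw [Metric.mem_ball, Real.dist_eq]
  exact (hg x hx).trans_le (hδE x hx)

/-- an open set of `C_p(X)` is separated from its exterior by countably many coordinates -/
theorem sep [T35Space X] (V : Set (Cp X)) (hV : IsOpen V) :
    ∃ A : Set X, A.Countable ∧ ∀ (f : Cp X) (U : Set (Cp X)), IsOpen U → f ∈ U → Disjoint U V →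
      ∃ E : Finset X, (E : Set X) ⊆ A ∧ ∃ δ : ℝ, 0 < δ ∧
        ∀ g : Cp X, (∀ x ∈ E, |g.1 x - f.1 x| < δ) → g ∉ V := by
  classical
  let S : Set (Set (Finset X × (X → ℝ) × ℝ)) :=
    {𝒞 | (∀ c ∈ 𝒞, 0 < c.2.2) ∧ (∀ c ∈ 𝒞, ∀ g : Cp X, g.1 ∈ box c → g ∈ V) ∧
      ∀ c ∈ 𝒞, ∀ d ∈ 𝒞, c ≠ d → Disjoint (box c) (box d)}
  obtain ⟨𝒞, h𝒞⟩ := zorn_subset S (by
    intro K hK hchain
    refine ⟨⋃₀ K, ⟨?_, ?_, ?_⟩, fun s hs => subset_sUnion_of_mem hs⟩
    · rintro c ⟨s, hs, hc⟩
      exact (hK hs).1 c hc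
    · rintro c ⟨s, hs, hc⟩
      exact (hK hs).2.1 c hc
    · rintro c ⟨s, hs, hc⟩ d ⟨s', hs', hd⟩ hcd
      rcases hchain.total hs hs' with h | h
      · exact (hK hs').2.2 c (h hc) d hd hcd
      · exact (hK hs).2.2 c hc d (h hd) hcd)
  have hS := h𝒞.prop
  have hcount := box_countable 𝒞 hS.1 hS.2.2
  refine ⟨⋃ c ∈ 𝒞, (c.1 : Set X), hcount.biUnion fun c _ => c.1.countable_toSet, ?_⟩
  intro f U hU hfU hdis
  obtain ⟨E, ε, hε, hE⟩ := nbhd hU hfU
  refine ⟨E.filter fun x => x ∈ ⋃ c ∈ 𝒞, (c.1 : Set X), fun x hx => ?_, ε, hε, ?_⟩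
  · exact (Finset.mem_filter.1 (Finset.mem_coe.1 hx)).2
  intro g hg hgV
  -- a small box around `g` inside `V`
  obtain ⟨E1, ε1, hε1, hE1⟩ := nbhd hV hgV
  set E' := E.filter fun x => x ∈ ⋃ c ∈ 𝒞, (c.1 : Set X) with hE'
  obtain ⟨η, hη, hηE⟩ : ∃ η : ℝ, 0 < η ∧ ∀ x ∈ E', |g.1 x - f.1 x| + η ≤ ε := by
    clear hE'
    clear_value E'
    induction E' using Finset.induction_on with
    | empty => exact ⟨1, one_pos, by simp⟩
    | insert a s ha ih =>
      obtain ⟨η, hη, h⟩ := ih fun x hx => hg x (Finset.mem_insert_of_mem hx)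
      have ha1 := hg a (Finset.mem_insert_self _ _)
      refine ⟨min η (ε - |g.1 a - f.1 a|), lt_min hη (by linarith), fun x hx => ?_⟩
      rcases Finset.mem_insert.1 hx with rfl | hx
      · have := min_le_right η (ε - |g.1 x - f.1 x|)
        linarith
      · have := h x hx
        have := min_le_left η (ε - |g.1 a - f.1 a|)
        linarith
  let c0 : Finset X × (X → ℝ) × ℝ := (E1 ∪ E', g.1, min ε1 η)
  have hc0 : ∀ t : Cp X, t.1 ∈ box c0 → t ∈ V := by
    intro t ht
    apply hE1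
    intro x hx
    exact (ht x (Finset.mem_union_left _ hx)).trans_le (min_le_left _ _)
  -- some member of the family meets it
  obtain ⟨c, hc, hmeet⟩ : ∃ c ∈ 𝒞, ¬ Disjoint (box c) (box c0) := by
    by_contra hno
    push Not at hno
    have hmem : insert c0 𝒞 ∈ S := by
      refine ⟨?_, ?_, ?_⟩
      · intro d hd
        rcases mem_insert_iff.1 hd with rfl | hd
        · exact lt_min hε1 hη
        · exact hS.1 d hd
      · intro d hd
        rcases mem_insert_iff.1 hd with rfl | hd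
        · exact hc0
        · exact hS.2.1 d hd
      · intro d hd d' hd' hne
        rcases mem_insert_iff.1 hd with rfl | hd
        · rcases mem_insert_iff.1 hd' with rfl | hd'
          · exact absurd rfl hne
          · exact (hno d' hd').symm
        · rcases mem_insert_iff.1 hd' with rfl | hd'
          · exact hno d hd
          · exact hS.2.2 d hd d' hd' hne
    have h1 := h𝒞.eq_of_subset hmem (subset_insert _ _)
    have h2 : c0 ∈ 𝒞 := by
      rw [h1]
      exact mem_insert _ _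
    have h3 := hno c0 h2
    have h4 : g.1 ∈ box c0 := by
      intro x _
      simp only [c0, sub_self, abs_zero]
      exact lt_min hε1 hη
    exact Set.disjoint_left.1 h3 h4 h4
  obtain ⟨t, ht, ht0⟩ := Set.not_disjoint_iff.1 hmeet
  obtain ⟨k, hk⟩ := interp (c.1 ∪ E) (fun x => if x ∈ ⋃ c ∈ 𝒞, (c.1 : Set X) then t x else f.1 x)
  have hkc : k.1 ∈ box c := by
    intro x hx
    rw [hk x (Finset.mem_union_left _ hx), if_pos]
    · exact ht x hx
    · exact mem_biUnion hc (Finset.mem_coe.2 hx)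
  have hkV := hS.2.1 c hc k hkc
  have hkU : k ∈ U := by
    apply hE
    intro x hx
    rw [hk x (Finset.mem_union_right _ hx)]
    by_cases hxA : x ∈ ⋃ c ∈ 𝒞, (c.1 : Set X)
    · rw [if_pos hxA]
      have hxE' : x ∈ E' := Finset.mem_filter.2 ⟨hx, hxA⟩
      have h5 := ht0 x (Finset.mem_union_right _ hxE')
      have h6 : |t x - g.1 x| < η := h5.trans_le (min_le_right _ _)
      have h7 := hηE x hxE'
      have h8 : |t x - f.1 x| ≤ |t x - g.1 x| + |g.1 x - f.1 x| := abs_sub_le _ _ _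
      linarith
    · rw [if_neg hxA, sub_self, abs_zero]
      exact hε
  exact Set.disjoint_left.1 hdis hkU hkV

/-- continuous functions on `C_p(X)` depend continuously on countably many coordinates -/
theorem factor [T35Space X] (g : Cp X → ℝ) (hg : Continuous g) :
    ∃ A : Set X, A.Countable ∧ ∀ (f : Cp X) (ε : ℝ), 0 < ε →
      ∃ E : Finset X, (E : Set X) ⊆ A ∧ ∃ δ : ℝ, 0 < δ ∧
        ∀ f' : Cp X, (∀ x ∈ E, |f'.1 x - f.1 x| < δ) → |g f' - g f| ≤ ε := by
  classical
  choose A hA hAs using fun r : ℚ => sep {f : Cp X | (r : ℝ) < g f} (isOpen_lt continuous_const hg)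
  choose B hB hBs using fun r : ℚ => sep {f : Cp X | g f < (r : ℝ)} (isOpen_lt hg continuous_const)
  refine ⟨(⋃ r, A r) ∪ (⋃ r, B r), (countable_iUnion hA).union (countable_iUnion hB), ?_⟩
  intro f ε hε
  obtain ⟨r, hr1, hr2⟩ := exists_rat_btwn (show g f < g f + ε by linarith)
  obtain ⟨q, hq1, hq2⟩ := exists_rat_btwn (show g f - ε < g f by linarith)
  obtain ⟨E1, hE1, δ1, hδ1, h1⟩ := hAs r f {f | g f < (r : ℝ)} (isOpen_lt hg continuous_const) hr1
    (by
      rw [Set.disjoint_left]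
      intro x hx hx'
      exact lt_asymm (show g x < (r : ℝ) from hx) hx')
  obtain ⟨E2, hE2, δ2, hδ2, h2⟩ := hBs q f {f | (q : ℝ) < g f} (isOpen_lt continuous_const hg) hq2
    (by
      rw [Set.disjoint_left]
      intro x hx hx'
      exact lt_asymm (show (q : ℝ) < g x from hx) hx')
  refine ⟨E1 ∪ E2, ?_, min δ1 δ2, lt_min hδ1 hδ2, fun f' hf' => ?_⟩
  · rw [Finset.coe_union]
    exact union_subset_union (hE1.trans (subset_iUnion A r)) (hE2.trans (subset_iUnion B q))
  · have h3 : ¬ (r : ℝ) < g f' := h1 f' fun x hx =>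
      (hf' x (Finset.mem_union_left _ hx)).trans_le (min_le_left _ _)
    have h4 : ¬ g f' < (q : ℝ) := h2 f' fun x hx =>
      (hf' x (Finset.mem_union_right _ hx)).trans_le (min_le_right _ _)
    rw [abs_le]
    constructor <;> linarith

end cp

end Pool.Agent.H764R3.RC
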