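import Pool.Agent.H764R3.RC1

set_option autoImplicit false

open Set Topology Filter

namespace Pool.Agent.H764R3.RC

/-- the points of the Cantor set -/
abbrev DD : Type := ℕ → Bool
/-- tags -/
abbrev TT : Type := ℕ → Bool
/-- coordinates: digits, separators, free coordinates -/
abbrev QQ : Type := ℕ ⊕ (DD ⊕ TT)
/-- base points -/
abbrev LL : Type := DD ⊕ TT

theorem notCountable : ¬ Countable TT := by
  intro h
  have h1 : Cardinal.mk (ℕ → Bool) ≤ Cardinal.aleph0 := Cardinal.mk_le_aleph0_iff.2 h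
  have h2 : Cardinal.mk (ℕ → Bool) = Cardinal.continuum := by
    rw [← Cardinal.power_def, Cardinal.mk_bool, Cardinal.mk_nat, Cardinal.two_power_aleph0]
  rw [h2] at h1
  exact absurd h1 (not_le.2 Cardinal.aleph0_lt_continuum)

theorem exF1 : ∃ F : TT → (ℕ → QQ) × (ℕ → Bool) × ℕ∞, Function.Surjective F := by
  have : Nonempty (TT ≃ (ℕ → QQ) × (ℕ → Bool) × ℕ∞) := by
    rw [← Cardinal.eq]
    simp
  obtain ⟨e⟩ := this
  exact ⟨e, e.surjective⟩

theorem exF2 : ∃ F : TT → (ℕ → LL) × (ℕ → Bool), ∀ p, ¬ (F ⁻¹' {p}).Countable := by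
  have : Nonempty (TT ≃ ((ℕ → LL) × (ℕ → Bool)) × TT) := by
    rw [← Cardinal.eq]
    simp
  obtain ⟨e⟩ := this
  refine ⟨fun t => (e t).1, fun p hp => ?_⟩
  have h1 : (Set.range fun u : TT => e.symm (p, u)) ⊆ (fun t => (e t).1) ⁻¹' {p} := by
    rintro _ ⟨u, rfl⟩
    simp
  have h2 : (Set.range fun u : TT => e.symm (p, u)).Countable := hp.mono h1
  have h3 : Function.Injective fun u : TT => e.symm (p, u) := by
    intro u v huv
    have := e.symm.injective huv
    simpa using this
  have h4 : Countable TT := by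
    have : Countable (Set.range fun u : TT => e.symm (p, u)) := h2.to_subtype
    exact (Equiv.ofInjective _ h3).countable_iff.2 this
  exact notCountable h4

/-- the first coding -/
noncomputable def F1 : TT → (ℕ → QQ) × (ℕ → Bool) × ℕ∞ := exF1.choose

theorem F1_surj : Function.Surjective F1 := exF1.choose_spec

/-- the second coding -/
noncomputable def F2 : TT → (ℕ → LL) × (ℕ → Bool) := exF2.choose

theorem F2_fib : ∀ p, ¬ (F2 ⁻¹' {p}).Countable := exF2.choose_spec

open Classical in
/-- look up the value attached to the first occurrence of `a` -/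
noncomputable def look {α : Type} (s : ℕ → α) (b : ℕ → Bool) (a : α) : Option Bool :=
  if h : ∃ n, s n = a then some (b (Nat.find h)) else none

theorem look_some {α : Type} (s : ℕ → α) (g : α → Bool) (a : α) (h : a ∈ Set.range s) :
    look s (fun n => g (s n)) a = some (g a) := by
  classical
  have h' : ∃ n, s n = a := h
  rw [look, dif_pos h', Nat.find_spec h']

theorem look_none {α : Type} (s : ℕ → α) (b : ℕ → Bool) (a : α) (h : a ∉ Set.range s) :
    look s b a = none := by
  classical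
  have h' : ¬ ∃ n, s n = a := h
  rw [look, dif_neg h']

open Classical in
/-- the bits -/
noncomputable def bit : LL → QQ → Bool
  | Sum.inl x, Sum.inl n => x n
  | Sum.inl x, Sum.inr (Sum.inl y) => decide (x = y)
  | Sum.inl x, Sum.inr (Sum.inr t) => (look (F2 t).1 (F2 t).2 (Sum.inl x)).getD false
  | Sum.inr t', Sum.inl n => (look (F1 t').1 (F1 t').2.1 (Sum.inl n)).getD false
  | Sum.inr t', Sum.inr (Sum.inl y) => (look (F1 t').1 (F1 t').2.1 (Sum.inr (Sum.inl y))).getD false
  | Sum.inr t', Sum.inr (Sum.inr t) => (look (F1 t').1 (F1 t').2.1 (Sum.inr (Sum.inr t))).getD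
      ((look (F2 t).1 (F2 t).2 (Sum.inr t')).getD false)

/-- filler points: countably many coordinates may be prescribed -/
theorem P1 (B : Set QQ) (hB : B.Countable) (y : QQ → Bool) (v : ℕ∞) :
    ∃ t : TT, (F1 t).2.2 = v ∧ ∀ α ∈ B, bit (Sum.inr t) α = y α := by
  obtain ⟨s, hs⟩ : ∃ s : ℕ → QQ, B ⊆ Set.range s := by
    obtain ⟨s, hs⟩ := (hB.insert (Sum.inl 0)).exists_eq_range (insert_nonempty _ _)
    exact ⟨s, hs ▸ subset_insert _ _⟩
  obtain ⟨t, ht⟩ := F1_surj (s, (fun n => y (s n)), v)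
  refine ⟨t, by rw [ht], fun α hα => ?_⟩
  have h := look_some s y α (hs hα)
  match α, h with
  | Sum.inl n, h =>
    simp only [bit, ht, h, Option.getD_some]
  | Sum.inr (Sum.inl n), h =>
    simp only [bit, ht, h, Option.getD_some]
  | Sum.inr (Sum.inr n), h =>
    simp only [bit, ht, h, Option.getD_some]

/-- free coordinates: the bits of countably many base points may be prescribed -/
theorem P2 (A : Set LL) (hA : A.Countable) (g : LL → Bool) : ∃ α : QQ, ∀ l ∈ A, bit l α = g l := by
  obtain ⟨s, hs⟩ : ∃ s : ℕ → LL, A ⊆ Set.range s := by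
    obtain ⟨s, hs⟩ := (hA.insert (Sum.inl fun _ => false)).exists_eq_range (insert_nonempty _ _)
    exact ⟨s, hs ▸ subset_insert _ _⟩
  have hbad : (⋃ n : ℕ, {t : TT | ∃ t', s n = Sum.inr t' ∧
      (Sum.inr (Sum.inr t) : QQ) ∈ Set.range (F1 t').1}).Countable := by
    refine countable_iUnion fun n => ?_
    rcases hsn : s n with x | t'
    · simp
    · have h1 : {t : TT | ∃ t'_1, (Sum.inr t' : LL) = Sum.inr t'_1 ∧
          (Sum.inr (Sum.inr t) : QQ) ∈ Set.range (F1 t'_1).1} =
          (fun t : TT => (Sum.inr (Sum.inr t) : QQ)) ⁻¹' Set.range (F1 t').1 := by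
        ext t
        simp
      rw [h1]
      refine (countable_range _).preimage_of_injOn ?_
      intro a _ b _ hab
      simpa using hab
  obtain ⟨t, ht, htb⟩ : ∃ t, F2 t = (s, fun n => g (s n)) ∧ t ∉ (⋃ n : ℕ, {t : TT | ∃ t',
      s n = Sum.inr t' ∧ (Sum.inr (Sum.inr t) : QQ) ∈ Set.range (F1 t').1}) := by
    by_contra hcon
    push Not at hcon
    exact F2_fib (s, fun n => g (s n)) (hbad.mono fun t ht => hcon t ht)
  refine ⟨Sum.inr (Sum.inr t), fun l hl => ?_⟩
  have h := look_some s g l (hs hl)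
  match l, h, hl with
  | Sum.inl x, h, _ =>
    simp only [bit, ht, h, Option.getD_some]
  | Sum.inr t', h, hl =>
    have h2 : look (F1 t').1 (F1 t').2.1 (Sum.inr (Sum.inr t)) = none := by
      apply look_none
      intro h3
      obtain ⟨n, hn⟩ := hs hl
      exact htb (mem_iUnion.2 ⟨n, t', hn, h3⟩)
    simp only [bit, ht, h, h2, Option.getD_some, Option.getD_none]

/-- the underlying set of the space -/
inductive XX : Type
  | line (x : DD) (j : ℕ∞) : XX
  | fill (t : TT) : XX

namespace XX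

/-- base point -/
def base : XX → LL
  | line x _ => Sum.inl x
  | fill t => Sum.inr t

/-- the second coordinate -/
noncomputable def val : XX → ℕ∞
  | line _ j => j
  | fill t => (F1 t).2.2

end XX

open XX

/-- the compact space containing `XX` -/
abbrev PP : Type := (QQ → Bool) × ℕ∞

/-- the embedding -/
noncomputable def emb (a : XX) : PP := (bit a.base, a.val)

noncomputable instance : TopologicalSpace XX := TopologicalSpace.induced emb inferInstance

theorem bit_inj : Function.Injective bit := by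
  intro l l' h
  by_contra hne
  classical
  obtain ⟨α, hα⟩ := P2 {l, l'} ((Set.finite_singleton _).insert _).countable (fun k => decide (k = l))
  have h1 := hα l (by simp)
  have h2 := hα l' (by simp)
  rw [h] at h1
  rw [h1] at h2
  simp [Ne.symm hne] at h2

theorem emb_inj : Function.Injective emb := by
  intro a b h
  have h1 : a.base = b.base := bit_inj (congrArg Prod.fst h)
  have h2 : a.val = b.val := congrArg Prod.snd h
  match a, b with
  | line x j, line x' j' =>
    simp only [base, Sum.inl.injEq] at h1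
    simp only [val] at h2
    rw [h1, h2]
  | line x j, fill t => simp [base] at h1
  | fill t, line x j => simp [base] at h1
  | fill t, fill t' =>
    simp only [base, Sum.inr.injEq] at h1
    rw [h1]

theorem emb_embedding : IsEmbedding emb := ⟨⟨rfl⟩, emb_inj⟩

theorem emb_cont : Continuous emb := emb_embedding.continuous

noncomputable instance : T35Space XX := emb_embedding.t35Space

/-- continuity in terms of finitely many bits -/
theorem cont_nhds (f : XX → ℝ) (hf : Continuous f) (a : XX) (η : ℝ) (hη : 0 < η) :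
    ∃ (F : Finset QQ) (V : Set ℕ∞), IsOpen V ∧ a.val ∈ V ∧
      ∀ b : XX, (∀ α ∈ F, bit b.base α = bit a.base α) → b.val ∈ V → |f b - f a| < η := by
  have h1 : IsOpen {b | |f b - f a| < η} :=
    isOpen_lt ((hf.sub continuous_const).abs) continuous_const
  obtain ⟨W, hW, hWf⟩ := isOpen_induced_iff.1 h1
  have haW : emb a ∈ W := by
    have : a ∈ emb ⁻¹' W := by
      rw [hWf]
      simpa using hη
    exact this
  obtain ⟨u, V, hu, hV, hau, haV, huV⟩ := isOpen_prod_iff.1 hW (emb a).1 (emb a).2 haW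
  obtain ⟨F, w, hw, hwu⟩ := isOpen_pi_iff.1 hu _ hau
  refine ⟨F, V, hV, haV, fun b hb hbV => ?_⟩
  have : b ∈ emb ⁻¹' W := by
    refine huV ⟨hwu fun α hα => ?_, hbV⟩
    have h2 : (emb b).1 α = (emb a).1 α := hb α hα
    rw [h2]
    exact (hw α hα).2
  rw [hWf] at this
  exact this

/-- the key limit lemma -/
theorem conv (f : XX → ℝ) (hf : Continuous f) (U : Filter ℕ) (p : ℕ → XX) (m : PP)
    (hm : Tendsto (fun k => emb (p k)) U (𝓝 m)) :
    ∃ B : Set QQ, B.Countable ∧ ∀ a : XX, (∀ α ∈ B, bit a.base α = m.1 α) → a.val = m.2 →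
      Tendsto (fun k => f (p k)) U (𝓝 (f a)) := by
  choose F V hV hpV hF using fun (k n : ℕ) =>
    cont_nhds f hf (p k) (1 / ((n : ℝ) + 1)) (by positivity)
  refine ⟨⋃ k, ⋃ n, (F k n : Set QQ), countable_iUnion fun k => countable_iUnion fun n =>
    (F k n).countable_toSet, fun a ha hav => ?_⟩
  rw [Metric.tendsto_nhds]
  intro η hη
  obtain ⟨G, W, hW, haW, hG⟩ := cont_nhds f hf a (η / 2) (by positivity)
  obtain ⟨n, hn⟩ := exists_nat_one_div_lt (show (0:ℝ) < η / 2 by positivity)
  have h1 : ∀ᶠ k in U, (emb (p k)).2 ∈ W := by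
    have h2 : Tendsto (fun k => (emb (p k)).2) U (𝓝 m.2) :=
      (continuous_snd.tendsto m).comp hm
    exact h2 (hW.mem_nhds (hav ▸ haW))
  have h2 : ∀ᶠ k in U, ∀ α ∈ G, (emb (p k)).1 α = m.1 α := by
    rw [eventually_all_finset]
    intro α _
    have h3 : Tendsto (fun k => (emb (p k)).1 α) U (𝓝 (m.1 α)) :=
      (((continuous_apply α).comp continuous_fst).tendsto m).comp hm
    exact h3 ((isOpen_discrete {m.1 α}).mem_nhds rfl)
  filter_upwards [h1, h2] with k hk1 hk2
  classical
  obtain ⟨t, htv, ht⟩ := P1 (↑(F k n) ∪ ↑G) ((F k n).countable_toSet.union G.countable_toSet)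
    (fun α => if α ∈ F k n then bit (p k).base α else bit a.base α) (p k).val
  have h3 : |f (fill t) - f (p k)| < 1 / ((n : ℝ) + 1) := by
    apply hF k n
    · intro α hα
      show bit (Sum.inr t) α = _
      rw [ht α (Or.inl hα), if_pos hα]
    · show (F1 t).2.2 ∈ _
      rw [htv]
      exact hpV k n
  have h4 : |f (fill t) - f a| < η / 2 := by
    apply hG
    · intro α hα
      show bit (Sum.inr t) α = _
      rw [ht α (Or.inr hα)]
      split_ifs with h5
      · rw [ha α (mem_iUnion.2 ⟨k, mem_iUnion.2 ⟨n, h5⟩⟩)]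
        exact hk2 α hα
      · rfl
    · show (F1 t).2.2 ∈ _
      rw [htv]
      exact hk1
  rw [Real.dist_eq]
  rw [abs_lt] at *
  constructor <;> linarith [h3.1, h3.2, h4.1, h4.2]

/-- continuous functions are bounded -/
theorem A1 (f : XX → ℝ) (hf : Continuous f) : ∃ M : ℝ, ∀ a, |f a| ≤ M := by
  by_contra hcon
  push Not at hcon
  choose p hp using fun k : ℕ => hcon k
  obtain ⟨m, hm⟩ : ∃ m : PP, Tendsto (fun k => emb (p k)) (hyperfilter ℕ : Filter ℕ) (𝓝 m) := by
    obtain ⟨m, _, hm⟩ := isCompact_univ.ultrafilter_le_nhds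
      ((hyperfilter ℕ).map fun k => emb (p k)) (by simp)
    exact ⟨m, hm⟩
  obtain ⟨B, hB, h⟩ := conv f hf _ p m hm
  obtain ⟨t, htv, ht⟩ := P1 B hB m.1 m.2
  have h1 := h (fill t) ht htv
  have h2 : ∀ᶠ k in (hyperfilter ℕ : Filter ℕ), |f (p k)| < |f (fill t)| + 1 :=
    h1.abs.eventually_lt_const (by linarith)
  have h3 : ∀ᶠ k : ℕ in (hyperfilter ℕ : Filter ℕ), |f (fill t)| + 1 ≤ (k : ℝ) :=
    Nat.hyperfilter_le_atTop (tendsto_natCast_atTop_atTop.eventually_ge_atTop _)
  obtain ⟨k, hk2, hk3⟩ := (h2.and h3).exists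
  linarith [hp k]

/-- continuous functions converge uniformly along the lines -/
theorem A2 (f : XX → ℝ) (hf : Continuous f) (ε : ℝ) (hε : 0 < ε) :
    ∃ k : ℕ, ∀ (x : DD) (j : ℕ), k ≤ j → |f (line x j) - f (line x ⊤)| ≤ ε := by
  by_contra hcon
  push Not at hcon
  choose x j hkj hp using hcon
  obtain ⟨m, hm⟩ : ∃ m : PP, Tendsto (fun k => emb (line (x k) (j k))) (hyperfilter ℕ : Filter ℕ)
      (𝓝 m) := by
    obtain ⟨m, _, hm⟩ := isCompact_univ.ultrafilter_le_nhds
      ((hyperfilter ℕ).map fun k => emb (line (x k) (j k))) (by simp)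
    exact ⟨m, hm⟩
  have hj : Tendsto (fun k => (j k : ℕ∞)) (hyperfilter ℕ : Filter ℕ) (𝓝 ⊤) := by
    have h1 : Tendsto j atTop atTop := tendsto_atTop_mono hkj tendsto_id
    exact (ENat.tendsto_natCast_nhds_top.comp h1).mono_left Nat.hyperfilter_le_atTop
  have hm2 : m.2 = ⊤ := by
    have h2 : Tendsto (fun k => (emb (line (x k) (j k))).2) (hyperfilter ℕ : Filter ℕ) (𝓝 m.2) :=
      (continuous_snd.tendsto m).comp hm
    exact tendsto_nhds_unique h2 hj
  have hm' : Tendsto (fun k => emb (line (x k) ⊤)) (hyperfilter ℕ : Filter ℕ) (𝓝 m) := by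
    have h2 : Tendsto (fun k => (emb (line (x k) (j k))).1) (hyperfilter ℕ : Filter ℕ) (𝓝 m.1) :=
      (continuous_fst.tendsto m).comp hm
    have h3 : Tendsto (fun k => (emb (line (x k) ⊤)).2) (hyperfilter ℕ : Filter ℕ) (𝓝 m.2) := by
      rw [hm2]
      exact tendsto_const_nhds
    exact h2.prodMk_nhds h3
  obtain ⟨B, hB, h⟩ := conv f hf _ _ m hm
  obtain ⟨B', hB', h'⟩ := conv f hf _ _ m hm'
  obtain ⟨t, htv, ht⟩ := P1 (B ∪ B') (hB.union hB') m.1 m.2
  have h1 := h (fill t) (fun α hα => ht α (Or.inl hα)) htv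
  have h2 := h' (fill t) (fun α hα => ht α (Or.inr hα)) htv
  have h3 := (h1.sub h2).abs
  rw [sub_self, abs_zero] at h3
  obtain ⟨k, hk⟩ := (h3.eventually_lt_const hε).exists
  linarith [hp k]

/-- a continuous function vanishing at infinity -/
theorem corr_cont (e : ℕ → ℝ) (he : Tendsto e atTop (𝓝 0)) (τ : (ℕ → Bool) → ℝ)
    (hτ : Continuous τ) (hτ1 : ∀ c, |τ c| ≤ 1) (β : ℕ → ℕ → QQ) :
    Continuous (fun q : PP => if q.2 = ⊤ then 0 else e q.2.toNat *
      τ (fun i => q.1 (β q.2.toNat i))) := by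
  rw [continuous_iff_continuousAt]
  intro q₀
  by_cases h : q₀.2 = ⊤
  · have h0 : (if q₀.2 = ⊤ then (0:ℝ) else e q₀.2.toNat * τ (fun i => q₀.1 (β q₀.2.toNat i))) = 0 :=
      if_pos h
    rw [ContinuousAt, h0, Metric.tendsto_nhds]
    intro η hη
    obtain ⟨N, hN⟩ := (Metric.tendsto_atTop.1 he) η hη
    have h1 : ∀ᶠ q : PP in 𝓝 q₀, (N : ℕ∞) < q.2 := by
      have : IsOpen {q : PP | (N : ℕ∞) < q.2} := isOpen_lt continuous_const continuous_snd
      refine this.mem_nhds ?_
      show (N : ℕ∞) < q₀.2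
      rw [h]
      exact ENat.natCast_lt_top N
    filter_upwards [h1] with q hq
    rw [Real.dist_eq, sub_zero]
    split_ifs with h2
    · simpa using hη
    · have h3 : N ≤ q.2.toNat := by
        obtain ⟨n, hn⟩ := ENat.ne_top_iff_exists.1 h2
        rw [← hn] at hq ⊢
        have : N < n := by exact_mod_cast hq
        simpa using this.le
      have h4 := hN _ h3
      rw [Real.dist_eq, sub_zero] at h4
      rw [abs_mul]
      calc |e q.2.toNat| * |τ fun i => q.1 (β q.2.toNat i)| ≤ |e q.2.toNat| * 1 :=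
            mul_le_mul_of_nonneg_left (hτ1 _) (abs_nonneg _)
        _ < η := by rwa [mul_one]
  · obtain ⟨n, hn⟩ := ENat.ne_top_iff_exists.1 h
    have h1 : ∀ᶠ q : PP in 𝓝 q₀, q.2 = n := by
      have : IsOpen {q : PP | q.2 ∈ ({(n : ℕ∞)} : Set ℕ∞)} :=
        (ENat.isOpen_singleton (by simp)).preimage continuous_snd
      exact this.mem_nhds hn.symm
    have h2 : (fun q : PP => if q.2 = ⊤ then 0 else e q.2.toNat *
        τ (fun i => q.1 (β q.2.toNat i))) =ᶠ[𝓝 q₀] fun q => e n * τ (fun i => q.1 (β n i)) := by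
      filter_upwards [h1] with q hq
      rw [hq, if_neg (ENat.natCast_ne_top n), ENat.toNat_natCast]
    rw [continuousAt_congr h2]
    refine Continuous.continuousAt ?_
    exact continuous_const.mul (hτ.comp (continuous_pi fun i =>
      (continuous_apply (β n i)).comp continuous_fst))

/-- the Hausdorff-Alexandroff parametrisation of the interval -/
theorem exτ : ∃ τ : (ℕ → Bool) → ℝ, Continuous τ ∧ (∀ c, |τ c| ≤ 1) ∧
    ∀ r : ℝ, |r| ≤ 1 → ∃ c, τ c = r := by
  have : Nonempty (Set.Icc (-1 : ℝ) 1) := ⟨⟨0, by norm_num, by norm_num⟩⟩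
  obtain ⟨f, hf, hs⟩ := exists_nat_bool_continuous_surjective_of_compact (Set.Icc (-1 : ℝ) 1)
  refine ⟨fun c => (f c : ℝ), continuous_subtype_val.comp hf, fun c => abs_le.2 (f c).2, ?_⟩
  intro r hr
  obtain ⟨c, hc⟩ := hs ⟨r, abs_le.1 hr⟩
  refine ⟨c, ?_⟩
  show (f c : ℝ) = r
  rw [hc]

/-- the class of functions that are countably approximated by continuous ones -/
def SS : Set (XX → ℝ) := {s | (∃ M : ℕ, ∀ a, |s a| ≤ M) ∧
  ∀ m : ℕ, ∃ k : ℕ, ∀ (x : DD) (j : ℕ), k ≤ j → |s (line x j) - s (line x ⊤)| ≤ 1 / ((m : ℝ) + 1)}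

theorem mem_SS (f : XX → ℝ) (hf : Continuous f) : f ∈ SS := by
  refine ⟨?_, fun m => A2 f hf _ (by positivity)⟩
  obtain ⟨M, hM⟩ := A1 f hf
  obtain ⟨N, hN⟩ := exists_nat_ge M
  exact ⟨N, fun a => (hM a).trans hN⟩

/-- the extension lemma -/
theorem extend (s : XX → ℝ) (hs : s ∈ SS) (A : Set XX) (hA : A.Countable) :
    ∃ f : Cp XX, ∀ a ∈ A, f.1 a = s a := by
  classical
  obtain ⟨⟨M, hM⟩, hlim⟩ := hs
  obtain ⟨τ, hτ, hτ1, hτs⟩ := exτ
  choose! code hcode using hτs
  have hbdd : ∀ j : ℕ, BddAbove (Set.range fun x : DD => |s (line x j) - s (line x ⊤)|) := by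
    intro j
    refine ⟨M + M, ?_⟩
    rintro _ ⟨x, rfl⟩
    exact (abs_sub _ _).trans (add_le_add (hM _) (hM _))
  let e : ℕ → ℝ := fun j => ⨆ x : DD, |s (line x j) - s (line x ⊤)|
  have he0 : ∀ j, 0 ≤ e j := fun j => Real.iSup_nonneg fun x => abs_nonneg _
  have hle : ∀ (j : ℕ) (x : DD), |s (line x j) - s (line x ⊤)| ≤ e j := fun j x =>
    le_ciSup (hbdd j) x
  have he : Tendsto e atTop (𝓝 0) := by
    rw [Metric.tendsto_atTop]
    intro η hη
    obtain ⟨m, hm⟩ := exists_nat_one_div_lt hη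
    obtain ⟨k, hk⟩ := hlim m
    refine ⟨k, fun j hj => ?_⟩
    rw [Real.dist_eq, sub_zero, abs_of_nonneg (he0 j)]
    exact (ciSup_le fun x => hk x j hj).trans_lt hm
  -- targets
  let S : LL → ℝ := fun l => match l with
    | Sum.inl x => s (line x ⊤)
    | Sum.inr t => s (fill t)
  let R : ℕ → LL → ℝ := fun j l => match l with
    | Sum.inl x => s (line x j) - s (line x ⊤)
    | Sum.inr _ => 0
  have hS : ∀ l, |S l| ≤ M := by
    rintro (x | t)
    · exact hM _
    · exact hM _
  have hR : ∀ j l, |R j l| ≤ e j := by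
    rintro j (x | t)
    · exact hle j x
    · show |(0:ℝ)| ≤ e j
      rw [abs_zero]
      exact he0 j
  have hAc : (base '' A).Countable := hA.image _
  choose α hα using fun i : ℕ => P2 (base '' A) hAc fun l => code (S l / (M + 1)) i
  choose β hβ using fun j i : ℕ => P2 (base '' A) hAc fun l => code (R j l / e j) i
  have hM1 : (0:ℝ) < M + 1 := by positivity
  have hcS : ∀ a ∈ A, (M + 1) * τ (fun i => bit a.base (α i)) = S a.base := by
    intro a ha
    have h1 : (fun i => bit a.base (α i)) = code (S a.base / (M + 1)) :=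
      funext fun i => hα i _ (mem_image_of_mem _ ha)
    rw [h1, hcode]
    · field_simp
    · rw [abs_div, abs_of_pos hM1, div_le_one hM1]
      linarith [hS a.base]
  have hcR : ∀ a ∈ A, ∀ j, e j * τ (fun i => bit a.base (β j i)) = R j a.base := by
    intro a ha j
    have h1 : (fun i => bit a.base (β j i)) = code (R j a.base / e j) :=
      funext fun i => hβ j i _ (mem_image_of_mem _ ha)
    rcases (he0 j).eq_or_lt with h0 | h0
    · have h2 := hR j a.base
      rw [← h0] at h2 ⊢
      rw [zero_mul]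
      exact (abs_nonpos_iff.1 h2).symm
    · rw [h1, hcode]
      · field_simp
      · rw [abs_div, abs_of_pos h0, div_le_one h0]
        exact hR j _
  refine ⟨⟨fun a => (M + 1) * τ (fun i => (emb a).1 (α i)) +
    (fun q : PP => if q.2 = ⊤ then 0 else e q.2.toNat *
      τ (fun i => q.1 (β q.2.toNat i))) (emb a), ?_⟩, ?_⟩
  · refine Continuous.add ?_ ((corr_cont e he τ hτ hτ1 β).comp emb_cont)
    exact continuous_const.mul (hτ.comp (continuous_pi fun i =>
      (continuous_apply (α i)).comp (continuous_fst.comp emb_cont)))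
  · intro a ha
    show (M + 1) * τ (fun i => bit a.base (α i)) +
      (if a.val = ⊤ then 0 else e a.val.toNat * τ (fun i => bit a.base (β a.val.toNat i))) = s a
    rw [hcS a ha, hcR a ha]
    match a with
    | line x j =>
      show s (line x ⊤) + (if j = ⊤ then (0:ℝ) else s (line x (j.toNat : ℕ∞)) - s (line x ⊤)) = s (line x j)
      split_ifs with h
      · rw [h, add_zero]
      · rw [ENat.natCast_toNat h]
        ring
    | fill t =>
      show s (fill t) + (if (fill t).val = ⊤ then (0:ℝ) else 0) = s (fill t)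
      simp

end Pool.Agent.H764R3.RC
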