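import Pool.Agent.H764R3.RC2

set_option autoImplicit false

open Set Topology Filter

namespace Pool.Agent.H764R3.RC

/-- the closure of the evaluations -/
abbrev Ups (Y : Type) [TopologicalSpace Y] : Set ({g : Y → ℝ // Continuous g} → ℝ) :=
  closure (Set.range (fun (y : Y) (g : {g : Y → ℝ // Continuous g}) => g.1 y))

theorem hitC {Y : Type} [TopologicalSpace Y] (Φ : {g : Y → ℝ // Continuous g} → ℝ)
    (hΦ : Φ ∈ Ups Y) (S : Set {g : Y → ℝ // Continuous g}) (hS : S.Countable) :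
    ∃ y : Y, ∀ g ∈ S, g.1 y = Φ g := by
  obtain ⟨G, hG⟩ := (hS.insert ⟨fun _ => (0:ℝ), continuous_const⟩).exists_eq_range
    (insert_nonempty _ _)
  obtain ⟨y, hy⟩ := hit Φ hΦ G
  refine ⟨y, fun g hg => ?_⟩
  have h1 : g ∈ Set.range G := by
    rw [← hG]
    exact mem_insert_of_mem _ hg
  obtain ⟨n, rfl⟩ := h1
  exact hy n

/-- point evaluation -/
def dl (a : XX) : {g : Cp XX → ℝ // Continuous g} :=
  ⟨fun f => f.1 a, (continuous_apply a).comp continuous_subtype_val⟩

/-- countable support of a continuous function on `Cp XX` -/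
noncomputable def supp (g : {g : Cp XX → ℝ // Continuous g}) : Set XX := (factor g.1 g.2).choose

theorem supp_countable (g : {g : Cp XX → ℝ // Continuous g}) : (supp g).Countable :=
  (factor g.1 g.2).choose_spec.1

theorem supp_spec (g : {g : Cp XX → ℝ // Continuous g}) : ∀ (f : Cp XX) (ε : ℝ), 0 < ε →
      ∃ E : Finset XX, (E : Set XX) ⊆ supp g ∧ ∃ δ : ℝ, 0 < δ ∧
        ∀ f' : Cp XX, (∀ x ∈ E, |f'.1 x - f.1 x| < δ) → |g.1 f' - g.1 f| ≤ ε :=
  (factor g.1 g.2).choose_spec.2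

open Classical in
/-- the extension of the evaluation to the larger class of functions -/
noncomputable def ev (s : XX → ℝ) (g : {g : Cp XX → ℝ // Continuous g}) : ℝ :=
  if h : s ∈ SS then g.1 (extend s h (supp g) (supp_countable g)).choose else 0

theorem ev_cont (s : XX → ℝ) (hs : s ∈ SS) (g : {g : Cp XX → ℝ // Continuous g}) (ε : ℝ)
    (hε : 0 < ε) : ∃ E : Finset XX, ∃ δ : ℝ, 0 < δ ∧
      ∀ s' ∈ SS, (∀ x ∈ E, |s' x - s x| < δ) → |ev s' g - ev s g| ≤ ε := by
  have h1 := (extend s hs (supp g) (supp_countable g)).choose_spec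
  obtain ⟨E, hE, δ, hδ, h⟩ := supp_spec g (extend s hs (supp g) (supp_countable g)).choose ε hε
  refine ⟨E, δ, hδ, fun s' hs' hss => ?_⟩
  have h2 := (extend s' hs' (supp g) (supp_countable g)).choose_spec
  have h3 : ev s' g = g.1 (extend s' hs' (supp g) (supp_countable g)).choose := dif_pos hs'
  have h4 : ev s g = g.1 (extend s hs (supp g) (supp_countable g)).choose := dif_pos hs
  rw [h3, h4]
  apply h
  intro x hx
  rw [h1 x (hE hx), h2 x (hE hx)]
  exact hss x hx

theorem ev_eq (s : XX → ℝ) (hs : s ∈ SS) (g : {g : Cp XX → ℝ // Continuous g}) (f : Cp XX)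
    (hf : ∀ x ∈ supp g, f.1 x = s x) : ev s g = g.1 f := by
  have h1 := (extend s hs (supp g) (supp_countable g)).choose_spec
  have h4 : ev s g = g.1 (extend s hs (supp g) (supp_countable g)).choose := dif_pos hs
  rw [h4]
  by_contra hne
  obtain ⟨E, hE, δ, hδ, h⟩ := supp_spec g f
    (|g.1 (extend s hs (supp g) (supp_countable g)).choose - g.1 f| / 2)
    (half_pos (abs_pos.2 (sub_ne_zero.2 hne)))
  have h2 := h (extend s hs (supp g) (supp_countable g)).choose (by
    intro x hx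
    rw [h1 x (hE hx), hf x (hE hx), sub_self, abs_zero]
    exact hδ)
  have h3 : 0 < |g.1 (extend s hs (supp g) (supp_countable g)).choose - g.1 f| :=
    abs_pos.2 (sub_ne_zero.2 hne)
  linarith

theorem ev_mem (s : XX → ℝ) (hs : s ∈ SS) : ev s ∈ Ups (Cp XX) := by
  rw [mem_closure_iff]
  intro O hO hsO
  obtain ⟨G, u, hu, hsub⟩ := isOpen_pi_iff.1 hO _ hsO
  obtain ⟨f, hf⟩ := extend s hs (⋃ g ∈ G, supp g)
    (G.countable_toSet.biUnion fun g _ => supp_countable g)
  refine ⟨fun g => g.1 f, hsub fun g hg => ?_, f, rfl⟩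
  rw [← ev_eq s hs g f fun x hx => hf x (mem_biUnion (Finset.mem_coe.1 hg) hx)]
  exact (hu g hg).2

theorem ups_ev (Φ : {g : Cp XX → ℝ // Continuous g} → ℝ) (hΦ : Φ ∈ Ups (Cp XX)) :
    ∃ s ∈ SS, Φ = ev s := by
  have hs : (fun a => Φ (dl a)) ∈ SS := by
    constructor
    · by_contra hcon
      push Not at hcon
      choose a ha using hcon
      obtain ⟨f, hf⟩ := hit Φ hΦ fun n => dl (a n)
      obtain ⟨M, hM⟩ := A1 f.1 f.2
      obtain ⟨N, hN⟩ := exists_nat_ge M
      have h1 := ha N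
      have h2 : f.1 (a N) = Φ (dl (a N)) := hf N
      rw [← h2] at h1
      linarith [hM (a N)]
    · by_contra hcon
      push Not at hcon
      obtain ⟨m, hm⟩ := hcon
      choose x j hj hx using hm
      obtain ⟨f, hf⟩ := hitC Φ hΦ ((Set.range fun n => dl (XX.line (x n) (j n))) ∪
        Set.range fun n => dl (XX.line (x n) ⊤)) ((countable_range _).union (countable_range _))
      obtain ⟨k, hk⟩ := A2 f.1 f.2 (1 / ((m : ℝ) + 1)) (by positivity)
      have h1 := hx k
      have h2 : f.1 (XX.line (x k) (j k)) = Φ (dl (XX.line (x k) (j k))) := hf _ (Or.inl ⟨k, rfl⟩)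
      have h3 : f.1 (XX.line (x k) ⊤) = Φ (dl (XX.line (x k) ⊤)) := hf _ (Or.inr ⟨k, rfl⟩)
      rw [← h2, ← h3] at h1
      linarith [hk (x k) (j k) (hj k)]
  refine ⟨_, hs, funext fun g => ?_⟩
  obtain ⟨f, hf⟩ := hitC Φ hΦ (insert g (dl '' supp g)) (((supp_countable g).image _).insert _)
  rw [ev_eq _ hs g f fun x hx => hf _ (mem_insert_of_mem _ (mem_image_of_mem _ hx))]
  exact (hf g (mem_insert _ _)).symm

/-- the conditions -/
def cond : ℕ → ℕ → (XX → ℝ) → Prop
  | 0, c, s => ∀ a, |s a| ≤ c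
  | m + 1, c, s => ∀ (x : DD) (j : ℕ), c ≤ j →
      |s (XX.line x j) - s (XX.line x ⊤)| ≤ 1 / ((m : ℝ) + 1)

theorem cond_closed (i c : ℕ) : IsClosed {s | cond i c s} := by
  match i with
  | 0 =>
    have : {s : XX → ℝ | cond 0 c s} = ⋂ a, {s : XX → ℝ | |s a| ≤ (c : ℝ)} := by
      ext s
      simp [cond]
    rw [this]
    exact isClosed_iInter fun a => isClosed_le (continuous_apply a).abs continuous_const
  | m + 1 =>
    have : {s : XX → ℝ | cond (m + 1) c s} = ⋂ x : DD, ⋂ j : ℕ, ⋂ _ : c ≤ j,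
        {s | |s (XX.line x j) - s (XX.line x ⊤)| ≤ 1 / ((m : ℝ) + 1)} := by
      ext s
      simp [cond]
    rw [this]
    exact isClosed_iInter fun x => isClosed_iInter fun j => isClosed_iInter fun _ =>
      isClosed_le (((continuous_apply (XX.line x j)).sub
        (continuous_apply (XX.line x ⊤))).abs) continuous_const

theorem cond_SS (s : XX → ℝ) : s ∈ SS ↔ ∀ i, ∃ c, cond i c s := by
  constructor
  · rintro ⟨h0, h1⟩ i
    match i with
    | 0 => exact h0
    | m + 1 => exact h1 m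
  · intro h
    exact ⟨h 0, fun m => h (m + 1)⟩

/-- the compact pieces -/
def CC (σ : ℕ → ℕ) : Set (XX → ℝ) := {s | ∀ i, cond i (σ i) s}

theorem CC_sub (σ : ℕ → ℕ) : CC σ ⊆ SS := fun s hs => (cond_SS s).2 fun i => ⟨σ i, hs i⟩

theorem box_compact (c : ℕ) : IsCompact {s : XX → ℝ | cond 0 c s} := by
  have : {s : XX → ℝ | cond 0 c s} = Set.pi univ fun _ => Set.Icc (-(c : ℝ)) c := by
    ext s
    simp only [cond, abs_le, Set.mem_setOf_eq, Set.mem_pi, Set.mem_univ, Set.mem_Icc, true_imp_iff]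
  rw [this]
  exact isCompact_univ_pi fun _ => isCompact_Icc

theorem CC_compact (σ : ℕ → ℕ) : IsCompact (CC σ) := by
  have h1 : CC σ = ⋂ i, {s | cond i (σ i) s} := by
    ext s
    simp [CC]
  have h2 : IsClosed (CC σ) := by
    rw [h1]
    exact isClosed_iInter fun i => cond_closed i _
  exact (box_compact (σ 0)).of_isClosed_subset h2 fun s hs => hs 0

theorem ev_tendsto {ι : Type} (U : Filter ι) (p : ι → XX → ℝ) (s : XX → ℝ) (hs : s ∈ SS)
    (hp : ∀ᶠ k in U, p k ∈ SS) (h : Tendsto p U (𝓝 s)) :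
    Tendsto (fun k => ev (p k)) U (𝓝 (ev s)) := by
  rw [tendsto_pi_nhds]
  intro g
  rw [Metric.tendsto_nhds]
  intro η hη
  obtain ⟨E, δ, hδ, hE⟩ := ev_cont s hs g (η / 2) (by positivity)
  have h1 : ∀ᶠ k in U, ∀ x ∈ E, |p k x - s x| < δ := by
    rw [eventually_all_finset]
    intro x _
    have h2 := (tendsto_pi_nhds.1 h x)
    have h3 := (Metric.tendsto_nhds.1 h2) δ hδ
    simpa only [Real.dist_eq] using h3
  filter_upwards [h1, hp] with k hk hk'
  rw [Real.dist_eq]
  have := hE (p k) hk' hk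
  linarith

/-- the network -/
def NN (q : Σ n : ℕ, (Fin n → ℕ)) : Set (XX → ℝ) := {s ∈ SS | ∀ i : Fin q.1, cond i (q.2 i) s}

/-- the first half: the realcompactification of `Cp XX` is Lindelöf Sigma -/
theorem first : ∃ F : Set (Set ({g : {f : XX → ℝ // Continuous f} → ℝ // Continuous g} → ℝ)),
      F.Countable ∧
      ∀ x ∈ closure (Set.range (fun (y : {f : XX → ℝ // Continuous f})
              (g : {g : {f : XX → ℝ // Continuous f} → ℝ // Continuous g}) => g.1 y)),
        ∃ K : Set ({g : {f : XX → ℝ // Continuous f} → ℝ // Continuous g} → ℝ),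
          IsCompact K ∧ x ∈ K ∧
          K ⊆ closure (Set.range (fun (y : {f : XX → ℝ // Continuous f})
              (g : {g : {f : XX → ℝ // Continuous f} → ℝ // Continuous g}) => g.1 y)) ∧
          ∀ U : Set ({g : {f : XX → ℝ // Continuous f} → ℝ // Continuous g} → ℝ),
            IsOpen U → K ⊆ U →
              ∃ A ∈ F, K ⊆ A ∧ A ⊆ U ∩ closure (Set.range (fun (y : {f : XX → ℝ // Continuous f})
                (g : {g : {f : XX → ℝ // Continuous f} → ℝ // Continuous g}) => g.1 y)) := by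
  refine ⟨Set.range fun q => ev '' NN q, countable_range _, ?_⟩
  intro Φ hΦ
  obtain ⟨s, hs, rfl⟩ := ups_ev Φ hΦ
  choose σ hσ using (cond_SS s).1 hs
  refine ⟨ev '' CC σ, ?_, ⟨s, hσ, rfl⟩, ?_, ?_⟩
  · refine (CC_compact σ).image_of_continuousOn ?_
    intro s' hs'
    exact ev_tendsto _ id s' (CC_sub σ hs') (by
      filter_upwards [self_mem_nhdsWithin] with k hk using CC_sub σ hk) (tendsto_id.mono_left
        nhdsWithin_le_nhds)
  · rintro _ ⟨s', hs', rfl⟩
    exact ev_mem s' (CC_sub σ hs')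
  · intro U hU hKU
    by_contra hcon
    push Not at hcon
    have h1 : ∀ n : ℕ, ∃ s' ∈ NN ⟨n, fun i => σ i⟩, ev s' ∉ U := by
      intro n
      have h2 := hcon (ev '' NN ⟨n, fun i => σ i⟩) ⟨_, rfl⟩ (by
        rintro _ ⟨s', hs', rfl⟩
        exact ⟨s', ⟨CC_sub σ hs', fun i => hs' i⟩, rfl⟩)
      rw [Set.not_subset] at h2
      obtain ⟨_, ⟨s', hs', rfl⟩, h3⟩ := h2
      refine ⟨s', hs', fun h4 => h3 ⟨h4, ev_mem s' hs'.1⟩⟩
    choose p hp hpU using h1
    have hev : ∀ i : ℕ, ∀ᶠ n in (hyperfilter ℕ : Filter ℕ), p n ∈ {s | cond i (σ i) s} := by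
      intro i
      apply Nat.hyperfilter_le_atTop
      filter_upwards [eventually_gt_atTop i] with n hn
      exact (hp n).2 ⟨i, hn⟩
    obtain ⟨s', _, hs'⟩ := (box_compact (σ 0)).ultrafilter_le_nhds
      ((hyperfilter ℕ).map p) (by
        rw [le_principal_iff]
        exact hev 0)
    have ht : Tendsto p (hyperfilter ℕ : Filter ℕ) (𝓝 s') := hs'
    have hsC : s' ∈ CC σ := fun i => (cond_closed i (σ i)).mem_of_tendsto ht (hev i)
    have h3 := ev_tendsto _ p s' (CC_sub σ hsC) (Eventually.of_forall fun n => (hp n).1) ht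
    have h4 : ev s' ∈ U := hKU ⟨s', hsC, rfl⟩
    have h5 : ∀ᶠ n in (hyperfilter ℕ : Filter ℕ), ev (p n) ∈ U := h3 (hU.mem_nhds h4)
    obtain ⟨n, hn⟩ := h5.exists
    exact hpU n hn

end Pool.Agent.H764R3.RC
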