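import Pool.Agent.H764R3.RC3

set_option autoImplicit false

open Set Topology Filter

namespace Pool.Agent.H764R3.RC

open XX

/-- the summands -/
noncomputable def tm (x : DD) (j : ℕ) (z : Cp XX) : ℝ := (1 / 2 : ℝ) ^ (j + 1) * min 1 |z.1 (line x j)|

theorem tm_nonneg (x : DD) (j : ℕ) (z : Cp XX) : 0 ≤ tm x j z := by
  unfold tm
  positivity

theorem tm_le (x : DD) (j : ℕ) (z : Cp XX) : tm x j z ≤ (1 / 2 : ℝ) ^ (j + 1) :=
  mul_le_of_le_one_right (by positivity) (min_le_left _ _)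

theorem geom_summable : Summable fun j : ℕ => (1 / 2 : ℝ) ^ (j + 1) :=
  (summable_nat_add_iff 1).2 summable_geometric_two

theorem geom_tsum : ∑' j : ℕ, (1 / 2 : ℝ) ^ (j + 1) = 1 := by
  simp_rw [pow_succ]
  rw [tsum_mul_right, tsum_geometric_two]
  norm_num

theorem tm_summable (x : DD) (z : Cp XX) : Summable fun j => tm x j z :=
  Summable.of_nonneg_of_le (fun j => tm_nonneg x j z) (fun j => tm_le x j z) geom_summable

/-- evaluation is continuous -/
theorem ev_pt (a : XX) : Continuous fun z : Cp XX => z.1 a :=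
  (continuous_apply a).comp continuous_subtype_val

/-- the denominator -/
noncomputable def qq (x : DD) (z : Cp XX) : ℝ := min 1 |z.1 (line x ⊤) - 1| + ∑' j, tm x j z

theorem qq_cont (x : DD) : Continuous (qq x) := by
  unfold qq
  refine Continuous.add ?_ ?_
  · exact continuous_const.min (((ev_pt _).sub continuous_const).abs)
  · refine continuous_tsum (fun j => ?_) geom_summable (fun j z => ?_)
    · exact continuous_const.mul (continuous_const.min (ev_pt _).abs)
    · rw [Real.norm_eq_abs, abs_of_nonneg (tm_nonneg x j z)]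
      exact tm_le x j z

theorem qq_pos (x : DD) (z : Cp XX) : 0 < qq x z := by
  have h0 : 0 ≤ ∑' j, tm x j z := tsum_nonneg fun j => tm_nonneg x j z
  by_cases h : z.1 (line x ⊤) = 1
  · obtain ⟨k, hk⟩ := A2 z.1 z.2 (1 / 2) (by norm_num)
    have h1 := hk x k le_rfl
    rw [h] at h1
    have h2 : 0 < z.1 (line x k) := by
      have := (abs_le.1 h1).1
      linarith
    have h3 : 0 < ∑' j, tm x j z := by
      refine (tm_summable x z).tsum_pos (fun j => tm_nonneg x j z) k ?_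
      have : 0 < |z.1 (line x k)| := abs_pos.2 h2.ne'
      unfold tm
      positivity
    have h4 : 0 ≤ min 1 |z.1 (line x ⊤) - 1| := by positivity
    unfold qq
    linarith
  · have h1 : 0 < |z.1 (line x ⊤) - 1| := abs_pos.2 (sub_ne_zero.2 h)
    have h2 : 0 < min 1 |z.1 (line x ⊤) - 1| := lt_min one_pos h1
    unfold qq
    linarith

/-- the closed discrete family -/
noncomputable def phi (x : DD) : Cp (Cp XX) :=
  ⟨fun z => (qq x z)⁻¹, (qq_cont x).inv₀ fun z => (qq_pos x z).ne'⟩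

/-- digit functions -/
noncomputable def cc (i : ℕ) : Cp XX :=
  ⟨fun a => (if (emb a).1 (Sum.inl i) then 2 else 0),
    (continuous_of_discreteTopology (f := fun b : Bool => if b then (2:ℝ) else 0)).comp
      ((continuous_apply (Sum.inl i)).comp (continuous_fst.comp emb_cont))⟩

theorem cc_line (i : ℕ) (x : DD) (j : ℕ∞) : (cc i).1 (line x j) = if x i then 2 else 0 := rfl

theorem phi_cc_true (i : ℕ) (x : DD) (hx : x i = true) : (phi x).1 (cc i) = 1 / 2 := by
  show (qq x (cc i))⁻¹ = 1 / 2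
  unfold qq tm
  simp only [cc_line, hx, if_true]
  have h1 : min (1:ℝ) |2| = 1 := by
    rw [abs_of_pos (by norm_num)]
    norm_num
  have h2 : min (1:ℝ) |2 - 1| = 1 := by norm_num
  rw [h1, h2]
  simp only [mul_one]
  rw [geom_tsum]
  norm_num

theorem phi_cc_false (i : ℕ) (x : DD) (hx : x i = false) : (phi x).1 (cc i) = 1 := by
  show (qq x (cc i))⁻¹ = 1
  unfold qq tm
  simp only [cc_line, hx]
  simp

/-- the clopen sets -/
def dset (x₀ : DD) (n : ℕ) : Set PP :=
  {q | (∀ i ∈ Finset.range n, q.1 (Sum.inl i) = x₀ i) ∧ q.1 (Sum.inr (Sum.inl x₀)) = false ∧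
    (n : ℕ∞) < q.2}

theorem dset_clopen (x₀ : DD) (n : ℕ) : IsClopen (dset x₀ n) := by
  have h1 : dset x₀ n = (⋂ i ∈ Finset.range n, {q : PP | q.1 (Sum.inl i) = x₀ i}) ∩
      ({q : PP | q.1 (Sum.inr (Sum.inl x₀)) = false} ∩ {q : PP | (n : ℕ∞) < q.2}) := by
    ext q
    simp [dset]
  rw [h1]
  have hc : ∀ (α : QQ) (b : Bool), IsClopen {q : PP | q.1 α = b} := fun α b =>
    (isClopen_discrete {b}).preimage ((continuous_apply α).comp continuous_fst)
  refine IsClopen.inter (isClopen_biInter_finset fun i _ => hc _ _) (IsClopen.inter (hc _ _) ?_)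
  constructor
  · have h2 : {q : PP | (n : ℕ∞) < q.2} = {q : PP | (n : ℕ∞) + 1 ≤ q.2} := by
      ext q
      exact (ENat.add_one_le_iff (ENat.natCast_ne_top n)).symm
    rw [h2]
    exact isClosed_le continuous_const continuous_snd
  · exact isOpen_lt continuous_const continuous_snd

open Classical in
/-- the functions `d_n` -/
noncomputable def dd (x₀ : DD) (n : ℕ) : Cp XX :=
  ⟨fun a => if emb a ∈ dset x₀ n then 1 else 0, by
    have hcl : IsClopen {a : XX | emb a ∈ dset x₀ n} := (dset_clopen x₀ n).preimage emb_cont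
    refine Continuous.if ?_ continuous_const continuous_const
    rw [hcl.frontier_eq]
    simp⟩

theorem dd_mem (x₀ : DD) (n : ℕ) (a : XX) (h : emb a ∈ dset x₀ n) : (dd x₀ n).1 a = 1 := by
  classical
  exact if_pos h

theorem dd_not_mem (x₀ : DD) (n : ℕ) (a : XX) (h : emb a ∉ dset x₀ n) : (dd x₀ n).1 a = 0 := by
  classical
  exact if_neg h

open Classical in
/-- the pointwise limit of the functions `d_n` -/
noncomputable def dlim (x₀ : DD) : XX → ℝ := fun a =>
  if (∀ i, bit a.base (Sum.inl i) = x₀ i) ∧ bit a.base (Sum.inr (Sum.inl x₀)) = false ∧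
    a.val = ⊤ then 1 else 0

theorem dlim_line (x₀ x : DD) (j : ℕ∞) : dlim x₀ (line x j) = 0 := by
  unfold dlim
  rw [if_neg]
  rintro ⟨h1, h2, _⟩
  have h3 : x = x₀ := funext h1
  classical
  have h4 : decide (x = x₀) = false := h2
  simp [h3] at h4

theorem dlim_SS (x₀ : DD) : dlim x₀ ∈ SS := by
  refine ⟨⟨1, fun a => ?_⟩, fun m => ⟨0, fun x j _ => ?_⟩⟩
  · unfold dlim
    split_ifs <;> simp
  · rw [dlim_line, dlim_line, sub_self, abs_zero]
    positivity

theorem dd_lim (x₀ : DD) (a : XX) : ∀ᶠ n in atTop, (dd x₀ n).1 a = dlim x₀ a := by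
  by_cases h1 : ∀ i, bit a.base (Sum.inl i) = x₀ i
  · by_cases h2 : bit a.base (Sum.inr (Sum.inl x₀)) = false
    · by_cases h3 : a.val = ⊤
      · refine Eventually.of_forall fun n => ?_
        have hl : dlim x₀ a = 1 := if_pos ⟨h1, h2, h3⟩
        rw [hl]
        refine dd_mem x₀ n a ⟨fun i _ => h1 i, h2, ?_⟩
        show (n : ℕ∞) < a.val
        rw [h3]
        exact ENat.natCast_lt_top n
      · obtain ⟨m, hm⟩ := ENat.ne_top_iff_exists.1 h3
        filter_upwards [eventually_ge_atTop m] with n hn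
        have hl : dlim x₀ a = 0 := if_neg fun h => h3 h.2.2
        rw [hl]
        refine dd_not_mem x₀ n a fun h => ?_
        have h4 : (n : ℕ∞) < a.val := h.2.2
        rw [← hm] at h4
        have h5 : n < m := by exact_mod_cast h4
        omega
    · refine Eventually.of_forall fun n => ?_
      have hl : dlim x₀ a = 0 := if_neg fun h => h2 h.2.1
      rw [hl]
      exact dd_not_mem x₀ n a fun h => h2 h.2.1
  · push Not at h1
    obtain ⟨i, hi⟩ := h1
    filter_upwards [eventually_gt_atTop i] with n hn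
    have hl : dlim x₀ a = 0 := if_neg fun h => hi (h.1 i)
    rw [hl]
    exact dd_not_mem x₀ n a fun h => hi (h.1 i (Finset.mem_range.2 hn))

/-- every continuous function is bounded on the sequence `d_n` -/
theorem psi_bdd (x₀ : DD) (ψ : Cp (Cp XX)) : ∃ C : ℝ, ∀ᶠ n in atTop, ψ.1 (dd x₀ n) ≤ C := by
  obtain ⟨f, hf⟩ := extend (dlim x₀) (dlim_SS x₀) (supp ψ) (supp_countable ψ)
  obtain ⟨E, hE, δ, hδ, h⟩ := supp_spec ψ f 1 one_pos
  refine ⟨ψ.1 f + 1, ?_⟩
  have h1 : ∀ᶠ n in atTop, ∀ a ∈ E, (dd x₀ n).1 a = dlim x₀ a := by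
    rw [eventually_all_finset]
    exact fun a _ => dd_lim x₀ a
  filter_upwards [h1] with n hn
  have h2 := h (dd x₀ n) (fun a ha => by
    rw [hn a ha, hf a (hE ha), sub_self, abs_zero]
    exact hδ)
  have := (abs_le.1 h2).2
  linarith

theorem phi_dd (x₀ x : DD) (n : ℕ) (hne : x ≠ x₀) (hx : ∀ i < n, x i = x₀ i) :
    (2:ℝ) ^ (n + 1) ≤ (phi x).1 (dd x₀ n) := by
  have hmem : ∀ j : ℕ∞, (n : ℕ∞) < j → (dd x₀ n).1 (line x j) = 1 := by
    intro j hj
    refine dd_mem _ _ _ ⟨fun i hi => hx i (Finset.mem_range.1 hi), ?_, hj⟩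
    classical
    show decide (x = x₀) = false
    simpa using hne
  have hnot : ∀ j : ℕ, j ≤ n → (dd x₀ n).1 (line x j) = 0 := by
    intro j hj
    refine dd_not_mem _ _ _ fun h => ?_
    have h1 : (n : ℕ∞) < (j : ℕ∞) := h.2.2
    have : n < j := by exact_mod_cast h1
    omega
  show (2:ℝ) ^ (n + 1) ≤ (qq x (dd x₀ n))⁻¹
  rw [le_inv_comm₀ (by positivity) (qq_pos _ _)]
  unfold qq
  rw [hmem ⊤ (ENat.natCast_lt_top n)]
  have h1 := (tm_summable x (dd x₀ n)).sum_add_tsum_nat_add (n + 1)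
  have h2 : ∑ j ∈ Finset.range (n + 1), tm x j (dd x₀ n) = 0 := by
    refine Finset.sum_eq_zero fun j hj => ?_
    unfold tm
    rw [hnot j (by simpa [Nat.lt_succ_iff] using hj)]
    simp
  rw [h2, zero_add] at h1
  rw [← h1]
  have hs1 : Summable fun j => tm x (j + (n + 1)) (dd x₀ n) :=
    (summable_nat_add_iff (f := fun j => tm x j (dd x₀ n)) (n + 1)).2 (tm_summable x _)
  have hle : ∀ j : ℕ, tm x (j + (n + 1)) (dd x₀ n) ≤
      (1 / 2 : ℝ) ^ (j + 1) * (1 / 2 : ℝ) ^ (n + 1) := by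
    intro j
    refine (tm_le x (j + (n + 1)) (dd x₀ n)).trans_eq ?_
    rw [← pow_add]
    congr 1
    omega
  have h3 : ∑' j, tm x (j + (n + 1)) (dd x₀ n) ≤
      ∑' j : ℕ, (1 / 2 : ℝ) ^ (j + 1) * (1 / 2 : ℝ) ^ (n + 1) :=
    Summable.tsum_le_tsum hle hs1 (geom_summable.mul_right _)
  rw [tsum_mul_right, geom_tsum, one_mul] at h3
  have h4 : min (1:ℝ) |1 - 1| = 0 := by simp
  rw [h4, zero_add]
  refine h3.trans_eq ?_
  rw [one_div, inv_pow]

/-- evaluation at a point of `Cp XX` -/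
def hat (z : Cp XX) : {c : Cp (Cp XX) → ℝ // Continuous c} :=
  ⟨fun g => g.1 z, (continuous_apply z).comp continuous_subtype_val⟩

/-- the canonical embedding -/
def ee (g : Cp (Cp XX)) : {c : Cp (Cp XX) → ℝ // Continuous c} → ℝ := fun c => c.1 g

theorem local_small (Φ : {c : Cp (Cp XX) → ℝ // Continuous c} → ℝ) (hΦ : Φ ∈ Ups (Cp (Cp XX))) :
    ∃ O : Set ({c : Cp (Cp XX) → ℝ // Continuous c} → ℝ), IsOpen O ∧ Φ ∈ O ∧
      {x : DD | ee (phi x) ∈ O}.Subsingleton := by
  by_contra hcon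
  push Not at hcon
  let x₀ : DD := fun i => decide (Φ (hat (cc i)) < 3 / 4)
  have hdig : ∀ i : ℕ, ∃ O : Set ({c : Cp (Cp XX) → ℝ // Continuous c} → ℝ), IsOpen O ∧ Φ ∈ O ∧
      ∀ x : DD, ee (phi x) ∈ O → x i = x₀ i := by
    intro i
    by_cases h : Φ (hat (cc i)) < 3 / 4
    · refine ⟨{Ψ | Ψ (hat (cc i)) < 3 / 4}, isOpen_lt (continuous_apply _) continuous_const, h,
        fun x hx => ?_⟩
      have h1 : x₀ i = true := decide_eq_true h
      rw [h1]
      by_contra h2
      have h3 : (phi x).1 (cc i) < 3 / 4 := hx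
      rw [phi_cc_false i x (by simpa using h2)] at h3
      norm_num at h3
    · refine ⟨{Ψ | 5 / 8 < Ψ (hat (cc i))}, isOpen_lt continuous_const (continuous_apply _), ?_,
        fun x hx => ?_⟩
      · show 5 / 8 < Φ (hat (cc i))
        push Not at h
        linarith
      · have h1 : x₀ i = false := decide_eq_false h
        rw [h1]
        by_contra h2
        have h3 : 5 / 8 < (phi x).1 (cc i) := hx
        rw [phi_cc_true i x (by simpa using h2)] at h3
        norm_num at h3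
  choose O hO hΦO hOx using hdig
  have hlarge : ∀ n : ℕ, (n : ℝ) ≤ Φ (hat (dd x₀ n)) := by
    intro n
    have h1 := hcon ((⋂ i ∈ Finset.range n, O i) ∩
      {Ψ | |Ψ (hat (dd x₀ n)) - Φ (hat (dd x₀ n))| < 1})
      ((isOpen_biInter_finset fun i _ => hO i).inter
        (isOpen_lt ((continuous_apply _).sub continuous_const).abs continuous_const))
      ⟨mem_iInter₂.2 fun i _ => hΦO i, by simp⟩
    obtain ⟨x, hx, hne⟩ : ∃ x : DD, ee (phi x) ∈ ((⋂ i ∈ Finset.range n, O i) ∩
      {Ψ | |Ψ (hat (dd x₀ n)) - Φ (hat (dd x₀ n))| < 1}) ∧ x ≠ x₀ := by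
      by_contra h2
      push Not at h2
      obtain ⟨a, ha, b, hb, hab⟩ := h1
      exact hab ((h2 a ha).trans (h2 b hb).symm)
    have h3 := phi_dd x₀ x n hne fun i hi => hOx i x (mem_iInter₂.1 hx.1 i (Finset.mem_range.2 hi))
    have h4 : |(phi x).1 (dd x₀ n) - Φ (hat (dd x₀ n))| < 1 := hx.2
    have h5 := (abs_lt.1 h4).2
    have h6 : (n : ℝ) + 1 ≤ 2 ^ (n + 1) := by
      have : n + 1 ≤ 2 ^ (n + 1) := Nat.lt_two_pow_self.le
      exact_mod_cast this
    linarith
  obtain ⟨ψ, hψ⟩ := hit Φ hΦ fun n => hat (dd x₀ n)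
  obtain ⟨C, hC⟩ := psi_bdd x₀ ψ
  obtain ⟨n, hn, hn'⟩ := (hC.and (tendsto_natCast_atTop_atTop.eventually_gt_atTop C)).exists
  have h1 : ψ.1 (dd x₀ n) = Φ (hat (dd x₀ n)) := hψ n
  have h2 := hlarge n
  rw [h1] at hn
  linarith

/-- the second half -/
theorem second : ¬ (∃ F : Set (Set ({φ : {g : {f : XX → ℝ // Continuous f} → ℝ // Continuous g} → ℝ //
            Continuous φ} → ℝ)),
      F.Countable ∧
      ∀ x ∈ closure (Set.range (fun (y : {g : {f : XX → ℝ // Continuous f} → ℝ // Continuous g})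
              (φ : {φ : {g : {f : XX → ℝ // Continuous f} → ℝ // Continuous g} → ℝ //
                Continuous φ}) => φ.1 y)),
        ∃ K : Set ({φ : {g : {f : XX → ℝ // Continuous f} → ℝ // Continuous g} → ℝ //
            Continuous φ} → ℝ),
          IsCompact K ∧ x ∈ K ∧
          K ⊆ closure (Set.range (fun (y : {g : {f : XX → ℝ // Continuous f} → ℝ // Continuous g})
              (φ : {φ : {g : {f : XX → ℝ // Continuous f} → ℝ // Continuous g} → ℝ //
                Continuous φ}) => φ.1 y)) ∧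
          ∀ U : Set ({φ : {g : {f : XX → ℝ // Continuous f} → ℝ // Continuous g} → ℝ //
              Continuous φ} → ℝ),
            IsOpen U → K ⊆ U →
              ∃ A ∈ F, K ⊆ A ∧ A ⊆ U ∩ closure (Set.range
                (fun (y : {g : {f : XX → ℝ // Continuous f} → ℝ // Continuous g})
                  (φ : {φ : {g : {f : XX → ℝ // Continuous f} → ℝ // Continuous g} → ℝ //
                    Continuous φ}) => φ.1 y))) := by
  rintro ⟨F, hF, h⟩
  have hcov : ∀ x : DD, ∃ A ∈ F, ee (phi x) ∈ A ∧ {x' : DD | ee (phi x') ∈ A}.Finite := by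
    intro x
    obtain ⟨K, hK, hxK, hKc, hU⟩ := h (ee (phi x)) (subset_closure ⟨phi x, rfl⟩)
    have h1 : ∃ U : Set ({c : Cp (Cp XX) → ℝ // Continuous c} → ℝ), IsOpen U ∧ K ⊆ U ∧
        {x' : DD | ee (phi x') ∈ U}.Finite := by
      refine hK.induction_on (p := fun s => ∃ U : Set ({c : Cp (Cp XX) → ℝ // Continuous c} → ℝ),
        IsOpen U ∧ s ⊆ U ∧ {x' : DD | ee (phi x') ∈ U}.Finite) ?_ ?_ ?_ ?_
      · exact ⟨∅, isOpen_empty, le_rfl, by simp⟩
      · rintro s t hst ⟨U, hU, htU, hfin⟩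
        exact ⟨U, hU, hst.trans htU, hfin⟩
      · rintro s t ⟨U, hU, hsU, hfin⟩ ⟨V, hV, htV, hfin'⟩
        refine ⟨U ∪ V, hU.union hV, union_subset_union hsU htV, ?_⟩
        exact (hfin.union hfin').subset fun x' hx' => hx'
      · intro Ψ hΨ
        obtain ⟨O, hO, hΨO, hsub⟩ := local_small Ψ (hKc hΨ)
        exact ⟨O, mem_nhdsWithin_of_mem_nhds (hO.mem_nhds hΨO), O, hO, le_rfl, hsub.finite⟩
    obtain ⟨U, hUo, hKU, hfin⟩ := h1
    obtain ⟨A, hA, hKA, hAU⟩ := hU U hUo hKU
    exact ⟨A, hA, hKA hxK, hfin.subset fun x' hx' => (hAU hx').1⟩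
  have hc : (⋃ A ∈ {A ∈ F | {x' : DD | ee (phi x') ∈ A}.Finite},
      {x' : DD | ee (phi x') ∈ A}).Countable :=
    (hF.mono (sep_subset _ _)).biUnion fun A hA => hA.2.countable
  have huniv : (⋃ A ∈ {A ∈ F | {x' : DD | ee (phi x') ∈ A}.Finite},
      {x' : DD | ee (phi x') ∈ A}) = univ := by
    rw [eq_univ_iff_forall]
    intro x
    obtain ⟨A, hA, hxA, hfin⟩ := hcov x
    exact mem_biUnion (show A ∈ {A ∈ F | {x' : DD | ee (phi x') ∈ A}.Finite} from ⟨hA, hfin⟩) hxA
  rw [huniv] at hc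
  exact notCountable (countable_univ_iff.1 hc)

end Pool.Agent.H764R3.RC
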