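import Mathlib

set_option autoImplicit false

open Cardinal Order Set

namespace Pool.Agent.H764R3.Stat

section

variable (C : Type)

/-- A well-ordered set whose cardinality is the successor of the cardinality of `C`. -/
abbrev KK : Type := (succ #C).ord.ToType

variable {C}

theorem mk_KK : #(KK C) = succ #C := by simp [KK]

variable [Infinite C]

theorem al : ℵ₀ ≤ #C := aleph0_le_mk C

instance : NoMaxOrder (KK C) := Cardinal.noMaxOrder (al.trans (le_succ _))

instance : Nonempty (KK C) := by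
  rw [← mk_ne_zero_iff, mk_KK]
  exact (lt_of_le_of_lt (zero_le) (lt_succ _)).ne'

theorem mk_Iic (α : KK C) : #(Iic α) ≤ #C := by
  have := mk_Iic_lt α (by simp) (by simpa using al.trans (le_succ #C))
  simp only [mk_toType, card_ord] at this
  exact lt_succ_iff.mp this

theorem bounded {ι : Type} (hι : #ι ≤ #C) (f : ι → KK C) : ∃ β, ∀ i, f i < β := by
  by_contra hcon
  push Not at hcon
  have h1 : (univ : Set (KK C)) ⊆ ⋃ i, Iic (f i) := by
    intro β _
    obtain ⟨i, hi⟩ := hcon β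
    simp only [mem_iUnion]
    exact ⟨i, hi⟩
  have h2 : #(univ : Set (KK C)) ≤ #C := by
    refine (mk_le_mk_of_subset h1).trans ?_
    refine (mk_iUnion_le _).trans ?_
    calc #ι * ⨆ i, #(Iic (f i)) ≤ #C * #C := by
          refine mul_le_mul' hι ?_
          exact ciSup_le' fun x => mk_Iic (f x)
      _ = #C := mul_eq_self al
  rw [mk_univ, mk_KK] at h2
  exact absurd h2 (not_le.mpr (lt_succ _))

/-- `A` meets the set of the closure points of countable cofinality of every function. -/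
def IsStat (A : Set (KK C)) : Prop :=
  ∀ G : KK C → KK C, ∃ δ ∈ A, (∃ η : ℕ → KK C, StrictMono η ∧ IsLUB (range η) δ) ∧
    ∀ β < δ, G β < δ

omit [Infinite C] in
theorem IsStat.mono {A B : Set (KK C)} (h : IsStat A) (hAB : A ⊆ B) : IsStat B := by
  intro G
  obtain ⟨δ, h1, h2⟩ := h G
  exact ⟨δ, hAB h1, h2⟩

theorem exists_lub (η : ℕ → KK C) : ∃ δ, IsLUB (range η) δ := by
  obtain ⟨β, hβ⟩ := bounded (C := C) (ι := ℕ) (by rw [mk_nat]; exact al) η
  have hne : (upperBounds (range η)).Nonempty := ⟨β, by rintro _ ⟨n, rfl⟩; exact (hβ n).le⟩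
  refine ⟨wellFounded_lt.min (upperBounds (range η)) hne, wellFounded_lt.min_mem _ hne, ?_⟩
  intro b hb
  exact not_lt.1 (wellFounded_lt.not_lt_min _ hb)

theorem stat_Ioi (η₀ : KK C) : IsStat (Ioi η₀) := by
  intro G
  -- a function dominating `G` on initial segments
  have h1 : ∀ β : KK C, ∃ γ, β < γ ∧ ∀ α ≤ β, G α < γ := by
    intro β
    obtain ⟨γ, hγ⟩ := bounded (C := C) (ι := Iic β) (mk_Iic β) (fun α => max (G α.1) β)
    refine ⟨γ, (le_max_right _ _).trans_lt (hγ ⟨β, self_mem_Iic⟩), fun α hα => ?_⟩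
    exact (le_max_left _ _).trans_lt (hγ ⟨α, hα⟩)
  choose H hH1 hH2 using h1
  let η : ℕ → KK C := fun n => Nat.rec (H η₀) (fun _ x => H x) n
  have hs : ∀ n, η (n + 1) = H (η n) := fun n => rfl
  have hmono : StrictMono η := strictMono_nat_of_lt_succ fun n => by rw [hs]; exact hH1 _
  obtain ⟨δ, hδ⟩ := exists_lub η
  refine ⟨δ, ?_, ⟨η, hmono, hδ⟩, ?_⟩
  · exact (hH1 η₀).trans_le (hδ.1 ⟨0, rfl⟩)
  · intro β hβ
    obtain ⟨_, ⟨n, rfl⟩, hn⟩ := (lt_isLUB_iff hδ).1 hβ
    exact (hH2 (η n) β hn.le).trans_le (hδ.1 ⟨n + 1, rfl⟩)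

theorem IsStat.iUnion {ι : Type} (hι : #ι ≤ #C) {A : ι → Set (KK C)} (h : IsStat (⋃ i, A i)) :
    ∃ i, IsStat (A i) := by
  by_contra hcon
  push Not at hcon
  have h1 : ∀ i, ∃ G : KK C → KK C, ∀ δ ∈ A i,
      (∃ η : ℕ → KK C, StrictMono η ∧ IsLUB (range η) δ) → ¬ ∀ β < δ, G β < δ := by
    intro i
    have := hcon i
    unfold IsStat at this
    push Not at this
    obtain ⟨G, hG⟩ := this
    refine ⟨G, fun δ hδ hη => ?_⟩
    push Not
    exact hG δ hδ hη
  choose G hG using h1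
  have h2 : ∀ β, ∃ γ, ∀ i, G i β < γ := fun β => bounded hι fun i => G i β
  choose H hH using h2
  obtain ⟨δ, hδ, hη, hcl⟩ := h H
  obtain ⟨i, hi⟩ := mem_iUnion.1 hδ
  exact hG i δ hi hη fun β hβ => (hH β i).trans (hcl β hβ)

/-- Disjoint stationary sets indexed by `C`. -/
theorem exists_partition : ∃ h : KK C → C, ∀ a : C, IsStat {δ | h δ = a} := by
  classical
  have h1 : ∀ δ : KK C, ∃ e : Iic δ → C, Function.Injective e := by
    intro δ
    obtain ⟨f⟩ := mk_Iic δ
    exact ⟨f, f.injective⟩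
  choose e he using h1
  let A : KK C → C → Set (KK C) := fun η ξ => {δ | ∃ h : η < δ, e δ ⟨η, h.le⟩ = ξ}
  have h2 : ∀ η, ∃ ξ, IsStat (A η ξ) := by
    intro η
    apply IsStat.iUnion (le_refl #C)
    refine (stat_Ioi η).mono ?_
    intro δ hδ
    exact mem_iUnion.2 ⟨_, hδ, rfl⟩
  choose ξ hξ using h2
  obtain ⟨ξ₀, hξ₀⟩ := infinite_pigeonhole_card ξ (succ #C) (by rw [mk_KK]) (al.trans (le_succ _)) (by
    rw [(isRegular_succ al).cof_ord]; exact lt_succ _)
  obtain ⟨j⟩ := (le_succ _).trans hξ₀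
  have hj : ∀ a, IsStat (A (j a).1 ξ₀) := by
    intro a
    have h3 : ξ (j a).1 = ξ₀ := (j a).2
    have h3' := hξ (j a).1
    rw [h3] at h3'
    exact h3'
  let h : KK C → C := fun δ => if hδ : ∃ a, δ ∈ A (j a).1 ξ₀ then hδ.choose else Classical.arbitrary C
  refine ⟨h, fun a => (hj a).mono ?_⟩
  intro δ hδ
  have hex : ∃ a, δ ∈ A (j a).1 ξ₀ := ⟨a, hδ⟩
  have h4 : h δ = hex.choose := by simp only [h, dif_pos hex]
  have h5 := hex.choose_spec
  obtain ⟨h6, h7⟩ := h5
  obtain ⟨h8, h9⟩ := hδ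
  have h10 := he δ (h7.trans h9.symm)
  have h11 : (j hex.choose).1 = (j a).1 := Subtype.mk.inj h10
  have h12 : hex.choose = a := j.injective (Subtype.ext h11)
  show h δ = a
  rw [h4, h12]

end

end Pool.Agent.H764R3.Stat
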