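import Mathlib
import Pool.Agent.H764R3.Stat
import Pool.Agent.H764R3.ER

/-!
# Simultaneous choice of a discrete set in many large subsets of a Cantor cube
-/

set_option autoImplicit false

open Cardinal Order Set Pool.Agent.H764R3.Stat

namespace Pool.Agent.H764R3.Select

/-- A large subset of a Cantor cube contains a long sequence of points `y α` branching off from a
point `z` at the coordinates `ξ α`. -/
theorem exists_branch {I C : Type} [Infinite C] (Y : Set (I → Bool)) (hY : 2 ^ #C < #Y) :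
    ∃ (z : I → Bool) (ξ : KK C → I) (y : KK C → (I → Bool)), (∀ α, y α ∈ Y) ∧
      (∀ α, y α (ξ α) ≠ z (ξ α)) ∧ ∀ α β, α < β → y β (ξ α) = z (ξ α) := by
  classical
  -- a splitting coordinate
  have hI : Nonempty I := by
    by_contra hcon
    rw [not_nonempty_iff] at hcon
    have h1 : #Y ≤ 1 := by
      rw [Cardinal.le_one_iff_subsingleton]
      exact ⟨fun a b => Subtype.ext (funext fun i => (hcon.false i).elim)⟩
    have h2 : (1 : Cardinal) ≤ 2 ^ #C := one_le_aleph0.trans (al.trans (cantor _).le)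
    exact absurd (h1.trans h2) (not_le.2 hY)
  have hsp : ∀ L : Set (I → Bool), ∃ ξ : I, ¬ L.Subsingleton → ∃ p ∈ L, ∃ q ∈ L, p ξ ≠ q ξ := by
    intro L
    by_cases h : L.Subsingleton
    · exact ⟨Classical.arbitrary I, fun h' => absurd h h'⟩
    · unfold Set.Subsingleton at h
      push Not at h
      obtain ⟨p, hp, q, hq, hpq⟩ := h
      have : ∃ i, p i ≠ q i := by
        by_contra hcon
        push Not at hcon
        exact hpq (funext hcon)
      obtain ⟨i, hi⟩ := this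
      exact ⟨i, fun _ => ⟨p, hp, q, hq, hi⟩⟩
  choose sp hsp using hsp
  -- the coordinates of a point
  let Ξ : (I → Bool) → KK C → I := fun z =>
    (wellFounded_lt : WellFounded ((· < ·) : KK C → KK C → Prop)).fix
      (fun α prev => sp {y | y ∈ Y ∧ ∀ (β : KK C) (h : β < α), y (prev β h) = z (prev β h)})
  let L : (I → Bool) → KK C → Set (I → Bool) := fun z α =>
    {y | y ∈ Y ∧ ∀ (β : KK C) (_ : β < α), y (Ξ z β) = z (Ξ z β)}
  have hΞ : ∀ z α, Ξ z α = sp (L z α) := fun z α => WellFounded.fix_eq _ _ _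
  have key : ∃ z ∈ Y, ∀ α, ¬ (L z α).Subsingleton := by
    by_contra hcon
    push Not at hcon
    have h1 : Y ⊆ ⋃ α, {z | z ∈ Y ∧ (L z α).Subsingleton} := by
      intro z hz
      obtain ⟨α, hα⟩ := hcon z hz
      exact mem_iUnion.2 ⟨α, hz, hα⟩
    have h2 : ∀ α, #{z | z ∈ Y ∧ (L z α).Subsingleton} ≤ 2 ^ #C := by
      intro α
      let f : {z | z ∈ Y ∧ (L z α).Subsingleton} → Set (Iio α) := fun z =>
        {β | z.1 (Ξ z.1 β.1) = true}
      have hf : Function.Injective f := by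
        rintro ⟨z, hz, hzs⟩ ⟨z', hz', hzs'⟩ hff
        have h3 : ∀ β < α, z (Ξ z β) = z' (Ξ z' β) := by
          intro β hβ
          have h4 : (⟨β, hβ⟩ : Iio α) ∈ f ⟨z, hz, hzs⟩ ↔ (⟨β, hβ⟩ : Iio α) ∈ f ⟨z', hz', hzs'⟩ := by
            rw [hff]
          have h5 : z (Ξ z β) = true ↔ z' (Ξ z' β) = true := h4
          exact Bool.eq_iff_iff.2 h5
        have h4 : ∀ β, β ≤ α → (∀ γ < β, Ξ z γ = Ξ z' γ) → L z β = L z' β := by
          intro β hβ h
          ext y
          constructor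
          · rintro ⟨h5, h6⟩
            refine ⟨h5, fun γ hγ => ?_⟩
            rw [← h γ hγ, h6 γ hγ, h γ hγ, ← h3 γ (hγ.trans_le hβ), h γ hγ]
          · rintro ⟨h5, h6⟩
            refine ⟨h5, fun γ hγ => ?_⟩
            rw [h γ hγ, h6 γ hγ, ← h γ hγ, h3 γ (hγ.trans_le hβ), h γ hγ]
        have h5 : ∀ β, β < α → Ξ z β = Ξ z' β := by
          intro β
          induction β using WellFoundedLT.induction with
          | ind β ih =>
            intro hβ
            rw [hΞ, hΞ, h4 β hβ.le (fun γ hγ => ih γ hγ (hγ.trans hβ))]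
        have h6 := h4 α le_rfl h5
        have h7 : z ∈ L z α := ⟨hz, fun _ _ => rfl⟩
        have h8 : z' ∈ L z α := by rw [h6]; exact ⟨hz', fun _ _ => rfl⟩
        exact Subtype.ext (hzs h7 h8)
      refine (mk_le_of_injective hf).trans ?_
      rw [mk_set]
      refine power_le_power_left two_ne_zero ?_
      exact (mk_le_mk_of_subset Iio_subset_Iic_self).trans (mk_Iic α)
    have h3 : #Y ≤ 2 ^ #C := by
      refine (mk_le_mk_of_subset h1).trans ((mk_iUnion_le _).trans ?_)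
      calc #(KK C) * ⨆ α, #{z | z ∈ Y ∧ (L z α).Subsingleton} ≤ 2 ^ #C * 2 ^ #C := by
            refine mul_le_mul' ?_ (ciSup_le' h2)
            rw [mk_KK]
            exact succ_le_of_lt (cantor _)
        _ = 2 ^ #C := mul_eq_self (al.trans (cantor _).le)
    exact absurd h3 (not_le.2 hY)
  obtain ⟨z, hz, hns⟩ := key
  have hy : ∀ α, ∃ y ∈ L z α, y (Ξ z α) ≠ z (Ξ z α) := by
    intro α
    obtain ⟨p, hp, q, hq, hpq⟩ := hsp (L z α) (hns α)
    rw [← hΞ] at hpq
    by_cases h : p (Ξ z α) = z (Ξ z α)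
    · exact ⟨q, hq, fun h' => hpq (h.trans h'.symm)⟩
    · exact ⟨p, hp, h⟩
  choose y hy1 hy2 using hy
  exact ⟨z, Ξ z, y, fun α => (hy1 α).1, hy2, fun α β hαβ => (hy1 β).2 α hαβ⟩

/-- A well-order of smaller cardinality embeds. -/
theorem exists_strictMono {A B : Type} [LinearOrder A] [WellFoundedLT A] [LinearOrder B]
    [WellFoundedLT B] (h : #A < #B) : ∃ j : A → B, StrictMono j := by
  rcases InitialSeg.total ((· < ·) : A → A → Prop) ((· < ·) : B → B → Prop) with f | f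
  · exact ⟨f, fun a b hab => f.map_rel_iff.2 hab⟩
  · exact absurd (mk_le_of_injective f.injective) (not_le.2 h)

/-- The selection lemma: in many large subsets of a Cantor cube one can choose simultaneously points
forming a discrete set; the neighbourhood isolating `x σ` is given by two coordinates. -/
theorem select {I S : Type} [Infinite S] (Y : S → Set (I → Bool))
    (hY : ∀ σ, 2 ^ #(Set (Set S)) < #(Y σ)) :
    ∃ (x : S → (I → Bool)) (a b : S → I), (∀ σ, x σ ∈ Y σ) ∧ (∀ σ, x σ (a σ) ≠ x σ (b σ)) ∧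
      ∀ σ ρ, ρ ≠ σ → x ρ (a σ) = x ρ (b σ) := by
  classical
  choose z ξ y hy1 hy2 hy3 using fun σ => exists_branch (C := Set (Set S)) (Y σ) (hY σ)
  let T : Type := KK (Set (Set S))
  let Z : Type := S × S → Bool × Bool
  let g : T → T → Z := fun α β p => (y p.2 β (ξ p.1 α), y p.2 α (ξ p.1 β))
  have hS : ℵ₀ ≤ #S := aleph0_le_mk S
  have hZ : #Z ≤ 2 ^ #S := by
    show #(S × S → Bool × Bool) ≤ _
    rw [← power_def, mk_prod, mk_prod]
    simp only [lift_id, mk_bool]
    rw [mul_eq_self hS]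
    calc ((2 : Cardinal) * 2) ^ #S ≤ (2 ^ ℵ₀) ^ #S := by
          refine power_le_power_right ?_
          calc (2 : Cardinal) * 2 ≤ ℵ₀ * ℵ₀ := mul_le_mul' (ofNat_lt_aleph0 (n := 2)).le
                (ofNat_lt_aleph0 (n := 2)).le
            _ = ℵ₀ := mul_eq_self le_rfl
            _ ≤ 2 ^ ℵ₀ := (cantor _).le
      _ = 2 ^ #S := by rw [← power_mul, aleph0_mul_eq hS]
  obtain ⟨H, hH, c, hc⟩ := ER.erdos_rado (U := T) (μ := 2 ^ #S) (hS.trans (cantor _).le) (by
    show 2 ^ 2 ^ #S < #(KK (Set (Set S)))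
    rw [mk_KK, mk_set, mk_set]
    exact lt_succ _) hZ g
  -- an enumeration of `S`
  let W : Type := (#S).ord.ToType
  obtain ⟨e⟩ : Nonempty (S ≃ W) := Cardinal.eq.1 (by simp [W])
  have hcard : #(W ×ₗ Fin 3) < #H := by
    have h1 : #(W ×ₗ Fin 3) = #(W × Fin 3) := rfl
    have h2 : #W = #S := by simp [W]
    rw [h1, mk_prod, lift_id, lift_id, h2, mk_fin]
    have h3 : #S * (3 : ℕ) ≤ #S := by
      calc #S * (3 : ℕ) ≤ #S * #S := mul_le_mul' le_rfl ((natCast_lt_aleph0 (n := 3)).le.trans hS)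
        _ = #S := mul_eq_self hS
    exact (h3.trans_lt (cantor _)).trans ((lt_succ _).trans_le hH)
  obtain ⟨j, hj⟩ := exists_strictMono (A := W ×ₗ Fin 3) (B := H) hcard
  let pos : S → Fin 3 → T := fun σ i => (j (toLex (e σ, i))).1
  have hpos : ∀ σ i i', i < i' → pos σ i < pos σ i' := by
    intro σ i i' hi
    have : toLex (e σ, i) < toLex (e σ, i') := by
      rw [Prod.Lex.toLex_lt_toLex]
      exact Or.inr ⟨rfl, hi⟩
    exact hj this
  have hpos2 : ∀ σ ρ i i', e σ < e ρ → pos σ i < pos ρ i' := by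
    intro σ ρ i i' h
    have : toLex (e σ, i) < toLex (e ρ, i') := by
      rw [Prod.Lex.toLex_lt_toLex]
      exact Or.inl h
    exact hj this
  have hmem : ∀ σ i, pos σ i ∈ H := fun σ i => (j (toLex (e σ, i))).2
  have hg : ∀ {α β α' β'}, α ∈ H → β ∈ H → α' ∈ H → β' ∈ H → α < β → α' < β' → g α β = g α' β' :=
    fun h1 h2 h3 h4 h5 h6 => (hc _ h1 _ h2 h5).trans (hc _ h3 _ h4 h6).symm
  have h01 : (0 : Fin 3) < 1 := by decide
  have h12 : (1 : Fin 3) < 2 := by decide
  refine ⟨fun σ => y σ (pos σ 1), fun σ => ξ σ (pos σ 1), fun σ => ξ σ (pos σ 0),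
    fun σ => hy1 σ _, ?_, ?_⟩
  · intro σ
    have e1 : y σ (pos σ 2) (ξ σ (pos σ 1)) = z σ (ξ σ (pos σ 1)) := hy3 σ _ _ (hpos σ 1 2 h12)
    have e2 : y σ (pos σ 1) (ξ σ (pos σ 1)) ≠ z σ (ξ σ (pos σ 1)) := hy2 σ _
    have e3 := congrArg Prod.fst (congrFun (hg (hmem σ 1) (hmem σ 2) (hmem σ 0) (hmem σ 1)
      (hpos σ 1 2 h12) (hpos σ 0 1 h01)) (σ, σ))
    have e4 : y σ (pos σ 2) (ξ σ (pos σ 1)) = y σ (pos σ 1) (ξ σ (pos σ 0)) := e3
    intro h
    have h' : y σ (pos σ 1) (ξ σ (pos σ 1)) = y σ (pos σ 1) (ξ σ (pos σ 0)) := h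
    rw [← e4, e1] at h'
    exact e2 h'
  · intro σ ρ hne
    have hne' : e ρ ≠ e σ := fun h => hne (e.injective h)
    rcases lt_or_gt_of_ne hne' with h | h
    · have e3 := congrArg Prod.snd (congrFun (hg (hmem ρ 1) (hmem σ 1) (hmem ρ 1) (hmem σ 0)
        (hpos2 ρ σ 1 1 h) (hpos2 ρ σ 1 0 h)) (σ, ρ))
      exact e3
    · have e3 := congrArg Prod.fst (congrFun (hg (hmem σ 1) (hmem ρ 1) (hmem σ 0) (hmem ρ 1)
        (hpos2 σ ρ 1 1 h) (hpos2 σ ρ 0 1 h)) (σ, ρ))
      exact e3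

end Pool.Agent.H764R3.Select
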