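import Mathlib
import Pool.Agent.H764R3.Tree

set_option autoImplicit false

open Cardinal Order Set Topology Pool.Agent.H764R3.Stat

namespace Pool.Agent.H764R3.Tree

open Classical in
/-- Characteristic function of the set of the predecessors. -/
noncomputable def emb (t s : Node) : Bool := decide (s ≤ t)

theorem emb_iff {s t u : Node} : emb u s = emb t s ↔ (s ≤ u ↔ s ≤ t) := by
  unfold emb
  simp

theorem emb_true {s t : Node} : emb t s = true ↔ s ≤ t := by
  unfold emb
  simp

theorem emb_injective : Function.Injective emb := by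
  intro s t h
  have h1 := emb_iff.1 (congrFun h s)
  have h2 := emb_iff.1 (congrFun h t)
  exact le_antisymm (h1.1 le_rfl) (h2.2 le_rfl)

/-- The topology generated by the cones and their complements. -/
noncomputable instance : TopologicalSpace Node := TopologicalSpace.induced emb inferInstance

theorem isEmbedding_emb : IsEmbedding emb := ⟨⟨rfl⟩, emb_injective⟩

instance : T35Space Node := by
  have := isEmbedding_emb.isInducing.completelyRegularSpace
  have := isEmbedding_emb.t2Space
  exact {}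

theorem isClopen_cone (s : Node) : IsClopen {u : Node | s ≤ u} := by
  have h1 : {u : Node | s ≤ u} = emb ⁻¹' ((fun f : Node → Bool => f s) ⁻¹' {true}) := by
    ext u
    simp [emb_true]
  rw [h1]
  exact (IsClopen.preimage (isClopen_discrete _) (continuous_apply s)).preimage
    isEmbedding_emb.continuous

theorem exists_finset {U : Set Node} (hU : IsOpen U) {t : Node} (ht : t ∈ U) :
    ∃ F : Finset Node, ∀ u, (∀ s ∈ F, (s ≤ u ↔ s ≤ t)) → u ∈ U := by
  obtain ⟨V, hV, rfl⟩ := isOpen_induced_iff.1 hU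
  obtain ⟨F, w, hw, hF⟩ := isOpen_pi_iff.1 hV _ ht
  refine ⟨F, fun u hu => hF ?_⟩
  intro s hs
  rw [emb_iff.2 (hu s hs)]
  exact (hw s hs).2

theorem isTopologicalBasis_isClopen :
    TopologicalSpace.IsTopologicalBasis {U : Set Node | IsClopen U} := by
  apply TopologicalSpace.isTopologicalBasis_of_isOpen_of_nhds
  · exact fun U hU => hU.isOpen
  · intro t U ht hU
    obtain ⟨F, hF⟩ := exists_finset hU ht
    refine ⟨⋂ s ∈ F, {u : Node | (s ≤ u ↔ s ≤ t)}, ?_, ?_, ?_⟩
    · refine isClopen_biInter_finset fun s _ => ?_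
      by_cases h : s ≤ t
      · have : {u : Node | (s ≤ u ↔ s ≤ t)} = {u | s ≤ u} := by
          ext u; simp [h]
        rw [this]
        exact isClopen_cone s
      · have : {u : Node | (s ≤ u ↔ s ≤ t)} = {u | s ≤ u}ᶜ := by
          ext u; simp [h]
        rw [this]
        exact (isClopen_cone s).compl
    · simp
    · intro u hu
      simp only [mem_iInter, mem_ofPred_eq] at hu
      exact hF u hu

/-- The cones form a `π`-base. -/
theorem exists_cone {U : Set Node} (hU : IsOpen U) {t : Node} (ht : t ∈ U) :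
    ∃ r, t ≤ r ∧ ¬ r ≤ t ∧ ∀ u, r ≤ u → u ∈ U := by
  classical
  obtain ⟨F, hF⟩ := exists_finset hU ht
  have hfin : ∃ β : K, t.top < β ∧ ∀ s ∈ F, s.top < β := by
    have : ∃ β : K, ∀ s ∈ insert t F, s.top ≤ β := by
      classical
      refine ⟨(insert t F).sup' ⟨t, Finset.mem_insert_self _ _⟩ Node.top, fun s hs => ?_⟩
      exact Finset.le_sup' (f := Node.top) hs
    obtain ⟨β, hβ⟩ := this
    obtain ⟨γ, hγ⟩ := exists_gt β
    exact ⟨γ, (hβ t (Finset.mem_insert_self _ _)).trans_lt hγ,
      fun s hs => (hβ s (Finset.mem_insert_of_mem hs)).trans_lt hγ⟩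
  obtain ⟨β, hβ1, hβ2⟩ := hfin
  obtain ⟨r, h1, h2, -, h4, -⟩ := t.exists_succ β hβ1 t.code le_rfl
  refine ⟨r, h1, fun h => ?_, fun u hu => hF u fun s hs => ⟨fun hsu => ?_, fun hst => ?_⟩⟩
  · have := Node.top_le h
    rw [h2] at this
    exact absurd hβ1 (not_lt.2 this)
  · rcases le_total s.top t.top with h5 | h5
    · exact Node.le_of_top_le hsu (h1.trans hu) h5
    · -- `t ≤ s`, so the top of `s` is the top of `t`
      have h6 : s.top ≤ r.top := by rw [h2]; exact (hβ2 s hs).le
      have h7 : s ≤ r := Node.le_of_top_le hsu hu h6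
      have h8 : r.y s.top ≠ none := by rw [← h7 s.top le_rfl]; exact s.htop
      rcases h4 _ h8 with h9 | h9
      · exact absurd (hβ2 s hs) (by rw [h9]; exact lt_irrefl _)
      · have h10 : s.top = t.top := le_antisymm (t.hle _ h9) h5
        exact (Node.eq_of_le hsu (h1.trans hu) h10).le
  · exact (hst.trans h1).trans hu

/-- A space is d-separable if it has a dense subset which is a countable union of discrete
subspaces. -/
def LittleDSeparable (X : Type) [TopologicalSpace X] : Prop :=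
  ∃ F : ℕ → Set X, (∀ n, DiscreteTopology (F n)) ∧ Dense (⋃ n, F n)

/-- A space is D-separable if for every sequence of dense subsets one can choose discrete subsets
of them whose union is dense. -/
def BigDSeparable (X : Type) [TopologicalSpace X] : Prop :=
  ∀ D : ℕ → Set X, (∀ n, Dense (D n)) →
    ∃ F : ℕ → Set X, (∀ n, F n ⊆ D n ∧ DiscreteTopology (F n)) ∧ Dense (⋃ n, F n)

theorem not_dSeparableWeak : ¬ LittleDSeparable Node := by
  rintro ⟨F, hF, hd⟩
  obtain ⟨s, -, hs⟩ := distributive (O := fun n => {s : Node | ∀ u, s ≤ u → u ∉ F n}) (by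
    intro n s
    by_cases h : ∃ t, s ≤ t ∧ t ∈ F n
    · obtain ⟨t, h1, h2⟩ := h
      have h3 : ∃ U : Set Node, IsOpen U ∧ t ∈ U ∧ ∀ u ∈ U, u ∈ F n → u = t := by
        have h4 : IsOpen ({⟨t, h2⟩} : Set (F n)) := by
          have := hF n
          exact isOpen_discrete _
        obtain ⟨U, hU1, hU2⟩ := isOpen_induced_iff.1 h4
        refine ⟨U, hU1, ?_, ?_⟩
        · have : (⟨t, h2⟩ : F n) ∈ (Subtype.val ⁻¹' U : Set (F n)) := by rw [hU2]; rfl
          exact this
        · intro u hu hu'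
          have : (⟨u, hu'⟩ : F n) ∈ (Subtype.val ⁻¹' U : Set (F n)) := hu
          rw [hU2] at this
          exact congrArg Subtype.val this
      obtain ⟨U, hU1, hU2, hU3⟩ := h3
      obtain ⟨r, hr1, hr2, hr3⟩ := exists_cone hU1 hU2
      refine ⟨r, h1.trans hr1, fun u hu hu' => ?_⟩
      have := hU3 u (hr3 u hu) hu'
      exact hr2 (this ▸ hu)
    · refine ⟨s, le_rfl, fun u hu hu' => h ⟨u, hu, hu'⟩⟩) (by
    intro n s t hs hst u hu
    exact hs u (hst.trans hu)) (Classical.arbitrary Node)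
  obtain ⟨u, hu1, hu2⟩ := hd.inter_open_nonempty _ (isClopen_cone s).isOpen ⟨s, le_refl s⟩
  obtain ⟨n, hn⟩ := mem_iUnion.1 hu2
  exact hs n u hu1 hn

/-! ### The square -/

/-- A pair of nodes is coded by a function on `Bool`. -/
def Alt (μ : K) (m : ℕ) (P : Bool → Node) : Prop :=
  ∃ a : ℕ → K, a 0 = μ ∧
    (∀ i < m + 2, IsLeast {j | (P i.bodd).y j ≠ none ∧ a i < j} (a (i + 1))) ∧
    a (m + 1) = (P m.bodd).top ∧ a (m + 2) = (P (!m.bodd)).top

theorem Alt.unique {μ : K} {m : ℕ} {P Q R : Bool → Node} (hP : Alt μ m P) (hQ : Alt μ m Q)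
    (h1 : ∀ b, P b ≤ R b) (h2 : ∀ b, Q b ≤ R b) : P = Q := by
  obtain ⟨a, ha0, ha1, ha2, ha3⟩ := hP
  obtain ⟨c, hc0, hc1, hc2, hc3⟩ := hQ
  have key : ∀ i ≤ m + 2, a i = c i := by
    intro i
    induction i with
    | zero => intro _; rw [ha0, hc0]
    | succ i ih =>
      intro hi
      have h3 := ih (by omega)
      have h4 := ha1 i (by omega)
      have h5 := hc1 i (by omega)
      have h6 : a (i + 1) ≤ (P i.bodd).top := (P i.bodd).hle _ h4.1.1
      have h7 : c (i + 1) ≤ (Q i.bodd).top := (Q i.bodd).hle _ h5.1.1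
      rcases le_total (a (i + 1)) (c (i + 1)) with h8 | h8
      · refine le_antisymm h8 (h5.2 ⟨?_, ?_⟩)
        · rw [h2 i.bodd _ (h8.trans h7), ← h1 i.bodd _ h6]
          exact h4.1.1
        · rw [← h3]; exact h4.1.2
      · refine le_antisymm (h4.2 ⟨?_, ?_⟩) h8
        · rw [h1 i.bodd _ (h8.trans h6), ← h2 i.bodd _ h7]
          exact h5.1.1
        · rw [h3]; exact h5.1.2
  have h4 := key (m + 1) (by omega)
  have h5 := key (m + 2) (by omega)
  rw [ha2, hc2] at h4
  rw [ha3, hc3] at h5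
  funext b
  rcases Bool.eq_or_eq_not b m.bodd with rfl | rfl
  · exact Node.eq_of_le (h1 _) (h2 _) h4
  · exact Node.eq_of_le (h1 _) (h2 _) h5

theorem exists_alt {p P : Bool → Node} (hinc : Inc (p false).code (p true).code)
    (hpP : ∀ b, p b ≤ P b) {μ : K} (hμ : ∀ b, (p b).top ≤ μ) :
    ∃ m Q, (∀ b, P b ≤ Q b) ∧ Alt μ m Q := by
  classical
  -- the alternating sequence
  let nxt : Bool → K → K := fun b k =>
    if hk : {j | (P b).y j ≠ none ∧ k < j}.Nonempty then wellFounded_lt.min _ hk else k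
  have hnxt : ∀ b k, {j | (P b).y j ≠ none ∧ k < j}.Nonempty →
      IsLeast {j | (P b).y j ≠ none ∧ k < j} (nxt b k) := by
    intro b k hk
    have h1 : nxt b k = wellFounded_lt.min _ hk := dif_pos hk
    rw [h1]
    exact ⟨wellFounded_lt.min_mem _ hk, fun j hj => not_lt.1 (wellFounded_lt.not_lt_min _ hj)⟩
  let a : ℕ → K := fun n => Nat.rec μ (fun n k => nxt n.bodd k) n
  have ha : ∀ n, a (n + 1) = nxt n.bodd (a n) := fun n => rfl
  have hex : ∃ n, ¬ {j | (P n.bodd).y j ≠ none ∧ a n < j}.Nonempty := by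
    by_contra hcon
    push Not at hcon
    have h1 : ∀ n, IsLeast {j | (P n.bodd).y j ≠ none ∧ a n < j} (a (n + 1)) := fun n => by
      rw [ha]; exact hnxt _ _ (hcon n)
    have hmono : StrictMono a := strictMono_nat_of_lt_succ fun n => (h1 n).1.2
    obtain ⟨δ, hδ⟩ := exists_lub a
    -- subsequences
    have hlub : ∀ e : ℕ → ℕ, (∀ n, n ≤ e n) → IsLUB (range fun n => a (e n)) δ := by
      intro e he
      constructor
      · rintro _ ⟨n, rfl⟩
        exact hδ.1 ⟨e n, rfl⟩
      · intro b hb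
        apply hδ.2
        rintro _ ⟨n, rfl⟩
        exact (hmono.monotone (he n)).trans (hb ⟨n, rfl⟩)
    have hb : ∀ b : Bool, ∃ e : ℕ → ℕ, (∀ n, n ≤ e n) ∧ StrictMono e ∧
        ∀ n, 0 < e n ∧ (P b).y (a (e n)) ≠ none := by
      intro b
      cases b with
      | false =>
        refine ⟨fun n => 2 * n + 1, fun n => by show n ≤ 2 * n + 1; omega, fun m n hmn => by
          show 2 * m + 1 < 2 * n + 1; omega, fun n => ⟨by show 0 < 2 * n + 1; omega, ?_⟩⟩
        have h2 := (h1 (2 * n)).1.1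
        have h3 : (2 * n).bodd = false := by simp
        rw [h3] at h2
        exact h2
      | true =>
        refine ⟨fun n => 2 * n + 2, fun n => by show n ≤ 2 * n + 2; omega, fun m n hmn => by
          show 2 * m + 2 < 2 * n + 2; omega, fun n => ⟨by show 0 < 2 * n + 2; omega, ?_⟩⟩
        have h2 := (h1 (2 * n + 1)).1.1
        have h3 : (2 * n + 1).bodd = true := by simp
        rw [h3] at h2
        exact h2
    have hle : ∀ b : Bool, (p b).code ≤ h δ := by
      intro b
      obtain ⟨e, he1, he2, he3⟩ := hb b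
      have h4 := (P b).lim (fun n => a (e n)) (hmono.comp he2) (fun n => (he3 n).2) δ (hlub e he1)
      obtain ⟨c, hc⟩ := Option.ne_none_iff_exists'.1 (he3 0).2
      have h5 := h4.2 0 c hc
      refine le_trans ?_ h5
      refine (P b).mono (p b).top (a (e 0)) _ _ ?_ hc ?_
      · rw [← hpP b _ le_rfl]
        exact (p b).code_spec
      · have h6 : a 0 ≤ a (e 0) := hmono.monotone (Nat.zero_le _)
        exact (hμ b).trans h6
    exact hinc _ (hle false) (hle true)
  -- the first index at which the sequence stops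
  let n := Nat.find hex
  have hn : ¬ {j | (P n.bodd).y j ≠ none ∧ a n < j}.Nonempty := Nat.find_spec hex
  have hlt : ∀ i < n, IsLeast {j | (P i.bodd).y j ≠ none ∧ a i < j} (a (i + 1)) := by
    intro i hi
    have h1 := Nat.find_min hex hi
    rw [not_not] at h1
    rw [ha]
    exact hnxt _ _ h1
  have htop : (P n.bodd).top ≤ a n := by
    rcases le_or_gt (P n.bodd).top (a n) with hcon | hcon
    · exact hcon
    · exact absurd ⟨_, (P n.bodd).htop, hcon⟩ hn
  obtain ⟨β, hβ⟩ := exists_gt (max (a n) (P (!n.bodd)).top)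
  have hβ1 : a n < β := (le_max_left _ _).trans_lt hβ
  have hβ2 : (P (!n.bodd)).top < β := (le_max_right _ _).trans_lt hβ
  obtain ⟨γ, hγ⟩ := exists_gt β
  obtain ⟨s, hs1, hs2, -, hs4, -⟩ :=
    (P n.bodd).exists_succ β (htop.trans_lt hβ1) (P n.bodd).code le_rfl
  obtain ⟨t, ht1, ht2, -, ht4, -⟩ :=
    (P (!n.bodd)).exists_succ γ (hβ2.trans hγ) (P (!n.bodd)).code le_rfl
  let Q : Bool → Node := fun b => if b = n.bodd then s else t
  have hQ1 : Q n.bodd = s := if_pos rfl
  have hQ2 : Q (!n.bodd) = t := if_neg (by simp)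
  have hQP : ∀ b, P b ≤ Q b := by
    intro b
    rcases Bool.eq_or_eq_not b n.bodd with rfl | rfl
    · rw [hQ1]; exact hs1
    · rw [hQ2]; exact ht1
  have hQtop : ∀ b, β ≤ (Q b).top := by
    intro b
    rcases Bool.eq_or_eq_not b n.bodd with rfl | rfl
    · rw [hQ1, hs2]
    · rw [hQ2, ht2]; exact hγ.le
  have hQne : ∀ b k, (Q b).y k ≠ none → β ≤ k ∨ (P b).y k ≠ none := by
    intro b k hk
    rcases Bool.eq_or_eq_not b n.bodd with rfl | rfl
    · rw [hQ1] at hk
      rcases hs4 k hk with h1 | h1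
      · exact Or.inl h1.ge
      · exact Or.inr h1
    · rw [hQ2] at hk
      rcases ht4 k hk with h1 | h1
      · exact Or.inl (h1 ▸ hγ.le)
      · exact Or.inr h1
  have hamono : ∀ i ≤ n, a i ≤ a n := by
    intro i hi
    induction hi using Nat.decreasingInduction with
    | self => exact le_rfl
    | of_succ k hk ih => exact (hlt k hk).1.2.le.trans ih
  refine ⟨n, Q, hQP, fun i => if i ≤ n then a i else if i = n + 1 then β else γ, ?_, ?_, ?_, ?_⟩
  · show (if 0 ≤ n then a 0 else _) = μ
    rw [if_pos (Nat.zero_le _)]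
    rfl
  · intro i hi
    show IsLeast {j | (Q i.bodd).y j ≠ none ∧ (if i ≤ n then a i else if i = n + 1 then β else γ) < j}
      (if i + 1 ≤ n then a (i + 1) else if i + 1 = n + 1 then β else γ)
    rcases lt_trichotomy i n with h1 | h1 | h1
    · rw [if_pos h1.le, if_pos (Nat.succ_le_of_lt h1)]
      have h2 := hlt i h1
      have h3 : a (i + 1) < β := (hamono (i + 1) h1).trans_lt hβ1
      refine ⟨⟨?_, h2.1.2⟩, ?_⟩
      · rw [← hQP i.bodd _ ((P i.bodd).hle _ h2.1.1)]
        exact h2.1.1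
      · intro j hj
        rcases hQne _ _ hj.1 with h4 | h4
        · exact h3.le.trans h4
        · exact h2.2 ⟨h4, hj.2⟩
    · subst h1
      rw [if_pos le_rfl, if_neg (by omega), if_pos rfl]
      refine ⟨⟨?_, hβ1⟩, ?_⟩
      · rw [hQ1, ← hs2]; exact s.htop
      · intro j hj
        rcases hQne _ _ hj.1 with h4 | h4
        · exact h4
        · exact absurd hj.2 (not_lt.2 (((P _).hle _ h4).trans htop))
    · have h2 : i = n + 1 := by omega
      subst h2
      rw [if_neg (by omega), if_pos rfl, if_neg (by omega), if_neg (by omega)]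
      have h3 : (n + 1).bodd = !n.bodd := by simp [Nat.bodd_succ]
      rw [h3, hQ2]
      refine ⟨⟨?_, hγ⟩, ?_⟩
      · rw [← ht2]; exact t.htop
      · intro j hj
        rcases ht4 _ hj.1 with h4 | h4
        · exact h4.ge
        · exact absurd hj.2 (not_lt.2 (((P _).hle _ h4).trans hβ2.le))
  · show (if n + 1 ≤ n then a (n + 1) else if n + 1 = n + 1 then β else γ) = (Q n.bodd).top
    rw [if_neg (by omega), if_pos rfl, hQ1, hs2]
  · show (if n + 2 ≤ n then a (n + 2) else if n + 2 = n + 1 then β else γ) = (Q (!n.bodd)).top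
    rw [if_neg (by omega), if_neg (by omega), hQ2, ht2]

/-! ### D-separability of the square -/

/-- Two pairs of nodes without common extension. -/
def Sep (P Q : Bool → Node) : Prop := ¬ ∃ R : Bool → Node, (∀ b, P b ≤ R b) ∧ ∀ b, Q b ≤ R b

/-- A maximal family of pairwise incompatible pairs of nodes with incompatible codes. -/
theorem exists_family : ∃ A : Set (Bool → Node),
    (∀ p ∈ A, Inc (p false).code (p true).code) ∧ A.Pairwise Sep ∧
    ∀ P : Bool → Node, ∃ p ∈ A, ∃ Q : Bool → Node, (∀ b, P b ≤ Q b) ∧ ∀ b, p b ≤ Q b := by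
  obtain ⟨A, hA⟩ := zorn_subset {A : Set (Bool → Node) |
    (∀ p ∈ A, Inc (p false).code (p true).code) ∧ A.Pairwise Sep} (by
    intro c hc hchain
    refine ⟨⋃₀ c, ⟨?_, ?_⟩, fun s hs => subset_sUnion_of_mem hs⟩
    · rintro p ⟨s, hs, hp⟩
      exact (hc hs).1 p hp
    · rw [pairwise_sUnion hchain.directedOn]
      exact fun s hs => (hc hs).2)
  refine ⟨A, hA.prop.1, hA.prop.2, ?_⟩
  intro P
  by_contra hcon
  push Not at hcon
  -- extend `P` to a pair with incompatible codes
  obtain ⟨c, d, hc, hd, hcd⟩ := Code.exists_inc (P false).code (P true).code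
  obtain ⟨β, hβ⟩ := exists_gt (P false).top
  obtain ⟨γ, hγ⟩ := exists_gt (P true).top
  obtain ⟨s, hs1, -, hs3, -, -⟩ := (P false).exists_succ β hβ c hc
  obtain ⟨t, ht1, -, ht3, -, -⟩ := (P true).exists_succ γ hγ d hd
  let R : Bool → Node := fun b => if b = true then t else s
  have hR0 : R false = s := rfl
  have hR1 : R true = t := rfl
  have hPR : ∀ b, P b ≤ R b := by
    intro b
    cases b with
    | false => exact hs1
    | true => exact ht1
  have hmem : R ∈ A := by
    have h1 : insert R A ∈ {A : Set (Bool → Node) |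
        (∀ p ∈ A, Inc (p false).code (p true).code) ∧ A.Pairwise Sep} := by
      constructor
      · intro p hp
        rcases hp with rfl | hp
        · rw [hR0, hR1, hs3, ht3]; exact hcd
        · exact hA.prop.1 p hp
      · refine hA.prop.2.insert fun q hq _ => ⟨?_, ?_⟩
        · rintro ⟨Q, h2, h3⟩
          obtain ⟨b, hb⟩ := hcon q hq Q (fun b => (hPR b).trans (h2 b))
          exact hb (h3 b)
        · rintro ⟨Q, h2, h3⟩
          obtain ⟨b, hb⟩ := hcon q hq Q (fun b => (hPR b).trans (h3 b))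
          exact hb (h2 b)
    exact hA.le_of_ge h1 (subset_insert _ _) (mem_insert _ _)
  obtain ⟨b, hb⟩ := hcon R hmem R hPR
  exact hb le_rfl

/-- The square of the tree has a dense subset which is a countable union of antichains. -/
theorem exists_antichains : ∃ J : ℕ → Set (Node × Node),
    (∀ n, ∀ P ∈ J n, ∀ Q ∈ J n, ∀ R : Node × Node, P ≤ R → Q ≤ R → P = Q) ∧
    ∀ P : Node × Node, ∃ n, ∃ Q ∈ J n, P ≤ Q := by
  obtain ⟨A, hA1, hA2, hA3⟩ := exists_family
  let tp : Node × Node → Bool → Node := fun P b => if b = true then P.2 else P.1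
  have htp : ∀ {P Q : Node × Node}, P ≤ Q → ∀ b, tp P b ≤ tp Q b := by
    intro P Q h b
    cases b with
    | false => exact h.1
    | true => exact h.2
  have htp' : ∀ {P Q : Node × Node}, (∀ b, tp P b ≤ tp Q b) → P ≤ Q :=
    fun h => ⟨h false, h true⟩
  refine ⟨fun n => {P | ∃ p ∈ A, (∀ b, p b ≤ tp P b) ∧
    Alt (max (p false).top (p true).top) n (tp P)}, ?_, ?_⟩
  · rintro n P ⟨p, hp, hpP, hP⟩ Q ⟨q, hq, hqQ, hQ⟩ R hPR hQR
    have hpq : p = q := by
      by_contra hne
      exact hA2 hp hq hne ⟨tp R, fun b => (hpP b).trans (htp hPR b),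
        fun b => (hqQ b).trans (htp hQR b)⟩
    subst hpq
    have h1 := Alt.unique hP hQ (htp hPR) (htp hQR)
    exact Prod.ext (congrFun h1 false) (congrFun h1 true)
  · intro P
    obtain ⟨p, hp, Q, hPQ, hpQ⟩ := hA3 (tp P)
    obtain ⟨m, R, hR1, hR2⟩ := exists_alt (hA1 p hp) hpQ
      (μ := max (p false).top (p true).top) (by
        intro b
        cases b with
        | false => exact le_max_left _ _
        | true => exact le_max_right _ _)
    have hR3 : tp (R false, R true) = R := by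
      funext b
      cases b <;> rfl
    refine ⟨m, (R false, R true), ⟨p, hp, ?_, ?_⟩, htp' ?_⟩
    · rw [hR3]; exact fun b => (hpQ b).trans (hR1 b)
    · rw [hR3]; exact hR2
    · rw [hR3]; exact fun b => (hPQ b).trans (hR1 b)

theorem dSeparable_square : BigDSeparable (Node × Node) := by
  intro D hD
  obtain ⟨J, hJ1, hJ2⟩ := exists_antichains
  have hopen : ∀ P : Node × Node, IsOpen {R : Node × Node | P ≤ R} := by
    intro P
    exact (isClopen_cone P.1).isOpen.prod (isClopen_cone P.2).isOpen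
  have hz : ∀ (n : ℕ) (P : Node × Node), ∃ z ∈ D n, P ≤ z := by
    intro n P
    obtain ⟨z, h1, h2⟩ := (hD n).inter_open_nonempty _ (hopen P) ⟨P, le_refl P⟩
    exact ⟨z, h2, h1⟩
  choose z hz1 hz2 using hz
  refine ⟨fun n => z n '' J n, fun n => ⟨?_, ?_⟩, ?_⟩
  · rintro _ ⟨P, _, rfl⟩
    exact hz1 n P
  · rw [discreteTopology_iff_isOpen_singleton]
    rintro ⟨_, ⟨P, hP, rfl⟩⟩
    rw [isOpen_induced_iff]
    refine ⟨_, hopen P, ?_⟩
    ext ⟨_, ⟨Q, hQ, rfl⟩⟩
    constructor
    · intro h
      have h1 : P ≤ z n Q := h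
      have h2 := hJ1 n P hP Q hQ _ h1 (hz2 n Q)
      subst h2
      rfl
    · intro h
      have h1 : z n Q = z n P := congrArg Subtype.val h
      show P ≤ z n Q
      rw [h1]
      exact hz2 n P
  · rw [dense_iff_inter_open]
    rintro W hW ⟨⟨u, v⟩, huv⟩
    obtain ⟨U, V, hU, hV, hu, hv, hUV⟩ := isOpen_prod_iff.1 hW u v huv
    obtain ⟨r, _, _, hr⟩ := exists_cone hU hu
    obtain ⟨s, _, _, hs⟩ := exists_cone hV hv
    obtain ⟨n, Q, hQ, hle⟩ := hJ2 (r, s)
    have h1 := hle.trans (hz2 n Q)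
    exact ⟨z n Q, hUV ⟨hr _ h1.1, hs _ h1.2⟩, mem_iUnion.2 ⟨n, Q, hQ, rfl⟩⟩

end Pool.Agent.H764R3.Tree
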