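import Mathlib
import Pool.Agent.H764R3.Stat

/-!
# `C_p(X)` for `X` the Stone-Cech compactification of a discrete space of size `ω₂`

The characteristic functions of the initial segments form a closed discrete set which has no
point-countable open expansion, not even in the sense of a sequence of expansions.
-/

set_option autoImplicit false

open Cardinal Order Set Topology Filter Pool.Agent.H764R3.Stat

namespace Pool.Agent.H764R3.SubML

/-- a well-ordered set of type `ω₁` -/
abbrev Om : Type := (ℵ₁ : Cardinal.{0}).ord.ToType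

theorem mk_Om : #Om = ℵ₁ := by simp [Om]

instance : Infinite Om := by
  rw [infinite_iff, mk_Om]
  exact aleph0_lt_aleph_one.le

theorem countable_Iio (i : Om) : (Iio i).Countable := by
  apply Cardinal.le_aleph0_iff_set_countable.1
  have := Cardinal.mk_Iio_lt i (by rw [mk_Om]; exact (Ordinal.type_toType _).symm)
  rw [mk_Om] at this
  have h0 : (ℵ₁ : Cardinal.{0}) = Order.succ ℵ₀ := succ_aleph0.symm
  exact Order.lt_succ_iff.1 (this.trans_eq h0)

/-- the well-ordered set of size `ω₂` -/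
abbrev K : Type := KK Om

/-- the Stone-Cech compactification of the discrete space `K` -/
abbrev X : Type := Ultrafilter K

/-- the function space -/
abbrev Z : Type := {g : X → ℝ // Continuous g}

open Classical in
/-- the characteristic function of a set -/
noncomputable def chi (b : Set K) : Z :=
  ⟨fun u => if b ∈ u then 1 else 0, by
    refine continuous_def.2 fun s _ => ?_
    have h1 : (fun u : X => if b ∈ u then (1 : ℝ) else 0) ⁻¹' s =
        {u : X | b ∈ u ∧ (1 : ℝ) ∈ s} ∪ {u : X | bᶜ ∈ u ∧ (0 : ℝ) ∈ s} := by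
      ext u
      by_cases hb : b ∈ u
      · have hb' : bᶜ ∉ u := by
          rw [Ultrafilter.compl_notMem_iff]; exact hb
        simp [hb, hb']
      · have hb' : bᶜ ∈ u := Ultrafilter.compl_mem_iff_notMem.2 hb
        simp [hb, hb']
    rw [h1]
    refine IsOpen.union ?_ ?_
    · by_cases h : (1 : ℝ) ∈ s
      · simpa [h] using ultrafilter_isOpen_basic b
      · simp [h]
    · by_cases h : (0 : ℝ) ∈ s
      · simpa [h] using ultrafilter_isOpen_basic bᶜ
      · simp [h]⟩

theorem chi_mem {b : Set K} {u : X} (h : b ∈ u) : (chi b).1 u = 1 := if_pos h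

theorem chi_notMem {b : Set K} {u : X} (h : bᶜ ∈ u) : (chi b).1 u = 0 :=
  if_neg (Ultrafilter.compl_mem_iff_notMem.1 h)

theorem isOpen_lt' (u : X) (c : ℝ) : IsOpen {g : Z | g.1 u < c} :=
  isOpen_lt ((continuous_apply u).comp continuous_subtype_val) continuous_const

theorem isOpen_gt' (u : X) (c : ℝ) : IsOpen {g : Z | c < g.1 u} :=
  isOpen_lt continuous_const ((continuous_apply u).comp continuous_subtype_val)

/-- values at ultrafilters containing `s` are limits of values at points of `s` -/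
theorem one_le_of {g : Z} {s : Set K} (h : ∀ k ∈ s, 1 ≤ g.1 (pure k)) {u : X} (hu : s ∈ u) :
    1 ≤ g.1 u := by
  by_contra hcon
  push Not at hcon
  have h1 : IsOpen {v : X | g.1 v < 1} := isOpen_lt g.2 continuous_const
  obtain ⟨_, ⟨t, rfl⟩, ht1, ht2⟩ := ultrafilterBasis_is_basis.isOpen_iff.1 h1 u hcon
  have h3 : s ∩ t ∈ u := Filter.inter_mem hu ht1
  obtain ⟨k, hk1, hk2⟩ := u.nonempty_of_mem h3
  have h4 : (pure k : X) ∈ {v : X | g.1 v < 1} := ht2 (by
    show t ∈ (pure k : X)
    exact hk2)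
  have h5 : g.1 (pure k) < 1 := h4
  exact absurd (h k hk1) (not_le.2 h5)

/-- an ultrafilter of final segments of `α` -/
theorem exists_unif {α : K} (h : (Iio α).Nonempty) : ∃ u : X, ∀ γ < α, Ico γ α ∈ u := by
  obtain ⟨γ₀, hγ₀⟩ := h
  let F : Filter K := ⨅ γ : Iio α, 𝓟 (Ico γ.1 α)
  have hne : Nonempty (Iio α) := ⟨⟨γ₀, hγ₀⟩⟩
  have : F.NeBot := by
    apply Filter.iInf_neBot_of_directed
    · intro a b
      refine ⟨max a b, ?_, ?_⟩
      · simp only [ge_iff_le, le_principal_iff, mem_principal]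
        exact Ico_subset_Ico_left (le_max_left a b)
      · simp only [ge_iff_le, le_principal_iff, mem_principal]
        exact Ico_subset_Ico_left (le_max_right a b)
    · intro a
      rw [principal_neBot_iff]
      exact ⟨a.1, le_rfl, a.2⟩
  refine ⟨Ultrafilter.of F, fun γ hγ => ?_⟩
  have h1 : (Ultrafilter.of F : Filter K) ≤ F := Ultrafilter.of_le F
  exact h1 (mem_iInf_of_mem (⟨γ, hγ⟩ : Iio α) (mem_principal_self _))

theorem exists_unif_top : ∃ u : X, ∀ γ, Ici γ ∈ u :=
  ⟨Ultrafilter.of atTop, fun γ => (Ultrafilter.of_le (atTop : Filter K)) (Ici_mem_atTop γ)⟩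

/-- The characteristic functions of the initial segments form a closed discrete set. -/
theorem closed_discrete (g : Z) :
    ∃ U : Set Z, IsOpen U ∧ g ∈ U ∧ {α : K | chi (Iio α) ∈ U}.Subsingleton := by
  classical
  by_cases h1 : ∃ k j : K, k < j ∧ g.1 (pure k) < 1 ∧ 0 < g.1 (pure j)
  · obtain ⟨k, j, hkj, h2, h3⟩ := h1
    refine ⟨_, (isOpen_lt' (pure k) 1).inter (isOpen_gt' (pure j) 0), ⟨h2, h3⟩, ?_⟩
    rintro α ⟨ha, hb⟩
    exfalso
    have hα1 : ¬ k < α := by
      intro h
      have : (chi (Iio α)).1 (pure k) = 1 := chi_mem (by exact h)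
      have hlt : (chi (Iio α)).1 (pure k) < 1 := ha
      rw [this] at hlt
      exact lt_irrefl _ hlt
    have hα2 : j < α := by
      by_contra h
      have : (chi (Iio α)).1 (pure j) = 0 := chi_notMem (by exact h)
      have hlt : 0 < (chi (Iio α)).1 (pure j) := hb
      rw [this] at hlt
      exact lt_irrefl _ hlt
    exact hα1 (hkj.trans hα2)
  push Not at h1
  by_cases h2 : ∃ k : K, g.1 (pure k) < 1
  · -- the least such `k`
    let α : K := wellFounded_lt.min {k : K | g.1 (pure k) < 1} h2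
    have hα1 : g.1 (pure α) < 1 := wellFounded_lt.min_mem {k : K | g.1 (pure k) < 1} h2
    have hα2 : ∀ k < α, 1 ≤ g.1 (pure k) := by
      intro k hk
      by_contra hcon
      push Not at hcon
      exact wellFounded_lt.not_lt_min {k : K | g.1 (pure k) < 1} hcon hk
    have key : ∀ β : K, (chi (Iio β)).1 (pure α) < 1 → β ≤ α := by
      intro β hβ
      by_contra h
      push Not at h
      have : (chi (Iio β)).1 (pure α) = 1 := chi_mem (by exact h)
      rw [this] at hβ
      exact lt_irrefl _ hβ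
    by_cases h3 : (Iio α).Nonempty
    · obtain ⟨u, hu⟩ := exists_unif h3
      obtain ⟨γ₀, hγ₀⟩ := h3
      have h4 : 1 ≤ g.1 u := one_le_of (s := Ico γ₀ α) (fun k hk => hα2 k hk.2) (hu γ₀ hγ₀)
      refine ⟨_, (isOpen_lt' (pure α) 1).inter (isOpen_gt' u 0), ⟨hα1, ?_⟩, ?_⟩
      · show 0 < g.1 u
        linarith
      have key2 : ∀ β, chi (Iio β) ∈ {g : Z | g.1 (pure α) < 1} ∩ {g : Z | 0 < g.1 u} → β = α := by
        rintro β ⟨ha, hb⟩
        refine le_antisymm (key β ha) ?_
        by_contra h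
        push Not at h
        have h5 : (Iio β)ᶜ ∈ u := by
          refine mem_of_superset (hu β h) fun x hx => ?_
          simp only [mem_compl_iff, mem_Iio, not_lt]
          exact hx.1
        have hlt : 0 < (chi (Iio β)).1 u := hb
        rw [chi_notMem h5] at hlt
        exact lt_irrefl _ hlt
      intro β hβ β' hβ'
      rw [key2 β hβ, key2 β' hβ']
    · refine ⟨_, isOpen_lt' (pure α) 1, hα1, ?_⟩
      have key2 : ∀ β, chi (Iio β) ∈ {g : Z | g.1 (pure α) < 1} → β = α := by
        intro β hβ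
        rcases (key β hβ).eq_or_lt with h | h
        · exact h
        · exact absurd ⟨β, h⟩ h3
      intro β hβ β' hβ'
      rw [key2 β hβ, key2 β' hβ']
  · push Not at h2
    obtain ⟨u, hu⟩ := exists_unif_top
    have h4 : 1 ≤ g.1 u := one_le_of (s := univ) (fun k _ => h2 k) univ_mem
    refine ⟨_, isOpen_gt' u 0, ?_, ?_⟩
    · show 0 < g.1 u
      linarith
    · intro β hβ
      exfalso
      have h5 : (Iio β)ᶜ ∈ u := by
        rw [compl_Iio]
        exact hu β
      have hlt : 0 < (chi (Iio β)).1 u := hβ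
      rw [chi_notMem h5] at hlt
      exact lt_irrefl _ hlt

theorem exists_finset {V : Set Z} (hV : IsOpen V) {f : Z} (hf : f ∈ V) :
    ∃ F : Finset X, ∀ g : Z, (∀ u ∈ F, g.1 u = f.1 u) → g ∈ V := by
  obtain ⟨W, hW, rfl⟩ := isOpen_induced_iff.1 hV
  obtain ⟨F, w, hw, hF⟩ := isOpen_pi_iff.1 hW _ hf
  refine ⟨F, fun g hg => hF ?_⟩
  intro u hu
  rw [hg u hu]
  exact (hw u hu).2

theorem exists_gamma (F : Finset X) (α : K) (hα : (Iio α).Nonempty) :
    ∃ γ < α, ∀ u ∈ F, Iio α ∈ u → Iio γ ∈ u ∨ ∀ η < α, Ico η α ∈ u := by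
  classical
  induction F using Finset.induction_on with
  | empty =>
    obtain ⟨γ, hγ⟩ := hα
    exact ⟨γ, hγ, fun u hu => absurd hu (Finset.notMem_empty u)⟩
  | insert u F _ ih =>
    obtain ⟨γ, hγ, h⟩ := ih
    by_cases h1 : ∃ γ' < α, Iio γ' ∈ u
    · obtain ⟨γ', hγ', h2⟩ := h1
      refine ⟨max γ γ', max_lt hγ hγ', fun v hv hv' => ?_⟩
      rcases Finset.mem_insert.1 hv with rfl | hv
      · exact Or.inl (mem_of_superset h2 (Iio_subset_Iio (le_max_right _ _)))
      · rcases h v hv hv' with h3 | h3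
        · exact Or.inl (mem_of_superset h3 (Iio_subset_Iio (le_max_left _ _)))
        · exact Or.inr h3
    · push Not at h1
      refine ⟨γ, hγ, fun v hv hv' => ?_⟩
      rcases Finset.mem_insert.1 hv with rfl | hv
      · right
        intro η hη
        have h2 := h1 η hη
        have h3 : (Iio η)ᶜ ∈ v := Ultrafilter.compl_mem_iff_notMem.2 h2
        refine mem_of_superset (Filter.inter_mem h3 hv') ?_
        rintro x ⟨hx1, hx2⟩
        exact ⟨not_lt.1 hx1, hx2⟩
      · exact h v hv hv'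

theorem exists_delta (F : Finset X) (α : K) :
    ∃ δ, ∀ u ∈ F, Ici α ∈ u → Ico α δ ∈ u ∨ ∀ η, Ici η ∈ u := by
  classical
  induction F using Finset.induction_on with
  | empty => exact ⟨α, fun u hu => absurd hu (Finset.notMem_empty u)⟩
  | insert u F _ ih =>
    obtain ⟨δ, h⟩ := ih
    by_cases h1 : ∃ δ', Ico α δ' ∈ u
    · obtain ⟨δ', h2⟩ := h1
      refine ⟨max δ δ', fun v hv hv' => ?_⟩
      rcases Finset.mem_insert.1 hv with rfl | hv
      · exact Or.inl (mem_of_superset h2 (Ico_subset_Ico_right (le_max_right _ _)))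
      · rcases h v hv hv' with h3 | h3
        · exact Or.inl (mem_of_superset h3 (Ico_subset_Ico_right (le_max_left _ _)))
        · exact Or.inr h3
    · push Not at h1
      refine ⟨δ, fun v hv hv' => ?_⟩
      rcases Finset.mem_insert.1 hv with rfl | hv
      · right
        intro η
        have h2 := h1 η
        have h3 : (Ico α η)ᶜ ∈ v := Ultrafilter.compl_mem_iff_notMem.2 h2
        refine mem_of_superset (Filter.inter_mem h3 hv') ?_
        rintro x ⟨hx1, hx2⟩
        by_contra hcon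
        exact hx1 ⟨hx2, not_le.1 hcon⟩
      · exact h v hv hv'

theorem not_submetalindelof :
    ¬ (∀ 𝒰 : Set (Set Z), (∀ U ∈ 𝒰, IsOpen U) → ⋃₀ 𝒰 = Set.univ →
        ∃ 𝒱 : ℕ → Set (Set Z),
          (∀ n, ∀ V ∈ 𝒱 n, IsOpen V ∧ ∃ U ∈ 𝒰, V ⊆ U) ∧
          (∀ n, ⋃₀ 𝒱 n = Set.univ) ∧
          ∀ x : Z, ∃ n, {V ∈ 𝒱 n | x ∈ V}.Countable) := by
  classical
  intro H
  obtain ⟨𝒱, h1, h2, h3⟩ := H {U | IsOpen U ∧ {α : K | chi (Iio α) ∈ U}.Subsingleton}
    (fun U hU => hU.1) (by
      rw [eq_univ_iff_forall]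
      intro g
      obtain ⟨U, hU1, hU2, hU3⟩ := closed_discrete g
      exact ⟨U, ⟨hU1, hU3⟩, hU2⟩)
  -- the members around the points of the closed discrete set
  have h4 : ∀ (n : ℕ) (α : K), ∃ V ∈ 𝒱 n, chi (Iio α) ∈ V := by
    intro n α
    have : chi (Iio α) ∈ ⋃₀ 𝒱 n := by rw [h2]; exact mem_univ _
    exact this
  choose V hV1 hV2 using h4
  have hVinj : ∀ n, Function.Injective (V n) := by
    intro n α β hαβ
    obtain ⟨-, U, hU, hVU⟩ := h1 n _ (hV1 n α)
    exact hU.2 (hVU (hV2 n α)) (hVU (by rw [hαβ]; exact hV2 n β))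
  have h5 : ∀ (n : ℕ) (α : K), ∃ F : Finset X, ∀ g : Z, (∀ u ∈ F, g.1 u = (chi (Iio α)).1 u) →
      g ∈ V n α := fun n α => exists_finset (h1 n _ (hV1 n α)).1 (hV2 n α)
  choose F hF using h5
  have h6 : ∀ (n : ℕ) (α : K), ∃ γ, (Iio α).Nonempty → (γ < α ∧ ∀ u ∈ F n α, Iio α ∈ u →
      Iio γ ∈ u ∨ ∀ η < α, Ico η α ∈ u) := by
    intro n α
    by_cases h : (Iio α).Nonempty
    · obtain ⟨γ, hγ1, hγ2⟩ := exists_gamma (F n α) α h
      exact ⟨γ, fun _ => ⟨hγ1, hγ2⟩⟩
    · exact ⟨α, fun h' => absurd h' h⟩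
  choose γ hγ using h6
  choose δ hδ using fun (n : ℕ) (α : K) => exists_delta (F n α) α
  -- pressing down
  have h7 : ∀ n, ∃ γ₀, ∀ β : K, ∃ α, β < α ∧ γ n α ≤ γ₀ := by
    intro n
    by_contra hcon
    push Not at hcon
    choose G hG using hcon
    obtain ⟨α, hα1, -, hα2⟩ := stat_Ioi (Classical.arbitrary K) G
    have hne : (Iio α).Nonempty := ⟨_, hα1⟩
    have h8 := (hγ n α hne).1
    exact absurd (hG (γ n α) α (hα2 _ h8)) (lt_irrefl _)
  choose γ₀ hγ₀ using h7
  obtain ⟨γs, hγs⟩ := bounded (C := Om) (ι := ℕ) (by rw [mk_nat]; exact al) γ₀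
  -- a partition of the index set
  obtain ⟨e⟩ : Nonempty (Om ≃ Om × ℕ) := by
    apply Cardinal.eq.1
    rw [mk_prod, lift_id, lift_id, mk_nat, mk_Om]
    exact (Cardinal.mul_eq_left aleph0_lt_aleph_one.le aleph0_lt_aleph_one.le aleph0_ne_zero).symm
  let ν : Om → ℕ := fun i => (e i).2
  have hν : ∀ n, ¬ {i | ν i = n}.Countable := by
    intro n hc
    have hinj : Function.Injective (fun i : Om => e.symm (i, n)) := by
      intro i j hij
      have := e.symm.injective hij
      exact (Prod.mk.inj this).1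
    have h8 : (univ : Set Om).Countable := by
      have h9 : (univ : Set Om) = (fun i : Om => e.symm (i, n)) ⁻¹' {i | ν i = n} := by
        ext i
        simp [ν]
      rw [h9]
      exact hc.preimage hinj
    have h10 : #(univ : Set Om) ≤ ℵ₀ := Cardinal.le_aleph0_iff_set_countable.2 h8
    rw [mk_univ, mk_Om] at h10
    exact absurd h10 (not_le.2 aleph0_lt_aleph_one)
  -- recursion
  have hstep : ∀ (i : Om) (prev : ∀ j : Om, j < i → K), ∃ p : K × K, γs < p.1 ∧ p.1 < p.2 ∧
      γ (ν i) p.2 ≤ γs ∧ ∀ (j : Om) (hj : j < i), prev j hj < p.1 ∧ δ (ν j) (prev j hj) < p.1 := by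
    intro i prev
    have hc : #(Iio i) ≤ #Om := mk_set_le _
    obtain ⟨b, hb⟩ := bounded (C := Om) (ι := Iio i) hc
      (fun j => max (prev j.1 j.2) (δ (ν j.1) (prev j.1 j.2)))
    obtain ⟨b', hb'⟩ := exists_gt (max b γs)
    obtain ⟨α, hα1, hα2⟩ := hγ₀ (ν i) b'
    refine ⟨(b', α), (le_max_right _ _).trans_lt hb', hα1, hα2.trans (hγs _).le, fun j hj => ?_⟩
    have h9 := hb ⟨j, hj⟩
    have h10 : b < b' := (le_max_left _ _).trans_lt hb'
    exact ⟨((le_max_left _ _).trans_lt h9).trans h10, ((le_max_right _ _).trans_lt h9).trans h10⟩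
  choose Φ hΦ using hstep
  let q : Om → K × K := (wellFounded_lt : WellFounded ((· < ·) : Om → Om → Prop)).fix
    (fun i prev => Φ i fun j hj => (prev j hj).2)
  have hq : ∀ i, q i = Φ i (fun j _ => (q j).2) := fun i => WellFounded.fix_eq _ _ _
  have hq1 : ∀ i, γs < (q i).1 := fun i => by rw [hq i]; exact (hΦ i _).1
  have hq2 : ∀ i, (q i).1 < (q i).2 := fun i => by rw [hq i]; exact (hΦ i _).2.1
  have hq3 : ∀ i, γ (ν i) (q i).2 ≤ γs := fun i => by
    have := (hΦ i (fun j _ => (q j).2)).2.2.1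
    rw [← hq i] at this
    exact this
  have hq4 : ∀ i j, j < i → (q j).2 < (q i).1 ∧ δ (ν j) (q j).2 < (q i).1 := fun i j hj => by
    have := (hΦ i (fun j _ => (q j).2)).2.2.2 j hj
    rw [← hq i] at this
    exact this
  have hinj : Function.Injective fun i => (q i).2 := by
    intro i j hij
    have hij' : (q i).2 = (q j).2 := hij
    rcases lt_trichotomy i j with h | h | h
    · exact absurd hij' (((hq4 j i h).1.trans (hq2 j)).ne)
    · exact h
    · exact absurd hij' (((hq4 i j h).1.trans (hq2 i)).ne')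
  obtain ⟨τ, hτ⟩ := bounded (C := Om) (ι := Om) le_rfl (fun i => (q i).2)
  -- the set
  let a : Set K := Iio γs ∪ ⋃ i, Ico (q i).1 (q i).2
  have ha : ∀ i, chi a ∈ V (ν i) (q i).2 := by
    intro i
    apply hF
    intro u hu
    have hne : (Iio (q i).2).Nonempty := ⟨_, hq2 i⟩
    obtain ⟨h9, h10⟩ := hγ (ν i) (q i).2 hne
    by_cases h11 : Iio (q i).2 ∈ u
    · rw [chi_mem h11]
      apply chi_mem
      rcases h10 u hu h11 with h12 | h12
      · refine mem_of_superset h12 fun x hx => Or.inl ?_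
        exact lt_of_lt_of_le hx (hq3 i)
      · refine mem_of_superset (h12 _ (hq2 i)) fun x hx => Or.inr ?_
        exact mem_iUnion.2 ⟨i, hx⟩
    · have h12 : (Iio (q i).2)ᶜ ∈ u := Ultrafilter.compl_mem_iff_notMem.2 h11
      rw [chi_notMem h12]
      apply chi_notMem
      rw [compl_Iio] at h12
      rcases hδ (ν i) (q i).2 u hu h12 with h13 | h13
      · refine mem_of_superset h13 ?_
        rintro x ⟨hx1, hx2⟩ hxa
        rcases hxa with hxa | hxa
        · exact absurd (((hq1 i).trans (hq2 i)).trans_le hx1) (not_lt.2 (le_of_lt hxa))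
        · obtain ⟨j, hj1, hj2⟩ := mem_iUnion.1 hxa
          rcases lt_trichotomy j i with h | h | h
          · have h14 := (hq4 i j h).1.trans (hq2 i)
            exact absurd (hj2.trans h14) (not_lt.2 hx1)
          · subst h
            exact absurd hj2 (not_lt.2 hx1)
          · have h14 := (hq4 j i h).2
            exact absurd (hx2.trans h14) (not_lt.2 hj1)
      · refine mem_of_superset (h13 τ) ?_
        rintro x hx hxa
        have hx' : τ ≤ x := hx
        rcases hxa with hxa | hxa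
        · have h14 : γs < τ := ((hq1 i).trans (hq2 i)).trans (hτ i)
          exact absurd (lt_trans hxa h14) (not_lt.2 hx')
        · obtain ⟨j, hj1, hj2⟩ := mem_iUnion.1 hxa
          exact absurd (hj2.trans (hτ j)) (not_lt.2 hx')
  obtain ⟨n, hn⟩ := h3 (chi a)
  apply hν n
  have h9 : {i | ν i = n} ⊆ (fun i => V n (q i).2) ⁻¹' {V ∈ 𝒱 n | chi a ∈ V} := by
    intro i hi
    have hi' : ν i = n := hi
    refine ⟨hV1 n _, ?_⟩
    have := ha i
    rw [hi'] at this
    exact this
  exact (hn.preimage ((hVinj n).comp hinj)).mono h9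

end Pool.Agent.H764R3.SubML
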