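import Mathlib

/-!
# Peano continua with a locally Euclidean point, or with a real function of bounded variation
# along a path, are topological IFS-attractors
-/

open Set Topology

namespace Pool.Agent.H764R3.TopFractal

/-- `X` is a topological IFS-attractor: it is compact and there is a finite set `F` of continuous
self-maps whose images cover `X` such that for every open cover `𝒰` there is `m` such that the
image of every composition of `m` members of `F` lies in a member of `𝒰`. -/
def IsTopologicalIFSAttractor (X : Type*) [TopologicalSpace X] : Prop :=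
  CompactSpace X ∧ ∃ F : Set (X → X), F.Finite ∧ (∀ f ∈ F, Continuous f) ∧
    (⋃ f ∈ F, Set.range f) = Set.univ ∧
    ∀ 𝒰 : Set (Set X), (∀ U ∈ 𝒰, IsOpen U) → ⋃₀ 𝒰 = Set.univ →
      ∃ m : ℕ, ∀ l : List (X → X), l.length = m → (∀ f ∈ l, f ∈ F) →
        ∃ U ∈ 𝒰, Set.range (l.foldr (fun f g => f ∘ g) id) ⊆ U

/-! ### The core lemma -/

theorem core {X A ι : Type*} [TopologicalSpace X] [MetricSpace A] [CompactSpace A] [Nonempty A]
    [Finite ι] (r : X → A) (hr : Continuous r) (hrs : Function.Surjective r)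
    (p : ι → A → X) (hp : ∀ i, Continuous (p i)) (hcov : ∀ x, ∃ i a, p i a = x)
    (K : NNReal) (hK : K < 1) (hL : ∀ i, LipschitzWith K (r ∘ p i)) :
    IsTopologicalIFSAttractor X := by
  obtain ⟨x₀, -⟩ := hrs (Classical.arbitrary A)
  have hcomp : CompactSpace X := by
    refine ⟨?_⟩
    have h1 : (⋃ i, range (p i)) = univ := by
      refine eq_univ_of_forall fun x => ?_
      obtain ⟨i, a, h⟩ := hcov x
      exact mem_iUnion.2 ⟨i, a, h⟩
    rw [← h1]
    exact isCompact_iUnion fun i => isCompact_range (hp i)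
  refine ⟨hcomp, range (fun i => p i ∘ r), finite_range _, ?_, ?_, ?_⟩
  · rintro _ ⟨i, rfl⟩
    exact (hp i).comp hr
  · refine eq_univ_of_forall fun x => ?_
    obtain ⟨i, a, h⟩ := hcov x
    obtain ⟨y, rfl⟩ := hrs a
    exact mem_iUnion₂.2 ⟨p i ∘ r, ⟨i, rfl⟩, y, h⟩
  · intro 𝒰 hUo hUc
    have hword : ∀ l : List (X → X), (∀ f ∈ l, f ∈ range (fun i => p i ∘ r)) → ∀ x y : X,
        dist (r (l.foldr (fun f g => f ∘ g) id x)) (r (l.foldr (fun f g => f ∘ g) id y))
          ≤ (K : ℝ) ^ l.length * dist (r x) (r y) := by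
      intro l
      induction l with
      | nil => intro _ x y; simp
      | cons f l ih =>
        intro hl x y
        obtain ⟨i, rfl⟩ := hl f (by simp)
        have h1 := ih (fun f hf => hl f (by simp [hf])) x y
        have h2 := (hL i).dist_le_mul (r (l.foldr (fun f g => f ∘ g) id x))
          (r (l.foldr (fun f g => f ∘ g) id y))
        have h3 : (K : ℝ) * dist (r (l.foldr (fun f g => f ∘ g) id x))
            (r (l.foldr (fun f g => f ∘ g) id y)) ≤
            (K : ℝ) * ((K : ℝ) ^ l.length * dist (r x) (r y)) :=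
          mul_le_mul_of_nonneg_left h1 K.2
        have h4 : (K : ℝ) * ((K : ℝ) ^ l.length * dist (r x) (r y)) =
            (K : ℝ) ^ (l.length + 1) * dist (r x) (r y) := by ring
        rw [List.length_cons, ← h4]
        exact h2.trans h3
    have hδ : ∀ i, ∃ δ > 0, ∀ a : A, ∃ U ∈ 𝒰, Metric.ball a δ ⊆ p i ⁻¹' U := by
      intro i
      obtain ⟨δ, hδ, h⟩ := lebesgue_number_lemma_of_metric_sUnion (s := (univ : Set A))
        (c := (fun U => p i ⁻¹' U) '' 𝒰) isCompact_univ
        (by rintro _ ⟨U, hU, rfl⟩; exact (hUo U hU).preimage (hp i))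
        (by
          intro a _
          have : p i a ∈ ⋃₀ 𝒰 := by rw [hUc]; trivial
          obtain ⟨U, hU, hpU⟩ := this
          exact ⟨_, ⟨U, hU, rfl⟩, hpU⟩)
      refine ⟨δ, hδ, fun a => ?_⟩
      obtain ⟨_, ⟨U, hU, rfl⟩, h2⟩ := h a (mem_univ _)
      exact ⟨U, hU, h2⟩
    choose δ hδpos hδU using hδ
    obtain ⟨i₀, -, -⟩ := hcov x₀
    have : Nonempty ι := ⟨i₀⟩
    obtain ⟨j, hj⟩ := Finite.exists_min δ
    set D : ℝ := Metric.diam (univ : Set A)
    have hD : ∀ a b : A, dist a b ≤ D := fun a b =>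
      Metric.dist_le_diam_of_mem isCompact_univ.isBounded (mem_univ a) (mem_univ b)
    have hD0 : 0 ≤ D := Metric.diam_nonneg
    obtain ⟨m, hm⟩ := exists_pow_lt_of_lt_one (div_pos (hδpos j) (by linarith : (0 : ℝ) < D + 1))
      (by exact_mod_cast hK : (K : ℝ) < 1)
    have hm' : (K : ℝ) ^ m * D < δ j := by
      rw [lt_div_iff₀ (by linarith)] at hm
      have : (K : ℝ) ^ m * D ≤ (K : ℝ) ^ m * (D + 1) :=
        mul_le_mul_of_nonneg_left (by linarith) (pow_nonneg K.2 m)
      linarith
    refine ⟨m + 1, fun l hl hlF => ?_⟩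
    cases l with
    | nil => simp at hl
    | cons f l =>
      obtain ⟨i, rfl⟩ := hlF f (by simp)
      obtain ⟨U, hU, hball⟩ := hδU i (r (l.foldr (fun f g => f ∘ g) id x₀))
      refine ⟨U, hU, ?_⟩
      rintro _ ⟨x, rfl⟩
      apply hball
      rw [Metric.mem_ball]
      have h1 := hword l (fun f hf => hlF f (by simp [hf])) x x₀
      have h2 : l.length = m := by simpa using hl
      rw [h2] at h1
      have h3 : (K : ℝ) ^ m * dist (r x) (r x₀) ≤ (K : ℝ) ^ m * D :=
        mul_le_mul_of_nonneg_left (hD _ _) (pow_nonneg K.2 m)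
      have h4 := hj i
      linarith

/-! ### Subdivision of the cube -/

/-- The cube `[0,1]^d`. -/
abbrev Cube (d : ℕ) : Type := Fin d → unitInterval

/-- The small copy of the cube with index `k`. -/
noncomputable def sub {d N : ℕ} (k : Fin d → Fin N) (c : Cube d) : Cube d := fun i =>
  ⟨((k i : ℕ) + (c i : ℝ)) / N, by
    have hN : (0 : ℝ) < N := by exact_mod_cast (k i).pos
    have h1 : ((k i : ℕ) : ℝ) + 1 ≤ N := by exact_mod_cast (k i).2
    have h2 := (c i).2.1
    have h3 := (c i).2.2
    constructor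
    · positivity
    · rw [div_le_one hN]; linarith⟩

theorem sub_dist {d N : ℕ} (hN : 0 < N) (k : Fin d → Fin N) (c c' : Cube d) :
    dist (sub k c) (sub k c') ≤ (1 / N) * dist c c' := by
  have hN' : (0 : ℝ) < N := by exact_mod_cast hN
  rw [dist_pi_le_iff (by positivity)]
  intro i
  have h1 : dist (sub k c i) (sub k c' i) = (1 / N) * dist (c i) (c' i) := by
    rw [Subtype.dist_eq, Subtype.dist_eq, Real.dist_eq, Real.dist_eq]
    simp only [sub]
    rw [← sub_div, abs_div, abs_of_pos hN', add_sub_add_left_eq_sub]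
    ring
  rw [h1]
  exact mul_le_mul_of_nonneg_left (dist_le_pi_dist c c' i) (by positivity)

theorem sub_surj {d N : ℕ} (hN : 0 < N) (c : Cube d) : ∃ k : Fin d → Fin N, ∃ c', sub k c' = c := by
  have hN' : (0 : ℝ) < N := by exact_mod_cast hN
  have key : ∀ t : unitInterval, ∃ (k : Fin N) (s : unitInterval), ((k : ℕ) + (s : ℝ)) / N = t := by
    intro t
    by_cases ht : (t : ℝ) = 1
    · refine ⟨⟨N - 1, by omega⟩, 1, ?_⟩
      have : ((N - 1 : ℕ) : ℝ) = N - 1 := by
        rw [Nat.cast_sub (by omega)]; simp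
      simp only [Icc.coe_one]
      rw [this, ht, div_eq_one_iff_eq hN'.ne']
      ring
    · have ht1 : (t : ℝ) < 1 := lt_of_le_of_ne t.2.2 ht
      have h0 : (0 : ℝ) ≤ N * t := mul_nonneg hN'.le t.2.1
      have h1 : ⌊(N : ℝ) * t⌋₊ < N := by
        rw [Nat.floor_lt h0]
        calc (N : ℝ) * t < N * 1 := mul_lt_mul_of_pos_left ht1 hN'
          _ = N := mul_one _
      refine ⟨⟨⌊(N : ℝ) * t⌋₊, h1⟩, ⟨(N : ℝ) * t - ⌊(N : ℝ) * t⌋₊, ?_, ?_⟩, ?_⟩
      · have := Nat.floor_le h0; linarith
      · have := Nat.lt_floor_add_one ((N : ℝ) * t); linarith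
      · simp only
        field_simp
        ring
  choose k s hks using key
  refine ⟨fun i => k (c i), fun i => s (c i), ?_⟩
  funext i
  apply Subtype.ext
  exact hks (c i)

theorem sub_continuous {d N : ℕ} (k : Fin d → Fin N) : Continuous (sub k) := by
  refine continuous_pi fun i => ?_
  refine Continuous.subtype_mk ?_ _
  have h : Continuous fun c : Cube d => ((c i : unitInterval) : ℝ) :=
    continuous_subtype_val.comp (continuous_apply i)
  exact (continuous_const.add h).div_const _

/-- Criterion: `r` maps `X` onto the `d`-cube, finitely many maps `q i` from the cube cover `X` and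
all `r ∘ q i` are Lipschitz. -/
theorem criterion {X : Type*} [TopologicalSpace X] {d : ℕ} {ι : Type*} [Finite ι]
    (r : X → Cube d) (hr : Continuous r) (hrs : Function.Surjective r)
    (q : ι → Cube d → X) (hq : ∀ i, Continuous (q i)) (hcov : ∀ x, ∃ i c, q i c = x)
    (K : NNReal) (hL : ∀ i, LipschitzWith K (r ∘ q i)) : IsTopologicalIFSAttractor X := by
  obtain ⟨N, hN⟩ := exists_nat_gt (2 * (K : ℝ))
  have hN0 : (0 : ℝ) < N := lt_of_le_of_lt (by positivity) hN
  have hN1 : 0 < N := by exact_mod_cast hN0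
  have hKN : (K / N : NNReal) < 1 := by
    have h1 : (K : ℝ) / N < 1 := by
      rw [div_lt_one hN0]
      have := K.2
      linarith [(show (0 : ℝ) ≤ K from K.2)]
    exact_mod_cast h1
  refine core r hr hrs (ι := ι × (Fin d → Fin N)) (fun i => q i.1 ∘ sub i.2)
    (fun i => (hq i.1).comp (sub_continuous i.2)) ?_ (K / N) hKN ?_
  · intro x
    obtain ⟨i, c, rfl⟩ := hcov x
    obtain ⟨k, c', rfl⟩ := sub_surj hN1 c
    exact ⟨(i, k), c', rfl⟩
  · rintro ⟨i, k⟩
    refine LipschitzWith.of_dist_le_mul fun c c' => ?_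
    have h1 := (hL i).dist_le_mul (sub k c) (sub k c')
    have h2 := sub_dist hN1 k c c'
    have h3 : (K : ℝ) * dist (sub k c) (sub k c') ≤ (K : ℝ) * ((1 / N) * dist c c') :=
      mul_le_mul_of_nonneg_left h2 K.2
    have h4 : (K : ℝ) * ((1 / N) * dist c c') = ((K / N : NNReal) : ℝ) * dist c c' := by
      push_cast; ring
    rw [← h4]
    exact h1.trans h3

/-! ### Functions of bounded variation along a path -/

theorem reparam (φ : unitInterval → ℝ) (hφ : Continuous φ) (hBV : BoundedVariationOn φ univ) :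
    ∃ σ : unitInterval → unitInterval, Continuous σ ∧ Function.Surjective σ ∧
      ∃ K, LipschitzWith K (φ ∘ σ) := by
  have hlb := hBV.locallyBoundedVariationOn
  set V : unitInterval → ℝ := variationOnFromTo φ univ 0 with hV
  have hVmono : Monotone V := by
    intro a b hab
    exact variationOnFromTo.monotoneOn hlb (mem_univ 0) (mem_univ a) (mem_univ b) hab
  have hV0 : V 0 = 0 := variationOnFromTo.self φ univ 0
  have hVcont : Continuous V := by
    rw [continuous_iff_continuousAt]
    intro t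
    rw [continuousAt_iff_continuous_left'_right']
    constructor
    · have h1 : Filter.Tendsto φ (𝓝[univ ∩ Iio t] t) (𝓝 (φ t)) :=
        (hφ.tendsto t).mono_left nhdsWithin_le_nhds
      have h2 := variationOnFromTo.tendsto_left (mem_univ (0 : unitInterval)) (mem_univ t) hlb h1
      rw [dist_self, sub_zero, univ_inter] at h2
      exact h2
    · have h1 : Filter.Tendsto φ (𝓝[univ ∩ Ioi t] t) (𝓝 (φ t)) :=
        (hφ.tendsto t).mono_left nhdsWithin_le_nhds
      have h2 := variationOnFromTo.tendsto_right (mem_univ (0 : unitInterval)) (mem_univ t) hlb h1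
      rw [dist_self, add_zero, univ_inter] at h2
      exact h2
  have hV1 : 0 ≤ V 1 := by rw [← hV0]; exact hVmono (zero_le_one' unitInterval)
  have hpos : 0 < 1 + V 1 := by linarith
  have hVbd : ∀ t, 0 ≤ V t ∧ V t ≤ V 1 := fun t =>
    ⟨by rw [← hV0]; exact hVmono t.2.1, hVmono t.2.2⟩
  let ψ : unitInterval → unitInterval := fun t => ⟨((t : ℝ) + V t) / (1 + V 1), by
    have h1 := hVbd t
    have h2 := t.2.1
    have h3 := t.2.2
    constructor
    · exact div_nonneg (by linarith) hpos.le
    · rw [div_le_one hpos]; linarith⟩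
  have hψc : Continuous ψ :=
    Continuous.subtype_mk ((continuous_subtype_val.add hVcont).div_const _) _
  have hψval : ∀ t, ((ψ t : unitInterval) : ℝ) * (1 + V 1) = (t : ℝ) + V t := fun t =>
    div_mul_cancel₀ _ hpos.ne'
  have hψinj : Function.Injective ψ := by
    have hsm : StrictMono ψ := by
      intro a b hab
      have h1 := hVmono hab.le
      have h2 : (a : ℝ) < b := hab
      have h3 : ((ψ a : unitInterval) : ℝ) < (ψ b : unitInterval) := by
        have ha := hψval a
        have hb := hψval b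
        by_contra hcon
        push Not at hcon
        have := mul_le_mul_of_nonneg_right hcon hpos.le
        linarith
      exact h3
    exact hsm.injective
  have hψ0 : ψ 0 = 0 := by
    apply Subtype.ext
    have := hψval 0
    rw [hV0] at this
    simp only [Icc.coe_zero, add_zero] at this
    rcases mul_eq_zero.1 this with h | h
    · simpa using h
    · exact absurd h hpos.ne'
  have hψ1 : ψ 1 = 1 := by
    apply Subtype.ext
    change ((1 : ℝ) + V 1) / (1 + V 1) = 1
    exact div_self hpos.ne'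
  have hψsurj : Function.Surjective ψ := by
    intro s
    exact mem_range_of_exists_le_of_exists_ge hψc ⟨0, by rw [hψ0]; exact s.2.1⟩
      ⟨1, by rw [hψ1]; exact s.2.2⟩
  let e : unitInterval ≃ unitInterval := Equiv.ofBijective ψ ⟨hψinj, hψsurj⟩
  let h : unitInterval ≃ₜ unitInterval := Continuous.homeoOfEquivCompactToT2 (f := e) hψc
  have hψh : ∀ s, ψ (h.symm s) = s := fun s => h.apply_symm_apply s
  refine ⟨h.symm, h.symm.continuous, h.symm.surjective, ⟨1 + V 1, hpos.le⟩, ?_⟩
  refine LipschitzWith.of_dist_le_mul fun s t => ?_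
  have key : ∀ a b : unitInterval, a ≤ b →
      |φ b - φ a| ≤ (1 + V 1) * dist (ψ a) (ψ b) := by
    intro a b hab
    have h1 : |φ b - φ a| ≤ V b - V a := by
      have := variationOnFromTo.abs_sub_le_sub_of_le hlb (mem_univ (0 : unitInterval))
        (mem_univ a) (mem_univ b) hab
      simpa using this
    have h2 : (a : ℝ) ≤ b := hab
    have ha := hψval a
    have hb := hψval b
    have h3 : V b - V a ≤ (1 + V 1) * ((ψ b : unitInterval) - (ψ a : unitInterval) : ℝ) := by
      have : (1 + V 1) * ((ψ b : unitInterval) - (ψ a : unitInterval) : ℝ) =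
        (b + V b) - (a + V a) := by rw [← ha, ← hb]; ring
      rw [this]; linarith
    have h4 : ((ψ b : unitInterval) - (ψ a : unitInterval) : ℝ) ≤ dist (ψ a) (ψ b) := by
      rw [Subtype.dist_eq, Real.dist_eq, abs_sub_comm]
      exact le_abs_self _
    exact h1.trans (h3.trans (mul_le_mul_of_nonneg_left h4 hpos.le))
  change dist (φ (h.symm s)) (φ (h.symm t)) ≤ (1 + V 1) * dist s t
  rcases le_total (h.symm s) (h.symm t) with hst | hst
  · have := key _ _ hst
    rw [hψh, hψh] at this
    rw [Real.dist_eq, abs_sub_comm]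
    exact this
  · have := key _ _ hst
    rw [hψh, hψh, dist_comm t s] at this
    rw [Real.dist_eq]
    exact this

theorem bounded_variation {X : Type*} [TopologicalSpace X]
    (q : unitInterval → X) (hq : Continuous q) (hqs : Function.Surjective q)
    (r : X → ℝ) (hr : Continuous r) (hne : ∃ x y, r x ≠ r y)
    (hBV : BoundedVariationOn (r ∘ q) univ) : IsTopologicalIFSAttractor X := by
  obtain ⟨σ, hσc, hσs, K, hK⟩ := reparam (r ∘ q) (hr.comp hq) hBV
  obtain ⟨x₁, x₂, hx⟩ : ∃ x y, r x < r y := by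
    obtain ⟨x, y, h⟩ := hne
    rcases lt_or_gt_of_ne h with h | h
    · exact ⟨x, y, h⟩
    · exact ⟨y, x, h⟩
  have hpos : 0 < r x₂ - r x₁ := by linarith
  have : PreconnectedSpace X := hqs.denseRange.preconnectedSpace hq
  let ρ : X → unitInterval := fun x =>
    Set.projIcc (0 : ℝ) 1 zero_le_one ((r x - r x₁) / (r x₂ - r x₁))
  have hρc : Continuous ρ :=
    continuous_projIcc.comp ((hr.sub continuous_const).div_const _)
  have hρs : Function.Surjective ρ := by
    intro t
    obtain ⟨x, hx⟩ : r x₁ + t * (r x₂ - r x₁) ∈ range r := by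
      apply mem_range_of_exists_le_of_exists_ge hr
      · exact ⟨x₁, by nlinarith [t.2.1]⟩
      · exact ⟨x₂, by nlinarith [t.2.2]⟩
    refine ⟨x, ?_⟩
    have : (r x - r x₁) / (r x₂ - r x₁) = t := by
      rw [hx]; field_simp; ring
    simp only [ρ]
    rw [this]
    exact Set.projIcc_val zero_le_one t
  let L : NNReal := ⟨1 / (r x₂ - r x₁), by positivity⟩
  have hLval : (L : ℝ) = 1 / (r x₂ - r x₁) := rfl
  refine criterion (d := 1) (ι := Unit) (fun x _ => ρ x) (continuous_pi fun _ => hρc) ?_
    (fun _ c => q (σ (c 0))) (fun _ => hq.comp (hσc.comp (continuous_apply 0))) ?_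
    (L * K) ?_
  · intro c
    obtain ⟨x, hx⟩ := hρs (c 0)
    refine ⟨x, ?_⟩
    funext i
    rw [Subsingleton.elim i 0]
    exact hx
  · intro x
    obtain ⟨t, rfl⟩ := hqs x
    obtain ⟨s, rfl⟩ := hσs t
    exact ⟨(), fun _ => s, rfl⟩
  · intro _
    refine LipschitzWith.of_dist_le_mul fun c c' => ?_
    rw [dist_pi_le_iff (by positivity)]
    intro i
    have h1 : dist (ρ (q (σ (c 0)))) (ρ (q (σ (c' 0)))) ≤
        dist ((r (q (σ (c 0))) - r x₁) / (r x₂ - r x₁))
          ((r (q (σ (c' 0))) - r x₁) / (r x₂ - r x₁)) := by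
      have := (LipschitzWith.projIcc (zero_le_one' ℝ)).dist_le_mul
        ((r (q (σ (c 0))) - r x₁) / (r x₂ - r x₁)) ((r (q (σ (c' 0))) - r x₁) / (r x₂ - r x₁))
      simpa using this
    have h2 : dist ((r (q (σ (c 0))) - r x₁) / (r x₂ - r x₁))
          ((r (q (σ (c' 0))) - r x₁) / (r x₂ - r x₁)) =
          (1 / (r x₂ - r x₁)) * dist (r (q (σ (c 0)))) (r (q (σ (c' 0)))) := by
      rw [Real.dist_eq, Real.dist_eq, ← sub_div, abs_div, abs_of_pos hpos, sub_sub_sub_cancel_right]
      ring
    have h3 := hK.dist_le_mul (c 0) (c' 0)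
    have h4 : dist (c 0) (c' 0) ≤ dist c c' := dist_le_pi_dist c c' 0
    have h5 : dist (r (q (σ (c 0)))) (r (q (σ (c' 0)))) ≤ K * dist c c' :=
      h3.trans (mul_le_mul_of_nonneg_left h4 K.2)
    have h6 : (1 / (r x₂ - r x₁)) * dist (r (q (σ (c 0)))) (r (q (σ (c' 0)))) ≤
        (1 / (r x₂ - r x₁)) * (K * dist c c') :=
      mul_le_mul_of_nonneg_left h5 (by positivity)
    calc _ ≤ _ := h1
      _ = _ := h2
      _ ≤ _ := h6
      _ = ((L * K : NNReal) : ℝ) * dist c c' := by rw [NNReal.coe_mul, hLval]; ring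

/-! ### Locally Euclidean points -/

/-- The map `ℝ^d → [0,1]^d` that is the identity on the cube and zero off the ball of radius 2. -/
noncomputable def rho {d : ℕ} (x : Fin d → ℝ) : Cube d := fun i =>
  Set.projIcc (0 : ℝ) 1 zero_le_one (x i) * Set.projIcc (0 : ℝ) 1 zero_le_one (2 - ‖x‖)

theorem rho_lip {d : ℕ} : LipschitzWith 2 (rho (d := d)) := by
  refine LipschitzWith.of_dist_le_mul fun x y => ?_
  rw [dist_pi_le_iff (by positivity)]
  intro i
  rw [Subtype.dist_eq, Real.dist_eq]
  simp only [rho, Icc.coe_mul]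
  set a : unitInterval := Set.projIcc (0 : ℝ) 1 zero_le_one (x i)
  set a' : unitInterval := Set.projIcc (0 : ℝ) 1 zero_le_one (y i)
  set b : unitInterval := Set.projIcc (0 : ℝ) 1 zero_le_one (2 - ‖x‖)
  set b' : unitInterval := Set.projIcc (0 : ℝ) 1 zero_le_one (2 - ‖y‖)
  have h1 : |(a : ℝ) - a'| ≤ dist x y := by
    have h := (LipschitzWith.projIcc (zero_le_one' ℝ)).dist_le_mul (x i) (y i)
    rw [Subtype.dist_eq, Real.dist_eq] at h
    have h' := dist_le_pi_dist x y i
    simp only [NNReal.coe_one, one_mul] at h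
    exact h.trans h'
  have h2 : |(b : ℝ) - b'| ≤ dist x y := by
    have h := (LipschitzWith.projIcc (zero_le_one' ℝ)).dist_le_mul (2 - ‖x‖) (2 - ‖y‖)
    rw [Subtype.dist_eq, Real.dist_eq] at h
    simp only [NNReal.coe_one, one_mul] at h
    have h' : dist (2 - ‖x‖) (2 - ‖y‖) ≤ dist x y := by
      rw [Real.dist_eq, sub_sub_sub_cancel_left, abs_sub_comm, dist_eq_norm]
      exact abs_norm_sub_norm_le x y
    exact h.trans h'
  have h3 : (a : ℝ) * b - a' * b' = (a - a') * b + a' * (b - b') := by ring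
  rw [h3]
  have hb : |(b : ℝ)| ≤ 1 := by rw [abs_of_nonneg b.2.1]; exact b.2.2
  have ha : |(a' : ℝ)| ≤ 1 := by rw [abs_of_nonneg a'.2.1]; exact a'.2.2
  have hd : 0 ≤ dist x y := dist_nonneg
  calc |((a : ℝ) - a') * b + a' * (b - b')| ≤ |((a : ℝ) - a') * b| + |(a' : ℝ) * (b - b')| :=
        abs_add_le _ _
    _ = |(a : ℝ) - a'| * |(b : ℝ)| + |(a' : ℝ)| * |(b : ℝ) - b'| := by rw [abs_mul, abs_mul]
    _ ≤ dist x y * 1 + 1 * dist x y := by
        gcongr
    _ = ((2 : NNReal) : ℝ) * dist x y := by push_cast; ring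

theorem rho_zero {d : ℕ} {x : Fin d → ℝ} (hx : 2 ≤ ‖x‖) : rho x = 0 := by
  funext i
  have : Set.projIcc (0 : ℝ) 1 zero_le_one (2 - ‖x‖) = 0 :=
    Set.projIcc_of_le_left _ (by linarith)
  simp only [rho]
  rw [this, mul_zero]
  rfl

theorem rho_cube {d : ℕ} (c : Cube d) : rho (fun i => (c i : ℝ)) = c := by
  funext i
  have hn : ‖(fun i => (c i : ℝ))‖ ≤ 1 := by
    rw [pi_norm_le_iff_of_nonneg zero_le_one]
    intro j
    rw [Real.norm_eq_abs, abs_of_nonneg (c j).2.1]
    exact (c j).2.2
  have h1 : Set.projIcc (0 : ℝ) 1 zero_le_one (2 - ‖(fun i => (c i : ℝ))‖) = 1 :=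
    Set.projIcc_of_right_le _ (by linarith)
  simp only [rho]
  rw [h1, mul_one]
  exact Set.projIcc_val zero_le_one (c i)

theorem locally_euclidean {X : Type*} [TopologicalSpace X] [T2Space X]
    (q : unitInterval → X) (hq : Continuous q) (hqs : Function.Surjective q)
    {d : ℕ} (hd : 0 < d) (j : (Fin d → ℝ) → X) (hj : IsOpenEmbedding j) :
    IsTopologicalIFSAttractor X := by
  classical
  set Kc : Set X := j '' Metric.closedBall 0 2 with hKc
  have hKclosed : IsClosed Kc :=
    ((isCompact_closedBall (0 : Fin d → ℝ) 2).image hj.continuous).isClosed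
  set W : Set X := j '' Metric.ball 0 3 with hW
  have hWopen : IsOpen W := hj.isOpenMap _ Metric.isOpen_ball
  have hKW : Kc ⊆ W := image_mono (Metric.closedBall_subset_ball (by norm_num))
  let r : X → Cube d := Function.extend j rho (fun _ => 0)
  have hrj : ∀ y, r (j y) = rho y := fun y => hj.injective.extend_apply _ _ _
  have hr0 : ∀ x, x ∉ Kc → r x = 0 := by
    intro x hx
    by_cases h : ∃ y, j y = x
    · obtain ⟨y, rfl⟩ := h
      rw [hrj]
      apply rho_zero
      by_contra hcon
      push Not at hcon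
      exact hx ⟨y, by simpa using hcon.le, rfl⟩
    · exact Function.extend_apply' _ _ _ h
  have hrc : Continuous r := by
    rw [continuous_iff_continuousAt]
    intro x
    by_cases hx : x ∈ Kc
    · obtain ⟨y, _, rfl⟩ := hx
      rw [← hj.continuousAt_iff]
      have : r ∘ j = rho := funext hrj
      rw [this]
      exact rho_lip.continuous.continuousAt
    · have h1 : r =ᶠ[𝓝 x] fun _ => 0 := by
        filter_upwards [hKclosed.isOpen_compl.mem_nhds hx] with z hz using hr0 z hz
      exact continuousAt_const.congr h1.symm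
  have hrs : Function.Surjective r := fun c => ⟨j fun i => (c i : ℝ), by rw [hrj, rho_cube]⟩
  -- the chart
  let aff : Cube d → (Fin d → ℝ) := fun c i => 6 * (c i : ℝ) - 3
  have haff : LipschitzWith 6 aff := by
    refine LipschitzWith.of_dist_le_mul fun c c' => ?_
    rw [dist_pi_le_iff (by positivity)]
    intro i
    have h1 : dist (aff c i) (aff c' i) = 6 * dist (c i) (c' i) := by
      rw [Subtype.dist_eq, Real.dist_eq, Real.dist_eq]
      simp only [aff]
      rw [sub_sub_sub_cancel_right, ← mul_sub, abs_mul]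
      norm_num
    rw [h1]
    exact mul_le_mul_of_nonneg_left (dist_le_pi_dist c c' i) (by norm_num)
  let g : Cube d → X := fun c => j (aff c)
  have hgc : Continuous g := hj.continuous.comp haff.continuous
  have hgW : ∀ x ∈ W, ∃ c, g c = x := by
    rintro _ ⟨y, hy, rfl⟩
    have hy' : ∀ i, |y i| < 3 := by
      intro i
      rw [mem_ball_zero_iff] at hy
      exact (norm_le_pi_norm y i).trans_lt hy
    refine ⟨fun i => ⟨(y i + 3) / 6, ?_, ?_⟩, ?_⟩
    · have := (abs_lt.1 (hy' i)).1; linarith
    · have := (abs_lt.1 (hy' i)).2; linarith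
    · simp only [g, aff]
      congr 1
      funext i
      ring
  have hgL : LipschitzWith 12 (r ∘ g) := by
    have h1 : r ∘ g = rho ∘ aff := funext fun c => hrj _
    rw [h1]
    have := rho_lip.comp haff
    have h2 : (2 * 6 : NNReal) = 12 := by norm_num
    rwa [h2] at this
  -- the path
  let Q : Cube d → X := fun c => q (c ⟨0, hd⟩)
  have hQc : Continuous Q := hq.comp (continuous_apply _)
  have hQs : Function.Surjective Q := by
    intro x
    obtain ⟨t, rfl⟩ := hqs x
    exact ⟨fun _ => t, rfl⟩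
  obtain ⟨δ, hδ, hleb⟩ := lebesgue_number_lemma_of_metric_sUnion (s := (univ : Set (Cube d)))
    (c := {Q ⁻¹' W, Q ⁻¹' Kcᶜ}) isCompact_univ
    (by
      intro t ht
      rcases ht with rfl | rfl
      · exact hWopen.preimage hQc
      · exact hKclosed.isOpen_compl.preimage hQc)
    (by
      intro c _
      by_cases h : Q c ∈ Kc
      · exact ⟨_, Or.inl rfl, hKW h⟩
      · exact ⟨_, Or.inr rfl, h⟩)
  obtain ⟨N, hN⟩ := exists_nat_gt (1 / δ)
  have hN0 : (0 : ℝ) < N := lt_trans (by positivity) hN
  have hN1 : 0 < N := by exact_mod_cast hN0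
  have hsmall : ∀ (k : Fin d → Fin N) (c c' : Cube d), dist (sub k c') (sub k c) < δ := by
    intro k c c'
    have h1 := sub_dist hN1 k c' c
    have h2 : dist c' c ≤ 1 := by
      rw [dist_pi_le_iff zero_le_one]
      intro i
      rw [Subtype.dist_eq, Real.dist_eq, abs_le]
      have := (c i).2.1; have := (c i).2.2; have := (c' i).2.1; have := (c' i).2.2
      constructor <;> linarith
    have h3 : (1 / (N : ℝ)) * dist c' c ≤ 1 / N := by
      calc (1 / (N : ℝ)) * dist c' c ≤ (1 / N) * 1 :=
            mul_le_mul_of_nonneg_left h2 (by positivity)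
        _ = 1 / N := mul_one _
    have h4 : 1 / (N : ℝ) < δ := by
      rw [div_lt_iff₀ hδ] at hN
      rw [div_lt_iff₀ hN0]
      linarith
    linarith
  let p : Option (Fin d → Fin N) → Cube d → X := fun o =>
    match o with
    | none => g
    | some k => if range (Q ∘ sub k) ⊆ Kcᶜ then Q ∘ sub k else g
  refine criterion r hrc hrs p ?_ ?_ 12 ?_
  · rintro (_ | k)
    · exact hgc
    · by_cases h : range (Q ∘ sub k) ⊆ Kcᶜ
      · simp only [p, if_pos h]; exact hQc.comp (sub_continuous k)
      · simp only [p, if_neg h]; exact hgc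
  · intro x
    obtain ⟨c, rfl⟩ := hQs x
    obtain ⟨k, c', rfl⟩ := sub_surj hN1 c
    by_cases h : range (Q ∘ sub k) ⊆ Kcᶜ
    · exact ⟨some k, c', by simp only [p, if_pos h]; rfl⟩
    · obtain ⟨t, ht, hball⟩ := hleb (sub k c') (mem_univ _)
      rcases ht with rfl | rfl
      · have hx : Q (sub k c') ∈ W := hball (Metric.mem_ball_self hδ)
        obtain ⟨c'', hc''⟩ := hgW _ hx
        exact ⟨none, c'', hc''⟩
      · exfalso
        apply h
        rintro _ ⟨c'', rfl⟩
        exact hball (hsmall k c' c'')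
  · rintro (_ | k)
    · exact hgL
    · by_cases h : range (Q ∘ sub k) ⊆ Kcᶜ
      · simp only [p, if_pos h]
        have h1 : r ∘ Q ∘ sub k = fun _ => 0 := by
          funext c
          exact hr0 _ (h ⟨c, rfl⟩)
        rw [h1]
        exact (LipschitzWith.const (0 : Cube d)).weaken zero_le
      · simp only [p, if_neg h]; exact hgL

end Pool.Agent.H764R3.TopFractal
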