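import Pool.Agent.H764R3.TopFractalLocal

/-!
# Peano continua with uncountably many local cut points are topological IFS-attractors
-/

open Set Topology Pool.Agent.H764R3.TopFractal Pool.Agent.H764R3.TopFractalFinal
  Pool.Agent.H764R3.TopFractalLocal

namespace Pool.Agent.H764R3.TopFractalCut

/-- `x` is a local cut point of `X`: some connected open neighbourhood `U` of `x` becomes
disconnected when `x` is removed. -/
def IsLocalCutPoint {X : Type*} [TopologicalSpace X] (x : X) : Prop :=
  ∃ U : Set X, IsOpen U ∧ IsConnected U ∧ x ∈ U ∧ ¬ IsPreconnected (U \ {x})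

/-- The two sides of a local cut point. -/
theorem sides {X : Type*} [TopologicalSpace X] [T1Space X] {x : X} {U : Set X} (hU : IsOpen U)
    (hUc : IsConnected U) (hn : ¬ IsPreconnected (U \ {x})) :
    ∃ A B : Set X, IsOpen A ∧ IsOpen B ∧ Disjoint A B ∧ A ∪ B = U \ {x} ∧ x ∈ closure A ∧
      x ∈ closure B := by
  have hUx : IsOpen (U \ {x}) := hU.sdiff isClosed_singleton
  rw [IsPreconnected] at hn
  push Not at hn
  obtain ⟨A, B, hA, hB, hAB, hAne, hBne, hem⟩ := hn
  have hem' : U \ {x} ∩ (A ∩ B) = ∅ := by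
    simpa using hem
  have hdisj : Disjoint (U \ {x} ∩ A) (U \ {x} ∩ B) := by
    rw [Set.disjoint_left]
    intro z hz hz'
    have : z ∈ U \ {x} ∩ (A ∩ B) := ⟨hz.1, hz.2, hz'.2⟩
    rw [hem'] at this
    exact this
  have hun : (U \ {x} ∩ A) ∪ (U \ {x} ∩ B) = U \ {x} := by
    rw [← inter_union_distrib_left]
    exact inter_eq_left.2 hAB
  have key : ∀ C D : Set X, IsOpen C → IsOpen D → Disjoint C D → C ∪ D = U \ {x} → C.Nonempty →
      D.Nonempty → x ∈ closure C := by
    intro C D hC hD hCD hCDU hCne hDne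
    by_contra hcon
    have hO : IsOpen ((closure C)ᶜ ∩ (D ∪ {x})) := by
      have h1 : (closure C)ᶜ ∩ (D ∪ {x}) = (closure C)ᶜ ∩ U := by
        ext z
        constructor
        · rintro ⟨h1, h2 | h2⟩
          · have : z ∈ U \ {x} := by rw [← hCDU]; exact Or.inr h2
            exact ⟨h1, this.1⟩
          · refine ⟨h1, ?_⟩
            rw [mem_singleton_iff.1 h2]
            by_contra hxU
            -- if `x` is not in `U` then `U = C ∪ D` is disconnected
            have hUeq : U \ {x} = U := by
              ext w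
              constructor
              · exact fun h => h.1
              · exact fun h => ⟨h, fun h' => hxU (mem_singleton_iff.1 h' ▸ h)⟩
            rw [hUeq] at hCDU
            have h3 := hUc.isPreconnected C D hC hD hCDU.ge
              (by obtain ⟨w, hw⟩ := hCne; exact ⟨w, by rw [← hCDU]; exact Or.inl hw, hw⟩)
              (by obtain ⟨w, hw⟩ := hDne; exact ⟨w, by rw [← hCDU]; exact Or.inr hw, hw⟩)
            obtain ⟨w, _, hw1, hw2⟩ := h3
            exact Set.disjoint_left.1 hCD hw1 hw2
        · rintro ⟨h1, h2⟩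
          refine ⟨h1, ?_⟩
          by_cases hzx : z = x
          · exact Or.inr hzx
          · have : z ∈ U \ {x} := ⟨h2, hzx⟩
            rw [← hCDU] at this
            rcases this with h3 | h3
            · exact absurd (subset_closure h3) h1
            · exact Or.inl h3
      rw [h1]
      exact isClosed_closure.isOpen_compl.inter hU
    have h3 := hUc.isPreconnected C ((closure C)ᶜ ∩ (D ∪ {x})) hC hO
      (by
        intro z hz
        by_cases hzx : z = x
        · right
          exact ⟨hzx ▸ hcon, Or.inr hzx⟩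
        · have : z ∈ U \ {x} := ⟨hz, hzx⟩
          rw [← hCDU] at this
          rcases this with h3 | h3
          · exact Or.inl h3
          · right
            refine ⟨?_, Or.inl h3⟩
            intro hzc
            obtain ⟨w, hw1, hw2⟩ := mem_closure_iff.1 hzc D hD h3
            exact Set.disjoint_left.1 hCD hw2 hw1)
      (by
        obtain ⟨w, hw⟩ := hCne
        have : w ∈ U \ {x} := by rw [← hCDU]; exact Or.inl hw
        exact ⟨w, this.1, hw⟩)
      (by
        obtain ⟨w, hw⟩ := hDne
        have : w ∈ U \ {x} := by rw [← hCDU]; exact Or.inr hw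
        refine ⟨w, this.1, ?_, Or.inl hw⟩
        intro hzc
        obtain ⟨v, hv1, hv2⟩ := mem_closure_iff.1 hzc D hD hw
        exact Set.disjoint_left.1 hCD hv2 hv1)
    obtain ⟨w, _, hw1, hw2, _⟩ := h3
    exact hw2 (subset_closure hw1)
  refine ⟨U \ {x} ∩ A, U \ {x} ∩ B, hUx.inter hA, hUx.inter hB, hdisj, hun, ?_, ?_⟩
  · exact key _ _ (hUx.inter hA) (hUx.inter hB) hdisj hun hAne hBne
  · exact key _ _ (hUx.inter hB) (hUx.inter hA) hdisj.symm (by rw [union_comm]; exact hun) hBne hAne

theorem attractor_of_local_cut_points {X : Type*} [TopologicalSpace X]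
    [TopologicalSpace.MetrizableSpace X] (q₀ : unitInterval → X) (hq₀ : Continuous q₀)
    (hs : Function.Surjective q₀) (h : ¬ {x : X | IsLocalCutPoint x}.Countable) :
    IsTopologicalIFSAttractor X := by
  classical
  have := locallyPathConnected_unitInterval
  have hcomp : CompactSpace X := ⟨by rw [← hs.range_eq]; exact isCompact_range hq₀⟩
  have hconn : ConnectedSpace X := hs.connectedSpace hq₀
  have hlpc : LocallyPathConnectedSpace X :=
    (hq₀.isClosedMap.isQuotientMap hq₀ hs).locallyPathConnectedSpace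
  have hsc : SecondCountableTopology X := by
    let _ : MetricSpace X := TopologicalSpace.metrizableSpaceMetric X
    infer_instance
  let u : ℕ → X := TopologicalSpace.denseSeq X
  have hu : ∀ O : Set X, IsOpen O → O.Nonempty → ∃ n, u n ∈ O := fun O hO hne =>
    (TopologicalSpace.denseRange_denseSeq X).exists_mem_open hO hne
  let 𝔅 : Set (Set X) := TopologicalSpace.countableBasis X
  have h𝔅 : TopologicalSpace.IsTopologicalBasis 𝔅 := TopologicalSpace.isBasis_countableBasis X
  have h𝔅c : 𝔅.Countable := TopologicalSpace.countable_countableBasis X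
  let Ev : Set X → ℕ → ℕ → ℕ → Set X := fun V n i j =>
    {e | e ∈ pathComponentIn V (u n) ∧ ¬ JoinedIn (pathComponentIn V (u n) \ {e}) (u i) (u j)}
  by_cases hall : ∀ V ∈ 𝔅, ∀ n i j, u i ∈ pathComponentIn V (u n) → u j ∈ pathComponentIn V (u n) →
      (Ev V n i j).Countable
  · exfalso
    apply h
    have hsub : {x : X | IsLocalCutPoint x} ⊆ ⋃ V ∈ 𝔅, ⋃ n : ℕ, ⋃ i : ℕ, ⋃ j : ℕ,
        {e | (u i ∈ pathComponentIn V (u n) ∧ u j ∈ pathComponentIn V (u n)) ∧ e ∈ Ev V n i j} := by
      rintro x ⟨U, hU, hUc, hxU, hn⟩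
      obtain ⟨A, B, hA, hB, hAB, hABU, hxA, hxB⟩ := sides hU hUc hn
      obtain ⟨V, hV, hxV, hVU⟩ := h𝔅.exists_subset_of_mem_open hxU hU
      have hVo : IsOpen V := h𝔅.isOpen hV
      obtain ⟨n, hn⟩ := hu (pathComponentIn V x) (hVo.pathComponentIn x)
        ⟨x, mem_pathComponentIn_self hxV⟩
      have hWeq : pathComponentIn V (u n) = pathComponentIn V x := pathComponentIn_congr hn
      have hxW : x ∈ pathComponentIn V (u n) := by rw [hWeq]; exact mem_pathComponentIn_self hxV
      have hWo : IsOpen (pathComponentIn V (u n)) := hVo.pathComponentIn _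
      obtain ⟨i, hi⟩ := hu (pathComponentIn V (u n) ∩ A) (hWo.inter hA)
        (mem_closure_iff.1 hxA _ hWo hxW)
      obtain ⟨j, hj⟩ := hu (pathComponentIn V (u n) ∩ B) (hWo.inter hB)
        (mem_closure_iff.1 hxB _ hWo hxW)
      refine mem_iUnion₂.2 ⟨V, hV, mem_iUnion.2 ⟨n, mem_iUnion.2 ⟨i, mem_iUnion.2 ⟨j, ?_⟩⟩⟩⟩
      refine ⟨⟨hi.1, hj.1⟩, hxW, ?_⟩
      rintro ⟨γ, hγ⟩
      have hconnγ : IsPreconnected (range γ) := isPreconnected_range γ.continuous
      have hrangeγ : range γ ⊆ A ∪ B := by
        rintro _ ⟨t, rfl⟩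
        rw [hABU]
        exact ⟨hVU (pathComponentIn_subset (hγ t).1), (hγ t).2⟩
      have h1 : range γ ⊆ A := hconnγ.subset_left_of_subset_union hA hB hAB hrangeγ
        ⟨u i, ⟨0, γ.source⟩, hi.2⟩
      exact Set.disjoint_left.1 hAB (h1 ⟨1, γ.target⟩) hj.2
    refine Set.Countable.mono hsub ?_
    refine h𝔅c.biUnion fun V hV => countable_iUnion fun n => countable_iUnion fun i =>
      countable_iUnion fun j => ?_
    by_cases hij : u i ∈ pathComponentIn V (u n) ∧ u j ∈ pathComponentIn V (u n)
    · exact (hall V hV n i j hij.1 hij.2).mono fun e he => he.2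
    · have : {e | (u i ∈ pathComponentIn V (u n) ∧ u j ∈ pathComponentIn V (u n)) ∧
          e ∈ Ev V n i j} = ∅ := by
        ext e
        simp only [mem_ofPred_eq, mem_empty_iff_false, iff_false]
        exact fun he => hij he.1
      rw [this]
      exact countable_empty
  · push Not at hall
    obtain ⟨V, hV, n, i, j, hi, hj, hunc⟩ := hall
    have hVo : IsOpen V := h𝔅.isOpen hV
    have hnV : u n ∈ V := by
      have : JoinedIn V (u n) (u i) := hi
      exact this.source_mem
    exact local_theorem q₀ hq₀ hs (pathComponentIn V (u n)) (hVo.pathComponentIn _)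
      (isPathConnected_pathComponentIn hnV) (u i) (u j) hi hj hunc

end Pool.Agent.H764R3.TopFractalCut
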