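import Pool.Agent.H764R3.TopFractalCut

/-!
# Dendrites are topological IFS-attractors
-/

open Set Topology Pool.Agent.H764R3.TopFractal Pool.Agent.H764R3.TopFractalSep
  Pool.Agent.H764R3.TopFractalFinal

namespace Pool.Agent.H764R3.TopFractalDendrite

/-- Any two distinct points `a, b` of `X` are separated by a third point `c`: the complement of
`c` is the union of two disjoint open sets, one containing `a` and the other `b`. -/
def SeparatedByThirdPoint (X : Type*) [TopologicalSpace X] : Prop :=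
  ∀ a b : X, a ≠ b → ∃ c, c ≠ a ∧ c ≠ b ∧ ∃ A B : Set X, IsOpen A ∧ IsOpen B ∧ Disjoint A B ∧
    A ∪ B = {c}ᶜ ∧ a ∈ A ∧ b ∈ B

theorem not_joined {X : Type*} [TopologicalSpace X] {a b c : X} {A B : Set X} (hA : IsOpen A)
    (hB : IsOpen B) (hAB : Disjoint A B) (hc : A ∪ B = {c}ᶜ) (ha : a ∈ A) (hb : b ∈ B) :
    ¬ JoinedIn ({c}ᶜ) a b := by
  rintro ⟨γ, hγ⟩
  have h1 : range γ ⊆ A := by
    refine (isPreconnected_range γ.continuous).subset_left_of_subset_union hA hB hAB ?_
      ⟨a, ⟨0, γ.source⟩, ha⟩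
    rintro _ ⟨t, rfl⟩
    rw [hc]; exact hγ t
  exact Set.disjoint_left.1 hAB (h1 ⟨1, γ.target⟩) hb

theorem sepa_uncountable {X : Type*} [TopologicalSpace X] [TopologicalSpace.MetrizableSpace X]
    [CompactSpace X] [PathConnectedSpace X] (h3 : SeparatedByThirdPoint X) {a b : X} (hab : a ≠ b) :
    ¬ (Sepa a b).Countable := by
  classical
  have hself : ∀ x : X, ∀ y : X, y ∈ Sepa x y := fun x y hj => hj.target_mem rfl
  have haE : a ∈ Sepa a b := fun hj => hj.source_mem rfl
  have hbE : b ∈ Sepa a b := hself a b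
  have hperf : Perfect (Sepa a b) := by
    refine ⟨isClosed_sepa a b, ?_⟩
    intro y hy
    rw [accPt_iff_nhds]
    intro O hO
    obtain ⟨V, hVO, hV, hyV⟩ := mem_nhds_iff.1 hO
    -- a second point of `Sepa a b`
    obtain ⟨z, hz, hzy⟩ : ∃ z ∈ Sepa a b, z ≠ y := by
      by_cases hya : a = y
      · exact ⟨b, hbE, fun h => hab (hya.trans h.symm)⟩
      · exact ⟨a, haE, hya⟩
    by_cases hzV : z ∈ V
    · exact ⟨z, ⟨hVO hzV, hz⟩, hzy⟩
    let γ : Path y z := PathConnectedSpace.somePath y z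
    let T : Set unitInterval := {t | γ t ∈ Sepa y z ∧ γ t ∉ V}
    have hTc : IsCompact T := by
      have h1 : IsClosed T := ((isClosed_sepa y z).inter hV.isClosed_compl).preimage γ.continuous
      exact h1.isCompact
    have hTne : T.Nonempty := ⟨1, by
      change γ 1 ∈ Sepa y z ∧ γ 1 ∉ V
      rw [γ.target]; exact ⟨hself y z, hzV⟩⟩
    obtain ⟨t₀, ht₀, hmin⟩ := hTc.exists_isMinOn hTne continuous_id.continuousOn
    obtain ⟨e₀, he₀⟩ : ∃ e₀, e₀ = γ t₀ := ⟨_, rfl⟩
    have ht₀S : e₀ ∈ Sepa y z := by rw [he₀]; exact ht₀.1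
    have ht₀V : e₀ ∉ V := by rw [he₀]; exact ht₀.2
    have he₀y : y ≠ e₀ := by
      intro h
      exact ht₀V (h ▸ hyV)
    obtain ⟨e₁, he₁y, he₁0, A, B, hA, hB, hAB, hc, hyA, heB⟩ := h3 y e₀ he₀y
    have hnj : ¬ JoinedIn ({e₁}ᶜ) y e₀ := not_joined hA hB hAB hc hyA heB
    let δ : Path y e₀ :=
      { toFun := fun s => γ (s * t₀)
        continuous_toFun := γ.continuous.comp (continuous_id.mul continuous_const)
        source' := by
          change γ (0 * t₀) = y
          rw [zero_mul, γ.source]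
        target' := by
          change γ (1 * t₀) = e₀
          rw [one_mul, he₀] }
    obtain ⟨s, hs⟩ : e₁ ∈ range δ := by
      by_contra hcon
      exact hnj ⟨δ, fun t ht => hcon ⟨t, ht⟩⟩
    have hs' : γ (s * t₀) = e₁ := hs
    have hst : s * t₀ ≤ t₀ := by
      have h1 : ((s * t₀ : unitInterval) : ℝ) ≤ t₀ := by
        rw [Icc.coe_mul]
        have := mul_le_mul_of_nonneg_right s.2.2 t₀.2.1
        linarith
      exact h1
    have hne : s * t₀ ≠ t₀ := by
      intro h
      apply he₁0
      rw [← hs', h, he₀]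
    have he₁s : e₁ ∈ Sepa y z := fun hj => hnj (joined_of_sepa hj ht₀S)
    have he₁V : e₁ ∈ V := by
      by_contra hcon
      have h1 : s * t₀ ∈ T := by
        change γ (s * t₀) ∈ Sepa y z ∧ γ (s * t₀) ∉ V
        rw [hs']; exact ⟨he₁s, hcon⟩
      exact hne (le_antisymm hst (hmin h1))
    have he₁E : e₁ ∈ Sepa a b := by
      rintro ⟨γ', hγ'⟩
      have hyr : y ∈ range γ' := by
        by_contra hcon
        exact hy ⟨γ', fun t ht => hcon ⟨t, ht⟩⟩
      have hzr : z ∈ range γ' := by
        by_contra hcon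
        exact hz ⟨γ', fun t ht => hcon ⟨t, ht⟩⟩
      have := pathConnected_unitInterval
      have h1 := (isPathConnected_range γ'.continuous).joinedIn y hyr z hzr
      apply he₁s
      refine h1.mono ?_
      rintro _ ⟨t, rfl⟩
      exact hγ' t
    exact ⟨e₁, ⟨hVO he₁V, he₁E⟩, he₁y⟩
  intro hcount
  let _ : MetricSpace X := TopologicalSpace.metrizableSpaceMetric X
  obtain ⟨f, hf, -, hfi⟩ := hperf.exists_nat_bool_injection ⟨a, haE⟩
  have h1 : (range f).Countable := hcount.mono hf
  have h1' : Countable (range f) := h1.to_subtype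
  have h2 : Countable (ℕ → Bool) :=
    Function.Injective.countable (f := rangeFactorization f) (rangeFactorization_injective.2 hfi)
  have h4 : Cardinal.mk (ℕ → Bool) ≤ Cardinal.aleph0 := Cardinal.mk_le_aleph0_iff.2 h2
  have h5 : Cardinal.mk (ℕ → Bool) = Cardinal.continuum := by
    clear h4 h2
    simp
  rw [h5] at h4
  exact absurd h4 (not_le.2 Cardinal.aleph0_lt_continuum)

theorem attractor_of_dendrite {X : Type*} [TopologicalSpace X]
    [TopologicalSpace.MetrizableSpace X] [Nontrivial X] (q₀ : unitInterval → X)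
    (hq₀ : Continuous q₀) (hs : Function.Surjective q₀) (h3 : SeparatedByThirdPoint X) :
    IsTopologicalIFSAttractor X := by
  have := pathConnected_unitInterval
  have hX : PathConnectedSpace X := hs.pathConnectedSpace hq₀
  have hcomp : CompactSpace X := ⟨by rw [← hs.range_eq]; exact isCompact_range hq₀⟩
  obtain ⟨a, b, hab⟩ := exists_pair_ne X
  exact attractor_of_sepa q₀ hq₀ hs a b (sepa_uncountable h3 hab)

end Pool.Agent.H764R3.TopFractalDendrite
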