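import Pool.Agent.H764R3.TopFractalMono

/-!
# Peano continua with uncountably many separating points
-/

open Set Topology Pool.Agent.H764R3.TopFractal Pool.Agent.H764R3.TopFractalSep
  Pool.Agent.H764R3.TopFractalMono

namespace Pool.Agent.H764R3.TopFractalFinal

theorem locallyPathConnected_unitInterval : LocallyPathConnectedSpace unitInterval :=
  (isQuotientMap_projIcc (h := zero_le_one' ℝ)).locallyPathConnectedSpace

/-- A surjective path with prescribed end points. -/
theorem exists_path {X : Type*} [TopologicalSpace X] (q₀ : unitInterval → X) (hq₀ : Continuous q₀)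
    (hs : Function.Surjective q₀) (a b : X) : ∃ p : Path a b, Function.Surjective p := by
  have := pathConnected_unitInterval
  have hX : PathConnectedSpace X := hs.pathConnectedSpace hq₀
  let P : Path (q₀ 0) (q₀ 1) := ⟨⟨q₀, hq₀⟩, rfl, rfl⟩
  let γ₁ : Path a (q₀ 0) := PathConnectedSpace.somePath _ _
  let γ₂ : Path (q₀ 1) b := PathConnectedSpace.somePath _ _
  refine ⟨γ₁.trans (P.trans γ₂), ?_⟩
  intro x
  obtain ⟨t, ht⟩ := hs x
  have h1 : x ∈ range (γ₁.trans (P.trans γ₂)) := by
    rw [Path.trans_range, Path.trans_range]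
    exact Or.inr (Or.inl ⟨t, ht⟩)
  exact h1

theorem bv_of_monotone {f : unitInterval → ℝ} (hf : Monotone f) : BoundedVariationOn f univ := by
  have h1 := (hf.monotoneOn univ).eVariationOn_eq (mem_univ 0) (mem_univ 1)
  have h2 : (univ : Set unitInterval) ∩ Icc 0 1 = univ := by
    ext x
    simp only [univ_inter, mem_Icc, mem_univ, iff_true]
    exact ⟨x.2.1, x.2.2⟩
  rw [h2] at h1
  rw [BoundedVariationOn, h1]
  exact ENNReal.ofReal_ne_top

theorem attractor_of_sepa {X : Type*} [TopologicalSpace X] [TopologicalSpace.MetrizableSpace X]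
    (q₀ : unitInterval → X) (hq₀ : Continuous q₀) (hs : Function.Surjective q₀) (a b : X)
    (h : ¬ (Sepa a b).Countable) : IsTopologicalIFSAttractor X := by
  have := locallyPathConnected_unitInterval
  have hcomp : CompactSpace X := ⟨by rw [← hs.range_eq]; exact isCompact_range hq₀⟩
  have hconn : ConnectedSpace X := hs.connectedSpace hq₀
  have hlpc : LocallyPathConnectedSpace X :=
    (hq₀.isClosedMap.isQuotientMap hq₀ hs).locallyPathConnectedSpace
  have hpolish : PolishSpace X := by
    let _ : MetricSpace X := TopologicalSpace.metrizableSpaceMetric X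
    infer_instance
  obtain ⟨r, hr, ha, hb, h01, hlu⟩ := exists_function a b h
  obtain ⟨p, hp⟩ := exists_path q₀ hq₀ hs a b
  obtain ⟨q, hq, hqs, hmono⟩ := monotone_path p hp r hr ha hb h01 (fun t => (hlu t).1)
    (fun t => (hlu t).2)
  exact bounded_variation q hq hqs r hr ⟨a, b, by rw [ha, hb]; norm_num⟩ (bv_of_monotone hmono)

end Pool.Agent.H764R3.TopFractalFinal
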