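import Pool.Agent.H764R3.TopFractalFinal

/-!
# Peano continua with uncountably many local cut points
-/

open Set Topology Pool.Agent.H764R3.TopFractal Pool.Agent.H764R3.TopFractalSep
  Pool.Agent.H764R3.TopFractalMono Pool.Agent.H764R3.TopFractalFinal

namespace Pool.Agent.H764R3.TopFractalLocal

theorem glue {X : Type*} [TopologicalSpace X] {d : ℕ}
    (r : X → Cube d) (hrc : Continuous r) (hrs : Function.Surjective r)
    (Q : Cube d → X) (hQc : Continuous Q) (hQs : Function.Surjective Q)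
    (Kc W : Set X) (hKclosed : IsClosed Kc) (hWopen : IsOpen W) (hKW : Kc ⊆ W)
    (hr0 : ∀ x, x ∉ Kc → r x = 0)
    (g : Cube d → X) (hgc : Continuous g) (hgW : ∀ x ∈ W, ∃ c, g c = x) (L : NNReal)
    (hgL : LipschitzWith L (r ∘ g)) : IsTopologicalIFSAttractor X := by
  classical
  obtain ⟨δ, hδ, hleb⟩ := lebesgue_number_lemma_of_metric_sUnion (s := (univ : Set (Cube d)))
    (c := {Q ⁻¹' W, Q ⁻¹' Kcᶜ}) isCompact_univ
    (by
      intro t ht
      rcases ht with rfl | rfl
      · exact hWopen.preimage hQc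
      · exact hKclosed.isOpen_compl.preimage hQc)
    (by
      intro c _
      by_cases h : Q c ∈ Kc
      · exact ⟨_, Or.inl rfl, hKW h⟩
      · exact ⟨_, Or.inr rfl, h⟩)
  obtain ⟨N, hN⟩ := exists_nat_gt (1 / δ)
  have hN0 : (0 : ℝ) < N := lt_trans (by positivity) hN
  have hN1 : 0 < N := by exact_mod_cast hN0
  have hsmall : ∀ (k : Fin d → Fin N) (c c' : Cube d), dist (sub k c') (sub k c) < δ := by
    intro k c c'
    have h1 := sub_dist hN1 k c' c
    have h2 : dist c' c ≤ 1 := by
      rw [dist_pi_le_iff zero_le_one]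
      intro i
      rw [Subtype.dist_eq, Real.dist_eq, abs_le]
      have := (c i).2.1; have := (c i).2.2; have := (c' i).2.1; have := (c' i).2.2
      constructor <;> linarith
    have h3 : (1 / (N : ℝ)) * dist c' c ≤ 1 / N := by
      calc (1 / (N : ℝ)) * dist c' c ≤ (1 / N) * 1 :=
            mul_le_mul_of_nonneg_left h2 (by positivity)
        _ = 1 / N := mul_one _
    have h4 : 1 / (N : ℝ) < δ := by
      rw [div_lt_iff₀ hδ] at hN
      rw [div_lt_iff₀ hN0]
      linarith
    linarith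
  let p : Option (Fin d → Fin N) → Cube d → X := fun o =>
    match o with
    | none => g
    | some k => if range (Q ∘ sub k) ⊆ Kcᶜ then Q ∘ sub k else g
  refine criterion r hrc hrs p ?_ ?_ L ?_
  · rintro (_ | k)
    · exact hgc
    · by_cases h : range (Q ∘ sub k) ⊆ Kcᶜ
      · simp only [p, if_pos h]; exact hQc.comp (sub_continuous k)
      · simp only [p, if_neg h]; exact hgc
  · intro x
    obtain ⟨c, rfl⟩ := hQs x
    obtain ⟨k, c', rfl⟩ := sub_surj hN1 c
    by_cases h : range (Q ∘ sub k) ⊆ Kcᶜ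
    · exact ⟨some k, c', by simp only [p, if_pos h]; rfl⟩
    · obtain ⟨t, ht, hball⟩ := hleb (sub k c') (mem_univ _)
      rcases ht with rfl | rfl
      · have hx : Q (sub k c') ∈ W := hball (Metric.mem_ball_self hδ)
        obtain ⟨c'', hc''⟩ := hgW _ hx
        exact ⟨none, c'', hc''⟩
      · exfalso
        apply h
        rintro _ ⟨c'', rfl⟩
        exact hball (hsmall k c' c'')
  · rintro (_ | k)
    · exact hgL
    · by_cases h : range (Q ∘ sub k) ⊆ Kcᶜ
      · simp only [p, if_pos h]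
        have h1 : r ∘ Q ∘ sub k = fun _ => 0 := by
          funext c
          exact hr0 _ (h ⟨c, rfl⟩)
        rw [h1]
        exact (LipschitzWith.const (0 : Cube d)).weaken zero_le
      · simp only [p, if_neg h]; exact hgL

section Ends

variable {Y : Type*} [TopologicalSpace Y]

theorem exists_ends [ConnectedSpace Y] (r : Y → ℝ) (hr : Continuous r) (a b : Y) (ha : r a = 0)
    (hb : r b = 1)
    (hlow : ∀ t, (closure {x | r x < t} ∩ {x | r x = t}).Subsingleton)
    (hup : ∀ t, (closure {x | t < r x} ∩ {x | r x = t}).Subsingleton) :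
    ∃ em ep : ℝ → Y, (∀ t y, y ∈ closure {x | r x < t} → r y = t → y = em t) ∧
      (∀ t y, y ∈ closure {x | t < r x} → r y = t → y = ep t) ∧
      (∀ t, (∃ x, r x < t) → t ≤ 1 → r (em t) = t) ∧
      (∀ t, (∃ x, t < r x) → 0 ≤ t → r (ep t) = t) := by
  classical
  have hrn : Continuous fun x => - r x := hr.neg
  have hset : ∀ t : ℝ, {x | - r x < - t} = {x | t < r x} := fun t => by
    ext x; simp
  have exists_up : ∀ t : ℝ, (∃ x, t < r x) → (∃ x, r x ≤ t) →
      ∃ y ∈ closure {x | t < r x}, r y = t := by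
    intro t h1 h2
    obtain ⟨y, hy, hyt⟩ := exists_low (r := fun x => - r x) (t := - t) hrn
      (by obtain ⟨x, hx⟩ := h1; exact ⟨x, by simpa using hx⟩)
      (by obtain ⟨x, hx⟩ := h2; exact ⟨x, by simpa using hx⟩)
    rw [hset] at hy
    exact ⟨y, hy, by linarith⟩
  let em : ℝ → Y := fun t => if h : ∃ y ∈ closure {x | r x < t}, r y = t then h.choose else a
  let ep : ℝ → Y := fun t => if h : ∃ y ∈ closure {x | t < r x}, r y = t then h.choose else b
  have hem : ∀ t y, y ∈ closure {x | r x < t} → r y = t → y = em t := by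
    intro t y hy hyt
    have h : ∃ y ∈ closure {x | r x < t}, r y = t := ⟨y, hy, hyt⟩
    have h' : em t = h.choose := dif_pos h
    rw [h']
    exact hlow t ⟨hy, hyt⟩ h.choose_spec
  have hep : ∀ t y, y ∈ closure {x | t < r x} → r y = t → y = ep t := by
    intro t y hy hyt
    have h : ∃ y ∈ closure {x | t < r x}, r y = t := ⟨y, hy, hyt⟩
    have h' : ep t = h.choose := dif_pos h
    rw [h']
    exact hup t ⟨hy, hyt⟩ h.choose_spec
  refine ⟨em, ep, hem, hep, ?_, ?_⟩
  · intro t h1 h2
    obtain ⟨y, hy, hyt⟩ := exists_low hr h1 ⟨b, by rw [hb]; exact h2⟩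
    rw [← hem t y hy hyt]; exact hyt
  · intro t h1 h2
    obtain ⟨y, hy, hyt⟩ := exists_up t h1 ⟨a, by rw [ha]; exact h2⟩
    rw [← hep t y hy hyt]; exact hyt

open Classical in
/-- Collapse what is below `t₁` to `c₁` and what is above `t₂` to `c₂`. -/
noncomputable def clamp (r : Y → ℝ) (c₁ c₂ : Y) (t₁ t₂ : ℝ) (x : Y) : Y :=
  if r x < t₁ then c₁ else if t₂ < r x then c₂ else x

theorem clamp_continuous {r : Y → ℝ} {c₁ c₂ : Y} {t₁ t₂ : ℝ} (h12 : t₁ < t₂) (hr : Continuous r)
    (h1 : ∀ y, y ∈ closure {x | r x < t₁} → r y = t₁ → y = c₁)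
    (h2 : ∀ y, y ∈ closure {x | t₂ < r x} → r y = t₂ → y = c₂) :
    Continuous (clamp r c₁ c₂ t₁ t₂) := by
  have hle : closure {x | r x < t₁} ⊆ {x | r x ≤ t₁} :=
    closure_minimal (fun x (hx : r x < t₁) => (le_of_lt hx : r x ≤ t₁))
      (isClosed_le hr continuous_const)
  have hge : closure {x | t₂ < r x} ⊆ {x | t₂ ≤ r x} :=
    closure_minimal (fun x (hx : t₂ < r x) => (le_of_lt hx : t₂ ≤ r x))
      (isClosed_le continuous_const hr)
  rw [continuous_iff_continuousAt]
  intro x
  by_cases hx1 : r x < t₁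
  · have : clamp r c₁ c₂ t₁ t₂ =ᶠ[𝓝 x] fun _ => c₁ := by
      filter_upwards [(isOpen_lt hr continuous_const).mem_nhds hx1] with z hz
      exact if_pos hz
    exact continuousAt_const.congr this.symm
  by_cases hx2 : t₂ < r x
  · have : clamp r c₁ c₂ t₁ t₂ =ᶠ[𝓝 x] fun _ => c₂ := by
      filter_upwards [(isOpen_lt continuous_const hr).mem_nhds hx2] with z hz
      have hz' : t₂ < r z := hz
      rw [clamp, if_neg (by linarith), if_pos hz']
    exact continuousAt_const.congr this.symm
  have hx : clamp r c₁ c₂ t₁ t₂ x = x := by rw [clamp, if_neg hx1, if_neg hx2]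
  rw [ContinuousAt, hx]
  intro V hV
  have hA : ∀ᶠ z in 𝓝 x, r z < t₁ → c₁ ∈ V := by
    by_cases hxc : x ∈ closure {x | r x < t₁}
    · have := h1 x hxc (le_antisymm (hle hxc) (not_lt.1 hx1))
      exact Filter.Eventually.of_forall fun z _ => this ▸ mem_of_mem_nhds hV
    · filter_upwards [isClosed_closure.isOpen_compl.mem_nhds hxc] with z hz hzt
      have hz' : z ∈ closure {x | r x < t₁} := subset_closure hzt
      exact absurd hz' hz
  have hB : ∀ᶠ z in 𝓝 x, t₂ < r z → c₂ ∈ V := by
    by_cases hxc : x ∈ closure {x | t₂ < r x}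
    · have := h2 x hxc (le_antisymm (not_lt.1 hx2) (hge hxc))
      exact Filter.Eventually.of_forall fun z _ => this ▸ mem_of_mem_nhds hV
    · filter_upwards [isClosed_closure.isOpen_compl.mem_nhds hxc] with z hz hzt
      have hz' : z ∈ closure {x | t₂ < r x} := subset_closure hzt
      exact absurd hz' hz
  have hC : ∀ᶠ z in 𝓝 x, clamp r c₁ c₂ t₁ t₂ z ∈ V := by
    filter_upwards [hA, hB, hV] with z h1 h2 h3
    by_cases hz1 : r z < t₁
    · rw [clamp, if_pos hz1]; exact h1 hz1
    by_cases hz2 : t₂ < r z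
    · rw [clamp, if_neg hz1, if_pos hz2]; exact h2 hz2
    · rw [clamp, if_neg hz1, if_neg hz2]; exact h3
  exact hC

end Ends

theorem local_theorem {X : Type*} [TopologicalSpace X] [TopologicalSpace.MetrizableSpace X]
    (q₀ : unitInterval → X) (hq₀ : Continuous q₀) (hs : Function.Surjective q₀)
    (U : Set X) (hU : IsOpen U) (hUp : IsPathConnected U) (a b : X) (haU : a ∈ U) (hbU : b ∈ U)
    (h : ¬ {e | e ∈ U ∧ ¬ JoinedIn (U \ {e}) a b}.Countable) : IsTopologicalIFSAttractor X := by
  classical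
  have := locallyPathConnected_unitInterval
  have hcomp : CompactSpace X := ⟨by rw [← hs.range_eq]; exact isCompact_range hq₀⟩
  have hconn : ConnectedSpace X := hs.connectedSpace hq₀
  have hlpc : LocallyPathConnectedSpace X :=
    (hq₀.isClosedMap.isQuotientMap hq₀ hs).locallyPathConnectedSpace
  have hpolish : PolishSpace X := by
    let _ : MetricSpace X := TopologicalSpace.metrizableSpaceMetric X
    infer_instance
  have hYpolish : PolishSpace U := hU.polishSpace
  have hYpc : PathConnectedSpace U := isPathConnected_iff_pathConnectedSpace.1 hUp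
  have hYlpc : LocallyPathConnectedSpace U := hU.locallyPathConnectedSpace
  let a' : U := ⟨a, haU⟩
  let b' : U := ⟨b, hbU⟩
  have hsep : ¬ (Sepa a' b').Countable := by
    intro hc
    apply h
    refine (hc.image Subtype.val).mono ?_
    rintro e ⟨heU, he⟩
    refine ⟨⟨e, heU⟩, ?_, rfl⟩
    intro hj
    apply he
    obtain ⟨γ, hγ⟩ := hj
    exact ⟨γ.map continuous_subtype_val, fun t => ⟨(γ t).2, fun ht => hγ t (Subtype.ext ht)⟩⟩
  obtain ⟨r, hr, hra, hrb, h01, hlu⟩ := exists_function a' b' hsep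
  obtain ⟨em, ep, hem, hep, hemr, hepr⟩ := exists_ends r hr a' b' hra hrb
    (fun t => (hlu t).1) (fun t => (hlu t).2)
  -- fibres are connected
  have hrange : ∀ t, 0 ≤ t → t ≤ 1 → range (retr r em ep t) = {z | r z = t} := by
    intro t ht0 ht1
    ext z
    constructor
    · rintro ⟨w, rfl⟩
      rcases lt_trichotomy (r w) t with h | h | h
      · change r (retr r em ep t w) = t
        rw [retr_of_lt h]; exact hemr t ⟨w, h⟩ ht1
      · change r (retr r em ep t w) = t
        rw [retr_of_eq h]; exact h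
      · change r (retr r em ep t w) = t
        rw [retr_of_gt h]; exact hepr t ⟨w, h⟩ ht0
    · intro hz
      exact ⟨z, retr_of_eq hz⟩
  have hpre : ∀ t, 0 ≤ t → t ≤ 1 → IsPreconnected {z | r z = t} := by
    intro t ht0 ht1
    rw [← hrange t ht0 ht1]
    exact isPreconnected_range (retr_continuous hr hem hep t)
  -- all but countably many fibres are points
  have hYne : Nonempty U := ⟨a'⟩
  let u : ℕ → U := TopologicalSpace.denseSeq U
  have hfib : ∀ t, 0 ≤ t → t ≤ 1 → t ∉ range (fun n => r (u n)) → {z | r z = t}.Subsingleton := by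
    intro t ht0 ht1 ht x hx y hy
    by_contra hxy
    apply ht
    set V : Set U := (closure {x | r x < t} ∪ closure {x | t < r x})ᶜ with hV
    have hVo : IsOpen V := (isClosed_closure.union isClosed_closure).isOpen_compl
    have hVr : ∀ z ∈ V, r z = t := by
      intro z hz
      by_contra hcon
      rcases lt_or_gt_of_ne hcon with h | h
      · have hz' : z ∈ closure {x | r x < t} := subset_closure h
        exact hz (Or.inl hz')
      · have hz' : z ∈ closure {x | t < r x} := subset_closure h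
        exact hz (Or.inr hz')
    have hVne : V.Nonempty := by
      by_contra hemp
      have hsub : {z | r z = t} ⊆ ({em t, ep t} : Set U) := by
        intro z hz
        have : z ∈ closure {x | r x < t} ∪ closure {x | t < r x} := by
          by_contra h
          exact hemp ⟨z, h⟩
        rcases this with h | h
        · exact Or.inl (hem t z h hz)
        · exact Or.inr (hep t z h hz)
      exact ((hpre t ht0 ht1).infinite_of_nontrivial ⟨x, hx, y, hy, hxy⟩)
        ((Set.toFinite ({em t, ep t} : Set U)).subset hsub)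
    obtain ⟨n, hn⟩ := (TopologicalSpace.denseRange_denseSeq U).exists_mem_open hVo hVne
    exact ⟨n, hVr _ hn⟩
  obtain ⟨t₀, ht₀, ht₀'⟩ : ∃ t₀, t₀ ∈ Ioo (0 : ℝ) 1 ∧ t₀ ∉ range (fun n => r (u n)) := by
    have hd : Dense (range (fun n => r (u n)))ᶜ := (countable_range _).dense_compl ℝ
    obtain ⟨t, ht1, ht2⟩ := hd.inter_open_nonempty (Ioo 0 1) isOpen_Ioo ⟨1 / 2, by norm_num⟩
    exact ⟨t, ht1, ht2⟩
  obtain ⟨c, hc⟩ : ∃ c, r c = t₀ := by
    have := hemr t₀ ⟨a', by rw [hra]; exact ht₀.1⟩ ht₀.2.le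
    exact ⟨_, this⟩
  have hcu : ∀ y, r y = t₀ → y = c := fun y hy =>
    hfib t₀ ht₀.1.le ht₀.2.le ht₀' hy hc
  -- a small neighbourhood
  obtain ⟨T, hT, hTc, hTU⟩ := exists_mem_nhds_isClosed_subset (hU.mem_nhds c.2)
  set V : Set X := interior T with hVdef
  have hVo : IsOpen V := isOpen_interior
  have hcV : (c : X) ∈ V := mem_interior_iff_mem_nhds.2 hT
  have hVcl : closure V ⊆ U := (closure_minimal interior_subset hTc).trans hTU
  set V' : Set U := Subtype.val ⁻¹' V with hV'
  have hV'o : IsOpen V' := hVo.preimage continuous_subtype_val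
  have hclc : IsCompact (Subtype.val ⁻¹' closure V : Set U) :=
    (Topology.IsInducing.subtypeVal.isCompact_preimage_iff (by simpa using hVcl)).2
      isClosed_closure.isCompact
  have hgap : ∀ C : Set U, IsCompact C → (∀ y ∈ C, r y ≠ t₀) → ∃ ε > 0, ∀ y ∈ C, ε ≤ |r y - t₀| := by
    intro C hC hne
    rcases C.eq_empty_or_nonempty with h | h
    · exact ⟨1, one_pos, fun y hy => by rw [h] at hy; exact absurd hy (notMem_empty _)⟩
    · obtain ⟨y₁, hy₁, hmin⟩ := hC.exists_isMinOn h
        ((hr.sub continuous_const).abs.continuousOn (f := fun y => |r y - t₀|))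
      exact ⟨|r y₁ - t₀|, abs_pos.2 (sub_ne_zero.2 (hne y₁ hy₁)), fun y hy => hmin hy⟩
  obtain ⟨ε₁, hε₁, hε₁'⟩ := hgap _ (hclc.diff hV'o) (by
    intro y hy hyt
    exact hy.2 (by rw [hcu y hyt]; exact hcV))
  let γ : Path a' b' := PathConnectedSpace.somePath a' b'
  obtain ⟨ε₂, hε₂, hε₂'⟩ := hgap _ ((isCompact_range γ.continuous).diff hV'o) (by
    intro y hy hyt
    exact hy.2 (by rw [hcu y hyt]; exact hcV))
  obtain ⟨ε, hε0, hεa, hεb, hεc, hεd⟩ : ∃ ε > 0, ε ≤ ε₁ ∧ ε ≤ ε₂ ∧ ε ≤ t₀ ∧ ε ≤ 1 - t₀ := by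
    refine ⟨min (min ε₁ ε₂) (min t₀ (1 - t₀)), ?_, ?_, ?_, ?_, ?_⟩
    · exact lt_min (lt_min hε₁ hε₂) (lt_min ht₀.1 (by linarith [ht₀.2]))
    · exact (min_le_left _ _).trans (min_le_left _ _)
    · exact (min_le_left _ _).trans (min_le_right _ _)
    · exact (min_le_right _ _).trans (min_le_left _ _)
    · exact (min_le_right _ _).trans (min_le_right _ _)
  have hsub : ∀ y : U, |r y - t₀| < ε → y ∈ V' := by
    intro y hy
    have hF := hpre (r y) (h01 y).1 (h01 y).2
    obtain ⟨z, hz⟩ : r y ∈ range (fun s => r (γ s)) := by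
      apply mem_range_of_exists_le_of_exists_ge (hr.comp γ.continuous)
      · exact ⟨0, by simp only [Function.comp, γ.source, hra]; exact (h01 y).1⟩
      · exact ⟨1, by simp only [Function.comp, γ.target, hrb]; exact (h01 y).2⟩
    have hzV : γ z ∈ V' := by
      by_contra hcon
      have h1 := hε₂' (γ z) ⟨⟨z, rfl⟩, hcon⟩
      have h2 : r (γ z) = r y := hz
      rw [h2] at h1
      linarith
    have hss : {w | r w = r y} ⊆ V' := by
      refine IsPreconnected.subset_left_of_subset_union hV'o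
        (isClosed_closure.preimage continuous_subtype_val).isOpen_compl (v := (Subtype.val ⁻¹' closure V)ᶜ)
        ?_ ?_ ⟨γ z, hz, hzV⟩ hF
      · rw [Set.disjoint_left]
        intro w hw hw'
        exact hw' (subset_closure hw)
      · intro w hw
        by_contra hcon
        simp only [mem_union, not_or, mem_compl_iff, not_not] at hcon
        have h1 := hε₁' w ⟨hcon.2, hcon.1⟩
        have h2 : r w = r y := hw
        rw [h2] at h1
        linarith
    exact hss rfl
  -- the block
  set t₁ : ℝ := t₀ - ε / 2 with ht₁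
  set t₂ : ℝ := t₀ + ε / 2 with ht₂
  have h12 : t₁ < t₂ := by rw [ht₁, ht₂]; linarith
  have ht₁0 : 0 < t₁ := by rw [ht₁]; linarith
  have ht₂1 : t₂ < 1 := by rw [ht₂]; linarith
  set KY : Set U := {y | t₁ ≤ r y ∧ r y ≤ t₂} with hKY
  have hKYcl : IsClosed KY :=
    (isClosed_le continuous_const hr).inter (isClosed_le hr continuous_const)
  have hKYabs : ∀ y, y ∈ KY ↔ |r y - t₀| ≤ ε / 2 := by
    intro y
    rw [abs_le, hKY, mem_ofPred_eq, ht₁, ht₂]
    constructor
    · rintro ⟨h1, h2⟩; constructor <;> linarith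
    · rintro ⟨h1, h2⟩; constructor <;> linarith
  have hKYV : KY ⊆ Subtype.val ⁻¹' closure V := fun y hy =>
    subset_closure (hsub y (lt_of_le_of_lt ((hKYabs y).1 hy) (by linarith)))
  have hKYc : IsCompact KY := hclc.of_isClosed_subset hKYcl hKYV
  set c₁ : U := em t₁ with hc₁
  set c₂ : U := ep t₂ with hc₂
  have hrc₁ : r c₁ = t₁ := hemr t₁ ⟨a', by rw [hra]; exact ht₁0⟩ (by linarith)
  have hrc₂ : r c₂ = t₂ := hepr t₂ ⟨b', by rw [hrb]; exact ht₂1⟩ (by linarith)
  have hc12 : (c₁ : X) ≠ c₂ := by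
    intro heq
    have := congrArg r (Subtype.ext heq)
    rw [hrc₁, hrc₂] at this
    linarith
  set K : Set X := Subtype.val '' KY with hK
  have hKcl : IsClosed K := (hKYc.image continuous_subtype_val).isClosed
  have hfrK : ∀ x ∈ frontier K, x = c₁ ∨ x = c₂ := by
    intro x hx
    have hxK : x ∈ K := hKcl.frontier_subset hx
    obtain ⟨y, hy, rfl⟩ := hxK
    have hxc : (y : X) ∈ closure Kᶜ := by
      rw [frontier_eq_closure_inter_closure] at hx; exact hx.2
    have hyc : y ∈ closure ({x | r x < t₁} ∪ {x | t₂ < r x}) := by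
      rw [mem_closure_iff]
      intro O hO hyO
      obtain ⟨w, hw1, hw2⟩ := mem_closure_iff.1 hxc (Subtype.val '' O)
        (hU.isOpenEmbedding_subtypeVal.isOpenMap O hO) ⟨y, hyO, rfl⟩
      obtain ⟨w', hw', rfl⟩ := hw1
      refine ⟨w', hw', ?_⟩
      by_contra hcon
      simp only [mem_union, mem_ofPred_eq, not_or, not_lt] at hcon
      exact hw2 ⟨w', ⟨hcon.1, hcon.2⟩, rfl⟩
    rw [closure_union] at hyc
    rcases hyc with hyc | hyc
    · left
      have hle : r y ≤ t₁ := by
        have : closure {x | r x < t₁} ⊆ {x | r x ≤ t₁} :=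
          closure_minimal (fun x (hx : r x < t₁) => (le_of_lt hx : r x ≤ t₁))
            (isClosed_le hr continuous_const)
        exact this hyc
      rw [hem t₁ y hyc (le_antisymm hle hy.1)]
    · right
      have hge : t₂ ≤ r y := by
        have : closure {x | t₂ < r x} ⊆ {x | t₂ ≤ r x} :=
          closure_minimal (fun x (hx : t₂ < r x) => (le_of_lt hx : t₂ ≤ r x))
            (isClosed_le continuous_const hr)
        exact this hyc
      rw [hep t₂ y hyc (le_antisymm hy.2 hge)]
  -- the map onto the block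
  obtain ⟨hh, hh0, hh1, -⟩ := exists_continuous_zero_one_of_isClosed
    (isClosed_singleton (x := (c₁ : X))) (isClosed_singleton (x := (c₂ : X)))
    (by simpa using hc12)
  let γ' : Path c₁ c₂ := PathConnectedSpace.somePath c₁ c₂
  let cl : U → U := clamp r c₁ c₂ t₁ t₂
  have hclcont : Continuous cl := clamp_continuous h12 hr (hem t₁) (hep t₂)
  have hclK : ∀ y, cl y ∈ KY := by
    intro y
    by_cases h1 : r y < t₁
    · have : cl y = c₁ := if_pos h1
      rw [this]
      exact ⟨hrc₁.ge, by rw [hrc₁]; exact h12.le⟩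
    by_cases h2 : t₂ < r y
    · have : cl y = c₂ := by
        simp only [cl, clamp]
        rw [if_neg h1, if_pos h2]
      rw [this]
      exact ⟨by rw [hrc₂]; exact h12.le, hrc₂.le⟩
    · have : cl y = y := by
        simp only [cl, clamp]
        rw [if_neg h1, if_neg h2]
      rw [this]
      exact ⟨not_lt.1 h1, not_lt.1 h2⟩
  have hclid : ∀ y ∈ KY, cl y = y := by
    intro y hy
    simp only [cl, clamp]
    rw [if_neg (not_lt.2 hy.1), if_neg (not_lt.2 hy.2)]
  have hc₁K : c₁ ∈ KY := ⟨hrc₁.ge, by rw [hrc₁]; exact h12.le⟩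
  have hc₂K : c₂ ∈ KY := ⟨by rw [hrc₂]; exact h12.le, hrc₂.le⟩
  let g : X → X := fun x => (cl (γ' (Set.projIcc (0 : ℝ) 1 zero_le_one (hh x))) : U)
  have hgcont : Continuous g := continuous_subtype_val.comp
    (hclcont.comp (γ'.continuous.comp (continuous_projIcc.comp hh.continuous)))
  let Sg : X → X := K.piecewise id g
  have hSgc : Continuous Sg := by
    refine Continuous.piecewise ?_ continuous_id hgcont
    intro x hx
    rcases hfrK x hx with rfl | rfl
    · have h1 : hh (c₁ : X) = 0 := hh0 rfl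
      change (c₁ : X) = (cl (γ' (Set.projIcc (0 : ℝ) 1 zero_le_one (hh c₁))) : U)
      rw [h1, Set.projIcc_left, hclid _ (by rw [show (⟨0, left_mem_Icc.2 zero_le_one⟩ : unitInterval) = 0 from rfl, γ'.source]; exact hc₁K)]
      rw [show (⟨0, left_mem_Icc.2 zero_le_one⟩ : unitInterval) = 0 from rfl, γ'.source]
    · have h1 : hh (c₂ : X) = 1 := hh1 rfl
      change (c₂ : X) = (cl (γ' (Set.projIcc (0 : ℝ) 1 zero_le_one (hh c₂))) : U)
      rw [h1, Set.projIcc_right, hclid _ (by rw [show (⟨1, right_mem_Icc.2 zero_le_one⟩ : unitInterval) = 1 from rfl, γ'.target]; exact hc₂K)]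
      rw [show (⟨1, right_mem_Icc.2 zero_le_one⟩ : unitInterval) = 1 from rfl, γ'.target]
  have hSgK : ∀ x, Sg x ∈ K := by
    intro x
    by_cases hx : x ∈ K
    · have : Sg x = x := Set.piecewise_eq_of_mem _ _ _ hx
      rw [this]; exact hx
    · have : Sg x = g x := Set.piecewise_eq_of_notMem _ _ _ hx
      rw [this]; exact ⟨_, hclK _, rfl⟩
  have hKU : K ⊆ U := by rintro _ ⟨y, _, rfl⟩; exact y.2
  let S' : X → KY := fun x => ⟨⟨Sg x, hKU (hSgK x)⟩, by
    obtain ⟨y, hy, hyx⟩ := hSgK x
    have : (⟨Sg x, hKU (hSgK x)⟩ : U) = y := Subtype.ext hyx.symm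
    rw [this]; exact hy⟩
  have hS'c : Continuous S' := Continuous.subtype_mk (Continuous.subtype_mk hSgc _) _
  have hS's : Function.Surjective S' := by
    intro z
    refine ⟨(z.1 : X), ?_⟩
    apply Subtype.ext
    apply Subtype.ext
    have hzK : (z.1 : X) ∈ K := ⟨z.1, z.2, rfl⟩
    exact Set.piecewise_eq_of_mem K id g hzK
  have hZc : CompactSpace KY := isCompact_iff_compactSpace.1 hKYc
  have hZconn : ConnectedSpace KY := (hS's.comp hs).connectedSpace (hS'c.comp hq₀)
  obtain ⟨p, hp⟩ := exists_path (S' ∘ q₀) (hS'c.comp hq₀) (hS's.comp hs)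
    (⟨c₁, hc₁K⟩ : KY) (⟨c₂, hc₂K⟩ : KY)
  have hd12 : 0 < t₂ - t₁ := by linarith
  let rZ : KY → ℝ := fun z => (r z.1 - t₁) / (t₂ - t₁)
  have hrZc : Continuous rZ :=
    ((hr.comp continuous_subtype_val).sub continuous_const).div_const _
  have hlt : ∀ (t : ℝ) (z : KY), rZ z < t ↔ r z.1 < t₁ + t * (t₂ - t₁) := by
    intro t z
    simp only [rZ]
    rw [div_lt_iff₀ hd12]
    constructor <;> intro h <;> linarith
  have hgt : ∀ (t : ℝ) (z : KY), t < rZ z ↔ t₁ + t * (t₂ - t₁) < r z.1 := by
    intro t z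
    simp only [rZ]
    rw [lt_div_iff₀ hd12]
    constructor <;> intro h <;> linarith
  have heq : ∀ (t : ℝ) (z : KY), rZ z = t → r z.1 = t₁ + t * (t₂ - t₁) := by
    intro t z hz
    simp only [rZ] at hz
    rw [div_eq_iff hd12.ne'] at hz
    linarith
  obtain ⟨qZ, hqZc, hqZs, hqZm⟩ := monotone_path p hp rZ hrZc
    (by simp only [rZ]; rw [hrc₁, sub_self, zero_div])
    (by simp only [rZ]; rw [hrc₂, div_self hd12.ne'])
    (by
      intro z
      simp only [rZ]
      refine ⟨div_nonneg (by linarith [z.2.1]) hd12.le, ?_⟩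
      rw [div_le_one hd12]
      linarith [z.2.2])
    (by
      rintro t z ⟨hz, hzt⟩ w ⟨hw, hwt⟩
      apply Subtype.ext
      refine (hlu (t₁ + t * (t₂ - t₁))).1 ⟨?_, heq t z hzt⟩ ⟨?_, heq t w hwt⟩
      · exact map_mem_closure continuous_subtype_val hz fun v hv => (hlt t v).1 hv
      · exact map_mem_closure continuous_subtype_val hw fun v hv => (hlt t v).1 hv)
    (by
      rintro t z ⟨hz, hzt⟩ w ⟨hw, hwt⟩
      apply Subtype.ext
      refine (hlu (t₁ + t * (t₂ - t₁))).2 ⟨?_, heq t z hzt⟩ ⟨?_, heq t w hwt⟩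
      · exact map_mem_closure continuous_subtype_val hz fun v hv => (hgt t v).1 hv
      · exact map_mem_closure continuous_subtype_val hw fun v hv => (hgt t v).1 hv)
  -- the tent function
  set δ : ℝ := ε / 4 with hδ
  have hδ0 : 0 < δ := by rw [hδ]; linarith
  let f : U → ℝ := fun y => max 0 (δ - |r y - t₀|)
  have hfc : Continuous f :=
    continuous_const.max (continuous_const.sub (hr.sub continuous_const).abs)
  let R : X → ℝ := Function.extend Subtype.val f (fun _ => 0)
  have hRU : ∀ y : U, R y = f y := fun y => Subtype.val_injective.extend_apply _ _ _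
  set K' : Set X := Subtype.val '' {y : U | |r y - t₀| ≤ δ} with hK'
  have hK'cl : IsClosed K' := by
    have h1 : IsClosed {y : U | |r y - t₀| ≤ δ} :=
      isClosed_le (hr.sub continuous_const).abs continuous_const
    have h2 : {y : U | |r y - t₀| ≤ δ} ⊆ KY := fun y hy =>
      (hKYabs y).2 (le_trans hy (by rw [hδ]; linarith))
    exact ((hKYc.of_isClosed_subset h1 h2).image continuous_subtype_val).isClosed
  set W : Set X := Subtype.val '' {y : U | |r y - t₀| < ε / 2} with hW
  have hWo : IsOpen W := hU.isOpenEmbedding_subtypeVal.isOpenMap _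
    (isOpen_lt (hr.sub continuous_const).abs continuous_const)
  have hK'W : K' ⊆ W := by
    rintro _ ⟨y, hy, rfl⟩
    have hy' : |r y - t₀| ≤ δ := hy
    have hy'' : |r y - t₀| < ε / 2 := lt_of_le_of_lt hy' (by rw [hδ]; linarith)
    exact ⟨y, hy'', rfl⟩
  have hR0 : ∀ x, x ∉ K' → R x = 0 := by
    intro x hx
    by_cases hxU : x ∈ U
    · have h1 : R x = f ⟨x, hxU⟩ := hRU ⟨x, hxU⟩
      rw [h1]
      have h2 : δ < |r ⟨x, hxU⟩ - t₀| := by
        by_contra hcon
        exact hx ⟨⟨x, hxU⟩, not_lt.1 hcon, rfl⟩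
      exact max_eq_left (by linarith)
    · refine Function.extend_apply' _ _ _ ?_
      rintro ⟨y, rfl⟩
      exact hxU y.2
  have hRc : Continuous R := by
    rw [continuous_iff_continuousAt]
    intro x
    by_cases hx : x ∈ K'
    · obtain ⟨y, _, rfl⟩ := hx
      have h1 : ContinuousAt (R ∘ (Subtype.val : U → X)) y := by
        have : R ∘ (Subtype.val : U → X) = f := funext hRU
        rw [this]
        exact hfc.continuousAt
      exact (hU.isOpenEmbedding_subtypeVal.continuousAt_iff).1 h1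
    · have h1 : R =ᶠ[𝓝 x] fun _ => 0 := by
        filter_upwards [hK'cl.isOpen_compl.mem_nhds hx] with z hz using hR0 z hz
      exact continuousAt_const.congr h1.symm
  let r1 : X → Cube 1 := fun x _ => Set.projIcc (0 : ℝ) 1 zero_le_one (R x / δ)
  have hr1c : Continuous r1 :=
    continuous_pi fun _ => continuous_projIcc.comp (hRc.div_const _)
  have hRa : R a = 0 := by
    have h1 : R a = f a' := hRU a'
    rw [h1]
    simp only [f]
    rw [hra, zero_sub, abs_neg, abs_of_pos ht₀.1]
    exact max_eq_left (by rw [hδ]; linarith)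
  have hRcc : R c = δ := by
    rw [hRU c]
    simp only [f]
    rw [hc, sub_self, abs_zero, sub_zero]
    exact max_eq_right hδ0.le
  have hr1s : Function.Surjective r1 := by
    intro v
    obtain ⟨x, hx⟩ : δ * (v 0 : ℝ) ∈ range R := by
      apply mem_range_of_exists_le_of_exists_ge hRc
      · exact ⟨a, by rw [hRa]; exact mul_nonneg hδ0.le (v 0).2.1⟩
      · exact ⟨c, by rw [hRcc]; nlinarith [(v 0).2.2]⟩
    refine ⟨x, ?_⟩
    funext i
    rw [Subsingleton.elim i 0]
    simp only [r1]
    have : R x / δ = (v 0 : ℝ) := by rw [hx]; field_simp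
    rw [this]
    exact Set.projIcc_val zero_le_one (v 0)
  have hr10 : ∀ x, x ∉ K' → r1 x = 0 := by
    intro x hx
    funext i
    simp only [r1]
    rw [hR0 x hx, zero_div]
    exact Set.projIcc_left _
  -- bounded variation along the monotone path
  let φ : unitInterval → ℝ := fun s => f (qZ s).1
  have hφc : Continuous φ := hfc.comp (continuous_subtype_val.comp hqZc)
  have hTlip : LipschitzWith ⟨t₂ - t₁, hd12.le⟩
      (fun v : ℝ => max 0 (δ - |t₁ + v * (t₂ - t₁) - t₀|)) := by
    refine LipschitzWith.of_dist_le_mul fun v w => ?_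
    have h1 := ((LipschitzWith.id (α := ℝ)).const_max 0).dist_le_mul
      (δ - |t₁ + v * (t₂ - t₁) - t₀|) (δ - |t₁ + w * (t₂ - t₁) - t₀|)
    simp only [id, NNReal.coe_one, one_mul] at h1
    refine h1.trans ?_
    rw [Real.dist_eq, Real.dist_eq, sub_sub_sub_cancel_left]
    refine (abs_abs_sub_abs_le _ _).trans ?_
    have h2 : (t₁ + w * (t₂ - t₁) - t₀) - (t₁ + v * (t₂ - t₁) - t₀) = (w - v) * (t₂ - t₁) := by
      ring
    rw [h2, abs_mul, abs_of_pos hd12, abs_sub_comm w v, mul_comm]
    exact le_rfl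
  have hφBV : BoundedVariationOn φ univ := by
    have h1 := hTlip.comp_boundedVariationOn (bv_of_monotone hqZm)
    have h2 : (fun v : ℝ => max 0 (δ - |t₁ + v * (t₂ - t₁) - t₀|)) ∘ (rZ ∘ qZ) = φ := by
      funext s
      simp only [Function.comp, φ, f, rZ]
      rw [div_mul_cancel₀ _ hd12.ne', add_sub_cancel]
    rwa [h2] at h1
  obtain ⟨σ, hσc, hσs, L, hL⟩ := reparam φ hφc hφBV
  let gq : Cube 1 → X := fun v => ((qZ (σ (v 0))).1 : X)
  have hgqc : Continuous gq := continuous_subtype_val.comp (continuous_subtype_val.comp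
    (hqZc.comp (hσc.comp (continuous_apply 0))))
  have hgqW : ∀ x ∈ W, ∃ v, gq v = x := by
    rintro _ ⟨y, hy, rfl⟩
    obtain ⟨s, hs'⟩ := hqZs ⟨y, (hKYabs y).2 (le_of_lt hy)⟩
    obtain ⟨s', hs''⟩ := hσs s
    refine ⟨fun _ => s', ?_⟩
    simp only [gq]
    rw [hs'', hs']
  let M : NNReal := ⟨1 / δ, by positivity⟩
  have hMval : (M : ℝ) = 1 / δ := rfl
  have hgqL : LipschitzWith (M * L) (r1 ∘ gq) := by
    refine LipschitzWith.of_dist_le_mul fun v w => ?_
    rw [dist_pi_le_iff (by positivity)]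
    intro i
    change dist (Set.projIcc (0 : ℝ) 1 zero_le_one (R (gq v) / δ))
      (Set.projIcc (0 : ℝ) 1 zero_le_one (R (gq w) / δ)) ≤ _
    have h0 : ∀ v, R (gq v) = φ (σ (v 0)) := fun v => hRU _
    rw [h0 v, h0 w]
    have h1 := (LipschitzWith.projIcc (zero_le_one' ℝ)).dist_le_mul
      (φ (σ (v 0)) / δ) (φ (σ (w 0)) / δ)
    rw [NNReal.coe_one, one_mul] at h1
    have h2 : dist (φ (σ (v 0)) / δ) (φ (σ (w 0)) / δ) =
        (1 / δ) * dist (φ (σ (v 0))) (φ (σ (w 0))) := by
      rw [Real.dist_eq, Real.dist_eq, ← sub_div, abs_div, abs_of_pos hδ0]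
      ring
    have h3 := hL.dist_le_mul (v 0) (w 0)
    have h4 : dist (v 0) (w 0) ≤ dist v w := dist_le_pi_dist v w 0
    have h5 : dist (φ (σ (v 0))) (φ (σ (w 0))) ≤ L * dist v w :=
      h3.trans (mul_le_mul_of_nonneg_left h4 L.2)
    have h6 : (1 / δ) * dist (φ (σ (v 0))) (φ (σ (w 0))) ≤ (1 / δ) * (L * dist v w) :=
      mul_le_mul_of_nonneg_left h5 (by positivity)
    calc _ ≤ _ := h1
      _ = _ := h2
      _ ≤ _ := h6
      _ = ((M * L : NNReal) : ℝ) * dist v w := by rw [NNReal.coe_mul, hMval]; ring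
  exact glue r1 hr1c hr1s (fun v => q₀ (v 0)) (hq₀.comp (continuous_apply 0))
    (by
      intro x
      obtain ⟨s, hs'⟩ := hs x
      exact ⟨fun _ => s, hs'⟩)
    K' W hK'cl hWo hK'W hr10 gq hgqc hgqW (M * L) hgqL

end Pool.Agent.H764R3.TopFractalLocal
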