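import Pool.Agent.H764R3.TopFractalSep

/-!
# A path that is monotone with respect to a function with one-point boundaries of level sets
-/

open Set Topology

namespace Pool.Agent.H764R3.TopFractalMono

/-! ### Jump functions -/

theorem exists_jump (s : ℕ → ℝ) (hs : ∀ n, 0 ≤ s n) :
    ∃ H H' : ℝ → ℝ, (∀ t, 0 ≤ H t) ∧ (∀ t, H' t ≤ 1) ∧ (∀ t, H t ≤ H' t) ∧
      (∀ t t', t < t' → H' t ≤ H t') ∧ H 0 = 0 ∧ ∀ n, H (s n) < H' (s n) := by
  classical
  have hw : Summable fun n : ℕ => (1 / 2 : ℝ) ^ (n + 1) := by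
    simpa [pow_succ] using (summable_geometric_two.mul_right (1 / 2 : ℝ))
  have hw1 : ∑' n : ℕ, (1 / 2 : ℝ) ^ (n + 1) = 1 := by
    have : ∑' n : ℕ, (1 / 2 : ℝ) ^ (n + 1) = ∑' n : ℕ, (1 / 2 : ℝ) ^ n * (1 / 2) := by
      simp [pow_succ]
    rw [this, tsum_mul_right, tsum_geometric_two]
    norm_num
  have hpos : ∀ n : ℕ, (0 : ℝ) < (1 / 2 : ℝ) ^ (n + 1) := fun n => by positivity
  have hsum : ∀ P : ℕ → Prop, Summable fun n => if P n then (1 / 2 : ℝ) ^ (n + 1) else 0 := by
    intro P
    refine Summable.of_nonneg_of_le (fun n => ?_) (fun n => ?_) hw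
    · split_ifs
      · exact (hpos n).le
      · exact le_rfl
    · split_ifs
      · exact le_rfl
      · exact (hpos n).le
  have hle : ∀ P Q : ℕ → Prop, (∀ n, P n → Q n) →
      (∑' n, if P n then (1 / 2 : ℝ) ^ (n + 1) else 0) ≤
        ∑' n, if Q n then (1 / 2 : ℝ) ^ (n + 1) else 0 := by
    intro P Q hPQ
    refine (hsum P).tsum_le_tsum (fun n => ?_) (hsum Q)
    by_cases hP : P n
    · rw [if_pos hP, if_pos (hPQ n hP)]
    · rw [if_neg hP]
      split_ifs
      · exact (hpos n).le
      · exact le_rfl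
  refine ⟨fun t => ∑' n, if s n < t then (1 / 2 : ℝ) ^ (n + 1) else 0,
    fun t => ∑' n, if s n ≤ t then (1 / 2 : ℝ) ^ (n + 1) else 0, ?_, ?_, ?_, ?_, ?_, ?_⟩
  · intro t
    refine tsum_nonneg fun n => ?_
    split_ifs
    · exact (hpos n).le
    · exact le_rfl
  · intro t
    have := hle (fun n => s n ≤ t) (fun _ => True) (fun _ _ => trivial)
    simp only [if_true] at this
    rw [hw1] at this
    exact this
  · intro t
    exact hle _ _ fun n hn => le_of_lt hn
  · intro t t' htt'
    exact hle _ _ fun n hn => lt_of_le_of_lt hn htt'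
  · have : ∀ n, (if s n < 0 then (1 / 2 : ℝ) ^ (n + 1) else 0) = 0 := fun n =>
      if_neg (not_lt.2 (hs n))
    simp only [this, tsum_zero]
  · intro n
    refine (hsum _).tsum_lt_tsum (i := n) (fun k => ?_) ?_ (hsum _)
    · by_cases hk : s k < s n
      · rw [if_pos hk, if_pos hk.le]
      · rw [if_neg hk]
        split_ifs
        · exact (hpos k).le
        · exact le_rfl
    · rw [if_neg (lt_irrefl _), if_pos le_rfl]
      exact hpos n

theorem exists_m (H H' : ℝ → ℝ) (h0 : ∀ t, 0 ≤ H t) (_h1 : ∀ t, H' t ≤ 1) (h2 : ∀ t, H t ≤ H' t)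
    (h3 : ∀ t t', t < t' → H' t ≤ H t') (h4 : H 0 = 0) :
    ∃ m : ℝ → ℝ, (∀ v, 0 ≤ v → 0 ≤ m v ∧ m v ≤ 1) ∧ (∀ v v', 0 ≤ v → v ≤ v' → m v ≤ m v') ∧
      (∀ v v', 0 ≤ v → v ≤ v' → m v' ≤ m v + (v' - v)) ∧
      (∀ t v, 0 ≤ t → t ≤ 1 → t + H t ≤ v → v ≤ t + H' t → m v = t) := by
  let A : ℝ → Set ℝ := fun v => {t | (0 ≤ t ∧ t ≤ 1) ∧ t + H t ≤ v}
  have hA0 : ∀ v, 0 ≤ v → (0 : ℝ) ∈ A v := fun v hv =>
    ⟨⟨le_rfl, zero_le_one⟩, by rw [h4]; linarith⟩
  have hAb : ∀ v, BddAbove (A v) := fun v => ⟨1, fun t ht => ht.1.2⟩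
  refine ⟨fun v => sSup (A v), ?_, ?_, ?_, ?_⟩
  · intro v hv
    exact ⟨le_csSup (hAb v) (hA0 v hv), csSup_le ⟨0, hA0 v hv⟩ fun t ht => ht.1.2⟩
  · intro v v' hv hvv'
    exact csSup_le_csSup (hAb v') ⟨0, hA0 v hv⟩ fun t ht => ⟨ht.1, ht.2.trans hvv'⟩
  · intro v v' hv hvv'
    have hm0 : 0 ≤ sSup (A v) := le_csSup (hAb v) (hA0 v hv)
    refine csSup_le ⟨0, hA0 v' (hv.trans hvv')⟩ fun t' ht' => ?_
    by_contra hcon
    push Not at hcon
    set M := sSup (A v) with hM
    set t := (M + (t' - (v' - v))) / 2 with ht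
    have ht1 : M < t := by rw [ht]; linarith
    have ht2 : t < t' - (v' - v) := by rw [ht]; linarith
    have ht3 : t < t' := by linarith
    have ht4 : t ∉ A v := fun hmem => absurd (le_csSup (hAb v) hmem) (not_le.2 ht1)
    have ht5 : v < t + H t := by
      by_contra hcon2
      push Not at hcon2
      exact ht4 ⟨⟨by linarith, by linarith [ht'.1.2]⟩, hcon2⟩
    have ht6 := ht'.2
    have ht7 := (h2 t).trans (h3 t t' ht3)
    linarith
  · intro t v ht0 ht1 hv1 hv2
    have hv0 : 0 ≤ v := by linarith [h0 t]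
    apply le_antisymm
    · refine csSup_le ⟨0, hA0 v hv0⟩ fun t' ht' => ?_
      by_contra hcon
      push Not at hcon
      have := h3 t t' hcon
      have := ht'.2
      linarith
    · exact le_csSup (hAb v) ⟨⟨ht0, ht1⟩, hv1⟩

/-! ### The retractions onto the level sets -/

section Retr

variable {X : Type*} [TopologicalSpace X] (r : X → ℝ) (em ep : ℝ → X)

open Classical in
/-- Collapse everything below the level to `em t` and everything above to `ep t`. -/
noncomputable def retr (t : ℝ) (x : X) : X :=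
  if r x < t then em t else if t < r x then ep t else x

variable {r em ep}

theorem retr_of_lt {t : ℝ} {x : X} (h : r x < t) : retr r em ep t x = em t := if_pos h

theorem retr_of_gt {t : ℝ} {x : X} (h : t < r x) : retr r em ep t x = ep t := by
  rw [retr, if_neg (not_lt.2 h.le), if_pos h]

theorem retr_of_eq {t : ℝ} {x : X} (h : r x = t) : retr r em ep t x = x := by
  rw [retr, if_neg (not_lt.2 h.ge), if_neg (not_lt.2 h.le)]

theorem retr_continuous (hr : Continuous r)
    (hem : ∀ t y, y ∈ closure {x | r x < t} → r y = t → y = em t)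
    (hep : ∀ t y, y ∈ closure {x | t < r x} → r y = t → y = ep t) (t : ℝ) :
    Continuous (retr r em ep t) := by
  rw [continuous_iff_continuousAt]
  intro x
  rcases lt_trichotomy (r x) t with h | h | h
  · have : retr r em ep t =ᶠ[𝓝 x] fun _ => em t := by
      filter_upwards [(isOpen_lt hr continuous_const).mem_nhds h] with z hz using retr_of_lt hz
    exact continuousAt_const.congr this.symm
  · rw [ContinuousAt, retr_of_eq h]
    intro V hV
    have hA : ∀ᶠ z in 𝓝 x, r z < t → em t ∈ V := by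
      by_cases hx : x ∈ closure {x | r x < t}
      · have := hem t x hx h
        exact Filter.Eventually.of_forall fun z _ => this ▸ mem_of_mem_nhds hV
      · filter_upwards [isClosed_closure.isOpen_compl.mem_nhds hx] with z hz hzt
        have hz' : z ∈ closure {x | r x < t} := subset_closure hzt
        exact absurd hz' hz
    have hB : ∀ᶠ z in 𝓝 x, t < r z → ep t ∈ V := by
      by_cases hx : x ∈ closure {x | t < r x}
      · have := hep t x hx h
        exact Filter.Eventually.of_forall fun z _ => this ▸ mem_of_mem_nhds hV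
      · filter_upwards [isClosed_closure.isOpen_compl.mem_nhds hx] with z hz hzt
        have hz' : z ∈ closure {x | t < r x} := subset_closure hzt
        exact absurd hz' hz
    have hC : ∀ᶠ z in 𝓝 x, retr r em ep t z ∈ V := by
      filter_upwards [hA, hB, hV] with z h1 h2 h3
      rcases lt_trichotomy (r z) t with h' | h' | h'
      · rw [retr_of_lt h']; exact h1 h'
      · rw [retr_of_eq h']; exact h3
      · rw [retr_of_gt h']; exact h2 h'
    exact hC
  · have : retr r em ep t =ᶠ[𝓝 x] fun _ => ep t := by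
      filter_upwards [(isOpen_lt continuous_const hr).mem_nhds h] with z hz using retr_of_gt hz
    exact continuousAt_const.congr this.symm

end Retr

/-- Points near the level `t` from below are near `em t`. -/
theorem low_lemma {X : Type*} [TopologicalSpace X] [CompactSpace X] {r : X → ℝ}
    (hr : Continuous r) {t : ℝ} {c : X} (hc : ∀ y, y ∈ closure {x | r x < t} → r y = t → y = c)
    {V : Set X} (hV : IsOpen V) (hcV : c ∈ V) : ∃ s < t, ∀ x, s < r x → r x < t → x ∈ V := by
  set Q : Set X := closure {x | r x < t} ∩ Vᶜ with hQ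
  have hQc : IsCompact Q := (isClosed_closure.inter hV.isClosed_compl).isCompact
  rcases Q.eq_empty_or_nonempty with h | h
  · refine ⟨t - 1, by linarith, fun x _ hx => ?_⟩
    by_contra hcon
    have : x ∈ Q := ⟨subset_closure hx, hcon⟩
    rw [h] at this
    exact this
  · obtain ⟨x₁, hx₁, hmax⟩ := hQc.exists_isMaxOn h hr.continuousOn
    have hle : r x₁ ≤ t := by
      have : closure {x | r x < t} ⊆ {x | r x ≤ t} :=
        closure_minimal (fun x (hx : r x < t) => (le_of_lt hx : r x ≤ t))
        (isClosed_le hr continuous_const)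
      exact this hx₁.1
    have hlt : r x₁ < t := lt_of_le_of_ne hle fun heq => hx₁.2 (hc x₁ hx₁.1 heq ▸ hcV)
    refine ⟨r x₁, hlt, fun x hx1 hx2 => ?_⟩
    by_contra hcon
    have : x ∈ Q := ⟨subset_closure hx2, hcon⟩
    exact absurd (hmax this) (not_le.2 hx1)

theorem exists_low {X : Type*} [TopologicalSpace X] [ConnectedSpace X] {r : X → ℝ}
    (hr : Continuous r) {t : ℝ} (h1 : ∃ x, r x < t) (h2 : ∃ x, t ≤ r x) :
    ∃ y ∈ closure {x | r x < t}, r y = t := by
  by_contra hcon
  push Not at hcon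
  have hle : closure {x | r x < t} ⊆ {x | r x ≤ t} :=
    closure_minimal (fun x (hx : r x < t) => (le_of_lt hx : r x ≤ t))
        (isClosed_le hr continuous_const)
  have hcl : IsClosed {x | r x < t} := by
    rw [← closure_subset_iff_isClosed]
    intro x hx
    exact lt_of_le_of_ne (hle hx) (hcon x hx)
  have := IsClopen.eq_univ ⟨hcl, isOpen_lt hr continuous_const⟩ h1
  obtain ⟨x, hx⟩ := h2
  have hx' : x ∈ {x | r x < t} := by rw [this]; trivial
  exact absurd hx' (not_lt.2 hx)

theorem monotone_path {X : Type*} [TopologicalSpace X] [CompactSpace X] [T2Space X]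
    [ConnectedSpace X] {a b : X} (p : Path a b) (hp : Function.Surjective p) (r : X → ℝ)
    (hr : Continuous r) (ha : r a = 0) (hb : r b = 1) (h01 : ∀ x, 0 ≤ r x ∧ r x ≤ 1)
    (hlow : ∀ t, (closure {x | r x < t} ∩ {x | r x = t}).Subsingleton)
    (hup : ∀ t, (closure {x | t < r x} ∩ {x | r x = t}).Subsingleton) :
    ∃ q : unitInterval → X, Continuous q ∧ Function.Surjective q ∧ Monotone (r ∘ q) := by
  classical
  -- upper versions of the lemmas by negation
  have hrn : Continuous fun x => - r x := hr.neg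
  have hset : ∀ t : ℝ, {x | - r x < - t} = {x | t < r x} := fun t => by
    ext x; simp
  have exists_up : ∀ t : ℝ, (∃ x, t < r x) → (∃ x, r x ≤ t) →
      ∃ y ∈ closure {x | t < r x}, r y = t := by
    intro t h1 h2
    obtain ⟨y, hy, hyt⟩ := exists_low (r := fun x => - r x) (t := - t) hrn
      (by obtain ⟨x, hx⟩ := h1; exact ⟨x, by simpa using hx⟩)
      (by obtain ⟨x, hx⟩ := h2; exact ⟨x, by simpa using hx⟩)
    rw [hset] at hy
    exact ⟨y, hy, by linarith⟩
  have up_lemma : ∀ (t : ℝ) (c : X), (∀ y, y ∈ closure {x | t < r x} → r y = t → y = c) →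
      ∀ V : Set X, IsOpen V → c ∈ V → ∃ s > t, ∀ x, t < r x → r x < s → x ∈ V := by
    intro t c hc V hV hcV
    obtain ⟨s, hs, hsV⟩ := low_lemma (r := fun x => - r x) (t := - t) hrn (c := c)
      (by
        intro y hy hyt
        rw [hset] at hy
        exact hc y hy (by linarith)) hV hcV
    exact ⟨-s, by linarith, fun x h1 h2 => hsV x (by linarith) (by linarith)⟩
  -- end points of the level sets
  let em : ℝ → X := fun t => if h : ∃ y ∈ closure {x | r x < t}, r y = t then h.choose else a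
  let ep : ℝ → X := fun t => if h : ∃ y ∈ closure {x | t < r x}, r y = t then h.choose else b
  have hem : ∀ t y, y ∈ closure {x | r x < t} → r y = t → y = em t := by
    intro t y hy hyt
    have h : ∃ y ∈ closure {x | r x < t}, r y = t := ⟨y, hy, hyt⟩
    have h' : em t = h.choose := dif_pos h
    rw [h']
    exact hlow t ⟨hy, hyt⟩ h.choose_spec
  have hep : ∀ t y, y ∈ closure {x | t < r x} → r y = t → y = ep t := by
    intro t y hy hyt
    have h : ∃ y ∈ closure {x | t < r x}, r y = t := ⟨y, hy, hyt⟩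
    have h' : ep t = h.choose := dif_pos h
    rw [h']
    exact hup t ⟨hy, hyt⟩ h.choose_spec
  have hemr : ∀ t, (∃ x, r x < t) → t ≤ 1 → r (em t) = t := by
    intro t h1 h2
    obtain ⟨y, hy, hyt⟩ := exists_low hr h1 ⟨b, by rw [hb]; exact h2⟩
    rw [← hem t y hy hyt]; exact hyt
  have hepr : ∀ t, (∃ x, t < r x) → 0 ≤ t → r (ep t) = t := by
    intro t h1 h2
    obtain ⟨y, hy, hyt⟩ := exists_up t h1 ⟨a, by rw [ha]; exact h2⟩
    rw [← hep t y hy hyt]; exact hyt
  set ρ : ℝ → X → X := retr r em ep with hρ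
  have hρc : ∀ t, Continuous (ρ t) := retr_continuous hr hem hep
  have hρr : ∀ t x, 0 ≤ t → t ≤ 1 → r (ρ t x) = t := by
    intro t x h0 h1
    rcases lt_trichotomy (r x) t with h | h | h
    · rw [hρ, retr_of_lt h]; exact hemr t ⟨x, h⟩ h1
    · rw [hρ, retr_of_eq h]; exact h
    · rw [hρ, retr_of_gt h]; exact hepr t ⟨x, h⟩ h0
  -- the jump functions
  let u : ℕ → unitInterval := TopologicalSpace.denseSeq unitInterval
  obtain ⟨H, H', hH0, hH1, hH2, hH3, hH4, hH5⟩ := exists_jump (fun n => r (p (u n)))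
    fun n => (h01 _).1
  obtain ⟨m, hm01, hmono, hmlip, hmeq⟩ := exists_m H H' hH0 hH1 hH2 hH3 hH4
  have hmc : ContinuousOn m (Icc 0 2) := by
    have : LipschitzOnWith 1 m (Icc 0 2) := by
      refine LipschitzOnWith.of_dist_le_mul fun v hv v' hv' => ?_
      rw [Real.dist_eq, Real.dist_eq, NNReal.coe_one, one_mul]
      rcases le_total v v' with h | h
      · have h1 := hmono v v' hv.1 h
        have h2 := hmlip v v' hv.1 h
        rw [abs_sub_comm, abs_sub_comm v v', abs_of_nonneg (by linarith),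
          abs_of_nonneg (by linarith)]
        linarith
      · have h1 := hmono v' v hv'.1 h
        have h2 := hmlip v' v hv'.1 h
        rw [abs_of_nonneg (by linarith), abs_of_nonneg (by linarith)]
        linarith
    exact this.continuousOn
  -- the parameter intervals of the levels
  let J : ℝ → Set ℝ := fun t => {v | v ∈ Icc (0 : ℝ) 2 ∧ m v = t}
  have hJc : ∀ t, IsCompact (J t) := by
    intro t
    have : J t = Icc (0 : ℝ) 2 ∩ m ⁻¹' {t} := rfl
    rw [this]
    exact isCompact_Icc.of_isClosed_subset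
      (hmc.preimage_isClosed_of_isClosed isClosed_Icc isClosed_singleton) inter_subset_left
  let α : ℝ → ℝ := fun t => sInf (J t)
  let β : ℝ → ℝ := fun t => sSup (J t)
  have hα : ∀ v ∈ Icc (0 : ℝ) 2, α (m v) ∈ J (m v) ∧ α (m v) ≤ v := fun v hv =>
    ⟨(hJc _).sInf_mem ⟨v, hv, rfl⟩, csInf_le (hJc _).bddBelow ⟨hv, rfl⟩⟩
  have hβ : ∀ v ∈ Icc (0 : ℝ) 2, β (m v) ∈ J (m v) ∧ v ≤ β (m v) := fun v hv =>
    ⟨(hJc _).sSup_mem ⟨v, hv, rfl⟩, le_csSup (hJc _).bddAbove ⟨hv, rfl⟩⟩
  let lam : ℝ → ℝ → unitInterval := fun t v =>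
    Set.projIcc (0 : ℝ) 1 zero_le_one ((v - α t) / (β t - α t))
  have hlamc : ∀ t, Continuous (lam t) := fun t =>
    continuous_projIcc.comp ((continuous_id.sub continuous_const).div_const _)
  let q : ℝ → X := fun v => ρ (m v) (p (lam (m v) v))
  have hqr : ∀ v ∈ Icc (0 : ℝ) 2, r (q v) = m v := fun v hv =>
    hρr _ _ (hm01 v hv.1).1 (hm01 v hv.1).2
  have hnd : ∀ t, 0 ≤ t → t ≤ 1 → ∀ x y, x ≠ y → r x = t → r y = t → α t < β t := by
    intro t ht0 ht1 x y hxy hx hy
    set V : Set X := (closure {x | r x < t} ∪ closure {x | t < r x})ᶜ with hV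
    have hVo : IsOpen V := (isClosed_closure.union isClosed_closure).isOpen_compl
    have hVr : ∀ z ∈ V, r z = t := by
      intro z hz
      by_contra hcon
      rcases lt_or_gt_of_ne hcon with h | h
      · have hz' : z ∈ closure {x | r x < t} := subset_closure h
        exact hz (Or.inl hz')
      · have hz' : z ∈ closure {x | t < r x} := subset_closure h
        exact hz (Or.inr hz')
    have hVne : V.Nonempty := by
      by_contra hemp
      have hsub : {z | r z = t} ⊆ ({em t, ep t} : Set X) := by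
        intro z hz
        have : z ∈ closure {x | r x < t} ∪ closure {x | t < r x} := by
          by_contra h
          exact hemp ⟨z, h⟩
        rcases this with h | h
        · exact Or.inl (hem t z h hz)
        · exact Or.inr (hep t z h hz)
      have hrange : range (ρ t) = {z | r z = t} := by
        ext z
        constructor
        · rintro ⟨w, rfl⟩
          exact hρr t w ht0 ht1
        · intro hz
          exact ⟨z, retr_of_eq hz⟩
      have hpre : IsPreconnected {z | r z = t} := by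
        rw [← hrange]; exact isPreconnected_range (hρc t)
      exact (hpre.infinite_of_nontrivial ⟨x, hx, y, hy, hxy⟩)
        ((Set.toFinite ({em t, ep t} : Set X)).subset hsub)
    obtain ⟨z, hz⟩ := hVne
    obtain ⟨w, hw⟩ := hp z
    have hne : (p ⁻¹' V).Nonempty := ⟨w, by rw [mem_preimage, hw]; exact hz⟩
    obtain ⟨n, hn⟩ := (TopologicalSpace.denseRange_denseSeq unitInterval).exists_mem_open
      (hVo.preimage p.continuous) hne
    have hsn : r (p (u n)) = t := hVr _ hn
    have hjump := hH5 n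
    rw [hsn] at hjump
    have hv1 : t + H t ∈ J t :=
      ⟨⟨by linarith [hH0 t], by linarith [hH1 t, hH2 t]⟩, hmeq t _ ht0 ht1 le_rfl (by linarith)⟩
    have hv2 : t + H' t ∈ J t :=
      ⟨⟨by linarith [hH0 t], by linarith [hH1 t, hH2 t]⟩,
        hmeq t _ ht0 ht1 (by linarith [hH2 t]) le_rfl⟩
    calc α t ≤ t + H t := csInf_le (hJc t).bddBelow hv1
      _ < t + H' t := by linarith
      _ ≤ β t := le_csSup (hJc t).bddAbove hv2
  have hqc : ContinuousOn q (Icc 0 2) := by
    intro v₀ hv₀
    have hcover : Icc (0 : ℝ) 2 ⊆ (J (m v₀) ∪ {v | v ∈ Icc (0 : ℝ) 2 ∧ m v < m v₀}) ∪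
        {v | v ∈ Icc (0 : ℝ) 2 ∧ m v₀ < m v} := by
      intro v hv
      rcases lt_trichotomy (m v) (m v₀) with h | h | h
      · exact Or.inl (Or.inr ⟨hv, h⟩)
      · exact Or.inl (Or.inl ⟨hv, h⟩)
      · exact Or.inr ⟨hv, h⟩
    refine ContinuousWithinAt.mono ?_ hcover
    refine (ContinuousWithinAt.union ?_ ?_).union ?_
    · have h1 : ContinuousWithinAt (fun v => ρ (m v₀) (p (lam (m v₀) v))) (J (m v₀)) v₀ :=
        ((hρc _).comp (p.continuous.comp (hlamc _))).continuousWithinAt
      refine h1.congr (fun v hv => ?_) rfl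
      simp only [q]
      rw [hv.2]
    · by_cases hcl : v₀ ∈ closure {v | v ∈ Icc (0 : ℝ) 2 ∧ m v < m v₀}
      · have hne : {v | v ∈ Icc (0 : ℝ) 2 ∧ m v < m v₀}.Nonempty := by
          rw [← closure_nonempty_iff]; exact ⟨v₀, hcl⟩
        obtain ⟨v₁, hv₁, hv₁m⟩ := hne
        have ht0 : 0 < m v₀ := lt_of_le_of_lt (hm01 v₁ hv₁.1).1 hv₁m
        have hvα : v₀ = α (m v₀) := by
          apply le_antisymm
          · have hsub : {v | v ∈ Icc (0 : ℝ) 2 ∧ m v < m v₀} ⊆ Iic (α (m v₀)) := by
              rintro v ⟨hv, hvm⟩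
              by_contra hcon
              have h1 := hmono (α (m v₀)) v (hα v₀ hv₀).1.1.1 (not_le.1 hcon).le
              rw [(hα v₀ hv₀).1.2] at h1
              linarith
            exact closure_minimal hsub isClosed_Iic hcl
          · exact (hα v₀ hv₀).2
        have hlam0 : lam (m v₀) v₀ = 0 := by
          simp only [lam]
          rw [← hvα, sub_self, zero_div]
          exact Set.projIcc_left _
        have hq0 : q v₀ = em (m v₀) := by
          simp only [q]
          rw [hlam0, p.source, hρ]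
          exact retr_of_lt (by rw [ha]; exact ht0)
        rw [ContinuousWithinAt, hq0, tendsto_nhds]
        intro V hV hcV
        obtain ⟨s, hs, hsV⟩ := low_lemma hr (hem (m v₀)) hV hcV
        have hev : ∀ᶠ v in 𝓝[{v | v ∈ Icc (0 : ℝ) 2 ∧ m v < m v₀}] v₀, s < m v :=
          ((hmc v₀ hv₀).mono (fun v hv => hv.1)).eventually (lt_mem_nhds hs)
        filter_upwards [hev, self_mem_nhdsWithin] with v h1 h2
        apply hsV
        · rw [hqr v h2.1]; exact h1
        · rw [hqr v h2.1]; exact h2.2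
      · have hbot : 𝓝[{v | v ∈ Icc (0 : ℝ) 2 ∧ m v < m v₀}] v₀ = ⊥ := by
          rw [mem_closure_iff_nhdsWithin_neBot, Filter.not_neBot] at hcl
          exact hcl
        rw [ContinuousWithinAt, hbot]
        exact Filter.tendsto_bot
    · by_cases hcl : v₀ ∈ closure {v | v ∈ Icc (0 : ℝ) 2 ∧ m v₀ < m v}
      · have hne : {v | v ∈ Icc (0 : ℝ) 2 ∧ m v₀ < m v}.Nonempty := by
          rw [← closure_nonempty_iff]; exact ⟨v₀, hcl⟩
        obtain ⟨v₁, hv₁, hv₁m⟩ := hne
        have ht1 : m v₀ < 1 := lt_of_lt_of_le hv₁m (hm01 v₁ hv₁.1).2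
        have hvβ : v₀ = β (m v₀) := by
          apply le_antisymm
          · exact (hβ v₀ hv₀).2
          · have hsub : {v | v ∈ Icc (0 : ℝ) 2 ∧ m v₀ < m v} ⊆ Ici (β (m v₀)) := by
              rintro v ⟨hv, hvm⟩
              by_contra hcon
              have h1 := hmono v (β (m v₀)) hv.1 (not_le.1 hcon).le
              rw [(hβ v₀ hv₀).1.2] at h1
              linarith
            exact closure_minimal hsub isClosed_Ici hcl
        have hq0 : q v₀ = ep (m v₀) := by
          by_cases hdeg : α (m v₀) = β (m v₀)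
          · by_contra hne'
            have h1 : r (ep (m v₀)) = m v₀ :=
              hepr _ ⟨q v₁, by rw [hqr v₁ hv₁]; exact hv₁m⟩ (hm01 v₀ hv₀.1).1
            exact absurd hdeg (ne_of_lt (hnd (m v₀) (hm01 v₀ hv₀.1).1 (hm01 v₀ hv₀.1).2 _ _ hne'
              (hqr v₀ hv₀) h1))
          · have hlam1 : lam (m v₀) v₀ = 1 := by
              simp only [lam]
              rw [← hvβ, div_self (by
                intro h0
                apply hdeg
                rw [← hvβ]; linarith)]
              exact Set.projIcc_right _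
            simp only [q]
            rw [hlam1, p.target, hρ]
            exact retr_of_gt (by rw [hb]; exact ht1)
        rw [ContinuousWithinAt, hq0, tendsto_nhds]
        intro V hV hcV
        obtain ⟨s, hs, hsV⟩ := up_lemma (m v₀) (ep (m v₀)) (hep (m v₀)) V hV hcV
        have hev : ∀ᶠ v in 𝓝[{v | v ∈ Icc (0 : ℝ) 2 ∧ m v₀ < m v}] v₀, m v < s :=
          ((hmc v₀ hv₀).mono (fun v hv => hv.1)).eventually (gt_mem_nhds hs)
        filter_upwards [hev, self_mem_nhdsWithin] with v h1 h2
        apply hsV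
        · rw [hqr v h2.1]; exact h2.2
        · rw [hqr v h2.1]; exact h1
      · have hbot : 𝓝[{v | v ∈ Icc (0 : ℝ) 2 ∧ m v₀ < m v}] v₀ = ⊥ := by
          rw [mem_closure_iff_nhdsWithin_neBot, Filter.not_neBot] at hcl
          exact hcl
        rw [ContinuousWithinAt, hbot]
        exact Filter.tendsto_bot
  have hqs : ∀ x, ∃ v ∈ Icc (0 : ℝ) 2, q v = x := by
    intro x
    obtain ⟨ht0, ht1⟩ := h01 x
    have hv : r x + H (r x) ∈ J (r x) :=
      ⟨⟨by linarith [hH0 (r x)], by linarith [hH1 (r x), hH2 (r x)]⟩,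
        hmeq _ _ ht0 ht1 le_rfl (by linarith [hH2 (r x)])⟩
    by_cases h : ∃ y, y ≠ x ∧ r y = r x
    · obtain ⟨y, hy, hyt⟩ := h
      have hαβ := hnd (r x) ht0 ht1 y x hy hyt rfl
      have hαJ : α (r x) ∈ J (r x) := (hJc _).sInf_mem ⟨_, hv⟩
      have hβJ : β (r x) ∈ J (r x) := (hJc _).sSup_mem ⟨_, hv⟩
      obtain ⟨s, hs⟩ := hp x
      set v : ℝ := α (r x) + s * (β (r x) - α (r x)) with hvdef
      have hpos : 0 < β (r x) - α (r x) := by linarith
      have hv1 : α (r x) ≤ v := by
        have := mul_nonneg s.2.1 hpos.le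
        linarith
      have hv2 : v ≤ β (r x) := by
        have := mul_le_mul_of_nonneg_right s.2.2 hpos.le
        linarith
      have hvD : v ∈ Icc (0 : ℝ) 2 := ⟨hαJ.1.1.trans hv1, hv2.trans hβJ.1.2⟩
      have hmv : m v = r x := by
        apply le_antisymm
        · have := hmono v (β (r x)) hvD.1 hv2
          rwa [hβJ.2] at this
        · have := hmono (α (r x)) v hαJ.1.1 hv1
          rwa [hαJ.2] at this
      have hlam : lam (r x) v = s := by
        have h1 : (v - α (r x)) / (β (r x) - α (r x)) = s := by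
          rw [hvdef, add_sub_cancel_left, mul_div_assoc, div_self hpos.ne', mul_one]
        simp only [lam]
        rw [h1]
        exact Set.projIcc_val zero_le_one s
      refine ⟨v, hvD, ?_⟩
      simp only [q]
      rw [hmv, hlam, hs, hρ]
      exact retr_of_eq rfl
    · push Not at h
      refine ⟨r x + H (r x), hv.1, ?_⟩
      by_contra hne
      exact h _ hne (by rw [hqr _ hv.1]; exact hv.2)
  have hdom : ∀ w : unitInterval, 2 * (w : ℝ) ∈ Icc (0 : ℝ) 2 := fun w =>
    ⟨by linarith [w.2.1], by linarith [w.2.2]⟩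
  refine ⟨fun w => q (2 * (w : ℝ)), ?_, ?_, ?_⟩
  · exact hqc.comp_continuous (continuous_const.mul continuous_subtype_val) hdom
  · intro x
    obtain ⟨v, hv, rfl⟩ := hqs x
    refine ⟨⟨v / 2, by linarith [hv.1], by linarith [hv.2]⟩, ?_⟩
    change q (2 * (v / 2)) = q v
    congr 1
    ring
  · intro w w' hww'
    change r (q (2 * (w : ℝ))) ≤ r (q (2 * (w' : ℝ)))
    rw [hqr _ (hdom w), hqr _ (hdom w')]
    have : (w : ℝ) ≤ w' := hww'
    exact hmono _ _ (hdom w).1 (by linarith)

end Pool.Agent.H764R3.TopFractalMono
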