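import Pool.Agent.H764R3.TopFractalDendrite

/-!
# Open subsets that are products of spaces with uncountably many local cut points
-/

open Set Topology Pool.Agent.H764R3.TopFractal Pool.Agent.H764R3.TopFractalSep
  Pool.Agent.H764R3.TopFractalMono Pool.Agent.H764R3.TopFractalFinal
  Pool.Agent.H764R3.TopFractalLocal Pool.Agent.H764R3.TopFractalCut

namespace Pool.Agent.H764R3.TopFractalProd

theorem factor {X : Type*} [TopologicalSpace X] [TopologicalSpace.MetrizableSpace X]
    (q₀ : unitInterval → X) (hq₀ : Continuous q₀) (hs : Function.Surjective q₀)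
    (U : Set X) (hU : IsOpen U) (hUp : IsPathConnected U) (a b : X) (haU : a ∈ U) (hbU : b ∈ U)
    (h : ¬ {e | e ∈ U ∧ ¬ JoinedIn (U \ {e}) a b}.Countable) :
    ∃ (r : U → ℝ) (q : unitInterval → U) (L : NNReal), Continuous r ∧ Continuous q ∧
      (∀ y, |r y| ≤ 1 → ∃ s, q s = y) ∧ (∀ t, |t| ≤ 1 → ∃ y, r y = t) ∧
      LipschitzWith L (r ∘ q) ∧ IsCompact {y | |r y| ≤ 1} := by
  classical
  have := locallyPathConnected_unitInterval
  have hcomp : CompactSpace X := ⟨by rw [← hs.range_eq]; exact isCompact_range hq₀⟩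
  have hconn : ConnectedSpace X := hs.connectedSpace hq₀
  have hlpc : LocallyPathConnectedSpace X :=
    (hq₀.isClosedMap.isQuotientMap hq₀ hs).locallyPathConnectedSpace
  have hpolish : PolishSpace X := by
    let _ : MetricSpace X := TopologicalSpace.metrizableSpaceMetric X
    infer_instance
  have hYpolish : PolishSpace U := hU.polishSpace
  have hYpc : PathConnectedSpace U := isPathConnected_iff_pathConnectedSpace.1 hUp
  have hYlpc : LocallyPathConnectedSpace U := hU.locallyPathConnectedSpace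
  let a' : U := ⟨a, haU⟩
  let b' : U := ⟨b, hbU⟩
  have hsep : ¬ (Sepa a' b').Countable := by
    intro hc
    apply h
    refine (hc.image Subtype.val).mono ?_
    rintro e ⟨heU, he⟩
    refine ⟨⟨e, heU⟩, ?_, rfl⟩
    intro hj
    apply he
    obtain ⟨γ, hγ⟩ := hj
    exact ⟨γ.map continuous_subtype_val, fun t => ⟨(γ t).2, fun ht => hγ t (Subtype.ext ht)⟩⟩
  obtain ⟨r, hr, hra, hrb, h01, hlu⟩ := exists_function a' b' hsep
  obtain ⟨em, ep, hem, hep, hemr, hepr⟩ := exists_ends r hr a' b' hra hrb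
    (fun t => (hlu t).1) (fun t => (hlu t).2)
  -- fibres are connected
  have hrange : ∀ t, 0 ≤ t → t ≤ 1 → range (retr r em ep t) = {z | r z = t} := by
    intro t ht0 ht1
    ext z
    constructor
    · rintro ⟨w, rfl⟩
      rcases lt_trichotomy (r w) t with h | h | h
      · change r (retr r em ep t w) = t
        rw [retr_of_lt h]; exact hemr t ⟨w, h⟩ ht1
      · change r (retr r em ep t w) = t
        rw [retr_of_eq h]; exact h
      · change r (retr r em ep t w) = t
        rw [retr_of_gt h]; exact hepr t ⟨w, h⟩ ht0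
    · intro hz
      exact ⟨z, retr_of_eq hz⟩
  have hpre : ∀ t, 0 ≤ t → t ≤ 1 → IsPreconnected {z | r z = t} := by
    intro t ht0 ht1
    rw [← hrange t ht0 ht1]
    exact isPreconnected_range (retr_continuous hr hem hep t)
  -- all but countably many fibres are points
  have hYne : Nonempty U := ⟨a'⟩
  let u : ℕ → U := TopologicalSpace.denseSeq U
  have hfib : ∀ t, 0 ≤ t → t ≤ 1 → t ∉ range (fun n => r (u n)) → {z | r z = t}.Subsingleton := by
    intro t ht0 ht1 ht x hx y hy
    by_contra hxy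
    apply ht
    set V : Set U := (closure {x | r x < t} ∪ closure {x | t < r x})ᶜ with hV
    have hVo : IsOpen V := (isClosed_closure.union isClosed_closure).isOpen_compl
    have hVr : ∀ z ∈ V, r z = t := by
      intro z hz
      by_contra hcon
      rcases lt_or_gt_of_ne hcon with h | h
      · have hz' : z ∈ closure {x | r x < t} := subset_closure h
        exact hz (Or.inl hz')
      · have hz' : z ∈ closure {x | t < r x} := subset_closure h
        exact hz (Or.inr hz')
    have hVne : V.Nonempty := by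
      by_contra hemp
      have hsub : {z | r z = t} ⊆ ({em t, ep t} : Set U) := by
        intro z hz
        have : z ∈ closure {x | r x < t} ∪ closure {x | t < r x} := by
          by_contra h
          exact hemp ⟨z, h⟩
        rcases this with h | h
        · exact Or.inl (hem t z h hz)
        · exact Or.inr (hep t z h hz)
      exact ((hpre t ht0 ht1).infinite_of_nontrivial ⟨x, hx, y, hy, hxy⟩)
        ((Set.toFinite ({em t, ep t} : Set U)).subset hsub)
    obtain ⟨n, hn⟩ := (TopologicalSpace.denseRange_denseSeq U).exists_mem_open hVo hVne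
    exact ⟨n, hVr _ hn⟩
  obtain ⟨t₀, ht₀, ht₀'⟩ : ∃ t₀, t₀ ∈ Ioo (0 : ℝ) 1 ∧ t₀ ∉ range (fun n => r (u n)) := by
    have hd : Dense (range (fun n => r (u n)))ᶜ := (countable_range _).dense_compl ℝ
    obtain ⟨t, ht1, ht2⟩ := hd.inter_open_nonempty (Ioo 0 1) isOpen_Ioo ⟨1 / 2, by norm_num⟩
    exact ⟨t, ht1, ht2⟩
  obtain ⟨c, hc⟩ : ∃ c, r c = t₀ := by
    have := hemr t₀ ⟨a', by rw [hra]; exact ht₀.1⟩ ht₀.2.le
    exact ⟨_, this⟩
  have hcu : ∀ y, r y = t₀ → y = c := fun y hy =>
    hfib t₀ ht₀.1.le ht₀.2.le ht₀' hy hc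
  -- a small neighbourhood
  obtain ⟨T, hT, hTc, hTU⟩ := exists_mem_nhds_isClosed_subset (hU.mem_nhds c.2)
  set V : Set X := interior T with hVdef
  have hVo : IsOpen V := isOpen_interior
  have hcV : (c : X) ∈ V := mem_interior_iff_mem_nhds.2 hT
  have hVcl : closure V ⊆ U := (closure_minimal interior_subset hTc).trans hTU
  set V' : Set U := Subtype.val ⁻¹' V with hV'
  have hV'o : IsOpen V' := hVo.preimage continuous_subtype_val
  have hclc : IsCompact (Subtype.val ⁻¹' closure V : Set U) :=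
    (Topology.IsInducing.subtypeVal.isCompact_preimage_iff (by simpa using hVcl)).2
      isClosed_closure.isCompact
  have hgap : ∀ C : Set U, IsCompact C → (∀ y ∈ C, r y ≠ t₀) → ∃ ε > 0, ∀ y ∈ C, ε ≤ |r y - t₀| := by
    intro C hC hne
    rcases C.eq_empty_or_nonempty with h | h
    · exact ⟨1, one_pos, fun y hy => by rw [h] at hy; exact absurd hy (notMem_empty _)⟩
    · obtain ⟨y₁, hy₁, hmin⟩ := hC.exists_isMinOn h
        ((hr.sub continuous_const).abs.continuousOn (f := fun y => |r y - t₀|))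
      exact ⟨|r y₁ - t₀|, abs_pos.2 (sub_ne_zero.2 (hne y₁ hy₁)), fun y hy => hmin hy⟩
  obtain ⟨ε₁, hε₁, hε₁'⟩ := hgap _ (hclc.diff hV'o) (by
    intro y hy hyt
    exact hy.2 (by rw [hcu y hyt]; exact hcV))
  let γ : Path a' b' := PathConnectedSpace.somePath a' b'
  obtain ⟨ε₂, hε₂, hε₂'⟩ := hgap _ ((isCompact_range γ.continuous).diff hV'o) (by
    intro y hy hyt
    exact hy.2 (by rw [hcu y hyt]; exact hcV))
  obtain ⟨ε, hε0, hεa, hεb, hεc, hεd⟩ : ∃ ε > 0, ε ≤ ε₁ ∧ ε ≤ ε₂ ∧ ε ≤ t₀ ∧ ε ≤ 1 - t₀ := by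
    refine ⟨min (min ε₁ ε₂) (min t₀ (1 - t₀)), ?_, ?_, ?_, ?_, ?_⟩
    · exact lt_min (lt_min hε₁ hε₂) (lt_min ht₀.1 (by linarith [ht₀.2]))
    · exact (min_le_left _ _).trans (min_le_left _ _)
    · exact (min_le_left _ _).trans (min_le_right _ _)
    · exact (min_le_right _ _).trans (min_le_left _ _)
    · exact (min_le_right _ _).trans (min_le_right _ _)
  have hsub : ∀ y : U, |r y - t₀| < ε → y ∈ V' := by
    intro y hy
    have hF := hpre (r y) (h01 y).1 (h01 y).2
    obtain ⟨z, hz⟩ : r y ∈ range (fun s => r (γ s)) := by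
      apply mem_range_of_exists_le_of_exists_ge (hr.comp γ.continuous)
      · exact ⟨0, by simp only [Function.comp, γ.source, hra]; exact (h01 y).1⟩
      · exact ⟨1, by simp only [Function.comp, γ.target, hrb]; exact (h01 y).2⟩
    have hzV : γ z ∈ V' := by
      by_contra hcon
      have h1 := hε₂' (γ z) ⟨⟨z, rfl⟩, hcon⟩
      have h2 : r (γ z) = r y := hz
      rw [h2] at h1
      linarith
    have hss : {w | r w = r y} ⊆ V' := by
      refine IsPreconnected.subset_left_of_subset_union hV'o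
        (isClosed_closure.preimage continuous_subtype_val).isOpen_compl (v := (Subtype.val ⁻¹' closure V)ᶜ)
        ?_ ?_ ⟨γ z, hz, hzV⟩ hF
      · rw [Set.disjoint_left]
        intro w hw hw'
        exact hw' (subset_closure hw)
      · intro w hw
        by_contra hcon
        simp only [mem_union, not_or, mem_compl_iff, not_not] at hcon
        have h1 := hε₁' w ⟨hcon.2, hcon.1⟩
        have h2 : r w = r y := hw
        rw [h2] at h1
        linarith
    exact hss rfl
  -- the block
  set t₁ : ℝ := t₀ - ε / 2 with ht₁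
  set t₂ : ℝ := t₀ + ε / 2 with ht₂
  have h12 : t₁ < t₂ := by rw [ht₁, ht₂]; linarith
  have ht₁0 : 0 < t₁ := by rw [ht₁]; linarith
  have ht₂1 : t₂ < 1 := by rw [ht₂]; linarith
  set KY : Set U := {y | t₁ ≤ r y ∧ r y ≤ t₂} with hKY
  have hKYcl : IsClosed KY :=
    (isClosed_le continuous_const hr).inter (isClosed_le hr continuous_const)
  have hKYabs : ∀ y, y ∈ KY ↔ |r y - t₀| ≤ ε / 2 := by
    intro y
    rw [abs_le, hKY, mem_ofPred_eq, ht₁, ht₂]
    constructor
    · rintro ⟨h1, h2⟩; constructor <;> linarith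
    · rintro ⟨h1, h2⟩; constructor <;> linarith
  have hKYV : KY ⊆ Subtype.val ⁻¹' closure V := fun y hy =>
    subset_closure (hsub y (lt_of_le_of_lt ((hKYabs y).1 hy) (by linarith)))
  have hKYc : IsCompact KY := hclc.of_isClosed_subset hKYcl hKYV
  set c₁ : U := em t₁ with hc₁
  set c₂ : U := ep t₂ with hc₂
  have hrc₁ : r c₁ = t₁ := hemr t₁ ⟨a', by rw [hra]; exact ht₁0⟩ (by linarith)
  have hrc₂ : r c₂ = t₂ := hepr t₂ ⟨b', by rw [hrb]; exact ht₂1⟩ (by linarith)
  have hc12 : (c₁ : X) ≠ c₂ := by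
    intro heq
    have := congrArg r (Subtype.ext heq)
    rw [hrc₁, hrc₂] at this
    linarith
  set K : Set X := Subtype.val '' KY with hK
  have hKcl : IsClosed K := (hKYc.image continuous_subtype_val).isClosed
  have hfrK : ∀ x ∈ frontier K, x = c₁ ∨ x = c₂ := by
    intro x hx
    have hxK : x ∈ K := hKcl.frontier_subset hx
    obtain ⟨y, hy, rfl⟩ := hxK
    have hxc : (y : X) ∈ closure Kᶜ := by
      rw [frontier_eq_closure_inter_closure] at hx; exact hx.2
    have hyc : y ∈ closure ({x | r x < t₁} ∪ {x | t₂ < r x}) := by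
      rw [mem_closure_iff]
      intro O hO hyO
      obtain ⟨w, hw1, hw2⟩ := mem_closure_iff.1 hxc (Subtype.val '' O)
        (hU.isOpenEmbedding_subtypeVal.isOpenMap O hO) ⟨y, hyO, rfl⟩
      obtain ⟨w', hw', rfl⟩ := hw1
      refine ⟨w', hw', ?_⟩
      by_contra hcon
      simp only [mem_union, mem_ofPred_eq, not_or, not_lt] at hcon
      exact hw2 ⟨w', ⟨hcon.1, hcon.2⟩, rfl⟩
    rw [closure_union] at hyc
    rcases hyc with hyc | hyc
    · left
      have hle : r y ≤ t₁ := by
        have : closure {x | r x < t₁} ⊆ {x | r x ≤ t₁} :=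
          closure_minimal (fun x (hx : r x < t₁) => (le_of_lt hx : r x ≤ t₁))
            (isClosed_le hr continuous_const)
        exact this hyc
      rw [hem t₁ y hyc (le_antisymm hle hy.1)]
    · right
      have hge : t₂ ≤ r y := by
        have : closure {x | t₂ < r x} ⊆ {x | t₂ ≤ r x} :=
          closure_minimal (fun x (hx : t₂ < r x) => (le_of_lt hx : t₂ ≤ r x))
            (isClosed_le continuous_const hr)
        exact this hyc
      rw [hep t₂ y hyc (le_antisymm hy.2 hge)]
  -- the map onto the block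
  obtain ⟨hh, hh0, hh1, -⟩ := exists_continuous_zero_one_of_isClosed
    (isClosed_singleton (x := (c₁ : X))) (isClosed_singleton (x := (c₂ : X)))
    (by simpa using hc12)
  let γ' : Path c₁ c₂ := PathConnectedSpace.somePath c₁ c₂
  let cl : U → U := clamp r c₁ c₂ t₁ t₂
  have hclcont : Continuous cl := clamp_continuous h12 hr (hem t₁) (hep t₂)
  have hclK : ∀ y, cl y ∈ KY := by
    intro y
    by_cases h1 : r y < t₁
    · have : cl y = c₁ := if_pos h1
      rw [this]
      exact ⟨hrc₁.ge, by rw [hrc₁]; exact h12.le⟩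
    by_cases h2 : t₂ < r y
    · have : cl y = c₂ := by
        simp only [cl, clamp]
        rw [if_neg h1, if_pos h2]
      rw [this]
      exact ⟨by rw [hrc₂]; exact h12.le, hrc₂.le⟩
    · have : cl y = y := by
        simp only [cl, clamp]
        rw [if_neg h1, if_neg h2]
      rw [this]
      exact ⟨not_lt.1 h1, not_lt.1 h2⟩
  have hclid : ∀ y ∈ KY, cl y = y := by
    intro y hy
    simp only [cl, clamp]
    rw [if_neg (not_lt.2 hy.1), if_neg (not_lt.2 hy.2)]
  have hc₁K : c₁ ∈ KY := ⟨hrc₁.ge, by rw [hrc₁]; exact h12.le⟩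
  have hc₂K : c₂ ∈ KY := ⟨by rw [hrc₂]; exact h12.le, hrc₂.le⟩
  let g : X → X := fun x => (cl (γ' (Set.projIcc (0 : ℝ) 1 zero_le_one (hh x))) : U)
  have hgcont : Continuous g := continuous_subtype_val.comp
    (hclcont.comp (γ'.continuous.comp (continuous_projIcc.comp hh.continuous)))
  let Sg : X → X := K.piecewise id g
  have hSgc : Continuous Sg := by
    refine Continuous.piecewise ?_ continuous_id hgcont
    intro x hx
    rcases hfrK x hx with rfl | rfl
    · have h1 : hh (c₁ : X) = 0 := hh0 rfl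
      change (c₁ : X) = (cl (γ' (Set.projIcc (0 : ℝ) 1 zero_le_one (hh c₁))) : U)
      rw [h1, Set.projIcc_left, hclid _ (by rw [show (⟨0, left_mem_Icc.2 zero_le_one⟩ : unitInterval) = 0 from rfl, γ'.source]; exact hc₁K)]
      rw [show (⟨0, left_mem_Icc.2 zero_le_one⟩ : unitInterval) = 0 from rfl, γ'.source]
    · have h1 : hh (c₂ : X) = 1 := hh1 rfl
      change (c₂ : X) = (cl (γ' (Set.projIcc (0 : ℝ) 1 zero_le_one (hh c₂))) : U)
      rw [h1, Set.projIcc_right, hclid _ (by rw [show (⟨1, right_mem_Icc.2 zero_le_one⟩ : unitInterval) = 1 from rfl, γ'.target]; exact hc₂K)]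
      rw [show (⟨1, right_mem_Icc.2 zero_le_one⟩ : unitInterval) = 1 from rfl, γ'.target]
  have hSgK : ∀ x, Sg x ∈ K := by
    intro x
    by_cases hx : x ∈ K
    · have : Sg x = x := Set.piecewise_eq_of_mem _ _ _ hx
      rw [this]; exact hx
    · have : Sg x = g x := Set.piecewise_eq_of_notMem _ _ _ hx
      rw [this]; exact ⟨_, hclK _, rfl⟩
  have hKU : K ⊆ U := by rintro _ ⟨y, _, rfl⟩; exact y.2
  let S' : X → KY := fun x => ⟨⟨Sg x, hKU (hSgK x)⟩, by
    obtain ⟨y, hy, hyx⟩ := hSgK x
    have : (⟨Sg x, hKU (hSgK x)⟩ : U) = y := Subtype.ext hyx.symm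
    rw [this]; exact hy⟩
  have hS'c : Continuous S' := Continuous.subtype_mk (Continuous.subtype_mk hSgc _) _
  have hS's : Function.Surjective S' := by
    intro z
    refine ⟨(z.1 : X), ?_⟩
    apply Subtype.ext
    apply Subtype.ext
    have hzK : (z.1 : X) ∈ K := ⟨z.1, z.2, rfl⟩
    exact Set.piecewise_eq_of_mem K id g hzK
  have hZc : CompactSpace KY := isCompact_iff_compactSpace.1 hKYc
  have hZconn : ConnectedSpace KY := (hS's.comp hs).connectedSpace (hS'c.comp hq₀)
  obtain ⟨p, hp⟩ := exists_path (S' ∘ q₀) (hS'c.comp hq₀) (hS's.comp hs)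
    (⟨c₁, hc₁K⟩ : KY) (⟨c₂, hc₂K⟩ : KY)
  have hd12 : 0 < t₂ - t₁ := by linarith
  let rZ : KY → ℝ := fun z => (r z.1 - t₁) / (t₂ - t₁)
  have hrZc : Continuous rZ :=
    ((hr.comp continuous_subtype_val).sub continuous_const).div_const _
  have hlt : ∀ (t : ℝ) (z : KY), rZ z < t ↔ r z.1 < t₁ + t * (t₂ - t₁) := by
    intro t z
    simp only [rZ]
    rw [div_lt_iff₀ hd12]
    constructor <;> intro h <;> linarith
  have hgt : ∀ (t : ℝ) (z : KY), t < rZ z ↔ t₁ + t * (t₂ - t₁) < r z.1 := by
    intro t z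
    simp only [rZ]
    rw [lt_div_iff₀ hd12]
    constructor <;> intro h <;> linarith
  have heq : ∀ (t : ℝ) (z : KY), rZ z = t → r z.1 = t₁ + t * (t₂ - t₁) := by
    intro t z hz
    simp only [rZ] at hz
    rw [div_eq_iff hd12.ne'] at hz
    linarith
  obtain ⟨qZ, hqZc, hqZs, hqZm⟩ := monotone_path p hp rZ hrZc
    (by simp only [rZ]; rw [hrc₁, sub_self, zero_div])
    (by simp only [rZ]; rw [hrc₂, div_self hd12.ne'])
    (by
      intro z
      simp only [rZ]
      refine ⟨div_nonneg (by linarith [z.2.1]) hd12.le, ?_⟩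
      rw [div_le_one hd12]
      linarith [z.2.2])
    (by
      rintro t z ⟨hz, hzt⟩ w ⟨hw, hwt⟩
      apply Subtype.ext
      refine (hlu (t₁ + t * (t₂ - t₁))).1 ⟨?_, heq t z hzt⟩ ⟨?_, heq t w hwt⟩
      · exact map_mem_closure continuous_subtype_val hz fun v hv => (hlt t v).1 hv
      · exact map_mem_closure continuous_subtype_val hw fun v hv => (hlt t v).1 hv)
    (by
      rintro t z ⟨hz, hzt⟩ w ⟨hw, hwt⟩
      apply Subtype.ext
      refine (hlu (t₁ + t * (t₂ - t₁))).2 ⟨?_, heq t z hzt⟩ ⟨?_, heq t w hwt⟩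
      · exact map_mem_closure continuous_subtype_val hz fun v hv => (hgt t v).1 hv
      · exact map_mem_closure continuous_subtype_val hw fun v hv => (hgt t v).1 hv)
  have hε2 : 0 < ε / 2 := by linarith
  let r' : U → ℝ := fun y => (r y - t₀) / (ε / 2)
  have hr'c : Continuous r' := (hr.sub continuous_const).div_const _
  have hr'K : ∀ y, |r' y| ≤ 1 ↔ y ∈ KY := by
    intro y
    rw [hKYabs]
    simp only [r']
    rw [abs_div, abs_of_pos hε2, div_le_one hε2]
  let φ : unitInterval → ℝ := fun s => r' (qZ s).1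
  have hφc : Continuous φ := hr'c.comp (continuous_subtype_val.comp hqZc)
  have hφm : Monotone φ := by
    intro s s' hss'
    have h1 : rZ (qZ s) ≤ rZ (qZ s') := hqZm hss'
    simp only [rZ] at h1
    rw [div_le_div_iff_of_pos_right hd12] at h1
    simp only [φ, r']
    rw [div_le_div_iff_of_pos_right hε2]
    linarith
  obtain ⟨σ, hσc, hσs, L, hL⟩ := reparam φ hφc (bv_of_monotone hφm)
  refine ⟨r', fun s => (qZ (σ s)).1, L, hr'c, continuous_subtype_val.comp (hqZc.comp hσc),
    ?_, ?_, hL, ?_⟩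
  · intro y hy
    obtain ⟨s, hs'⟩ := hqZs ⟨y, (hr'K y).1 hy⟩
    obtain ⟨s', rfl⟩ := hσs s
    exact ⟨s', by change (qZ (σ s')).1 = y; rw [hs']⟩
  · intro t ht
    rw [abs_le] at ht
    obtain ⟨y, hy⟩ : t₀ + t * (ε / 2) ∈ range r := by
      apply mem_range_of_exists_le_of_exists_ge hr
      · exact ⟨a', by rw [hra]; nlinarith [ht.1]⟩
      · exact ⟨b', by rw [hrb]; nlinarith [ht.2]⟩
    refine ⟨y, ?_⟩
    simp only [r']
    rw [hy, add_sub_cancel_left, mul_div_assoc, div_self hε2.ne', mul_one]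
  · have : {y | |r' y| ≤ 1} = KY := by
      ext y; exact hr'K y
    rw [this]; exact hKYc

theorem product {X : Type*} [TopologicalSpace X] [T2Space X] (q₀ : unitInterval → X)
    (hq₀ : Continuous q₀) (hs : Function.Surjective q₀) {d : ℕ} (hd : 0 < d)
    (Y : Fin d → Type*) [∀ i, TopologicalSpace (Y i)] (r : ∀ i, Y i → ℝ)
    (q : ∀ i, unitInterval → Y i) (L : Fin d → NNReal) (hr : ∀ i, Continuous (r i))
    (hq : ∀ i, Continuous (q i)) (hcov : ∀ i y, |r i y| ≤ 1 → ∃ s, q i s = y)
    (hval : ∀ i t, |t| ≤ 1 → ∃ y, r i y = t) (hL : ∀ i, LipschitzWith (L i) (r i ∘ q i))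
    (hK : ∀ i, IsCompact {y | |r i y| ≤ 1})
    (j : (∀ i, Y i) → X) (hj : IsOpenEmbedding j) : IsTopologicalIFSAttractor X := by
  classical
  let f : (∀ i, Y i) → (Fin d → ℝ) := fun y i => 3 * r i (y i)
  have hfc : Continuous f :=
    continuous_pi fun i => continuous_const.mul ((hr i).comp (continuous_apply i))
  set Kc : Set X := j '' {y | ‖f y‖ ≤ 2} with hKc
  have hfn : ∀ y, ‖f y‖ ≤ 2 → ∀ i, |r i (y i)| ≤ 1 := by
    intro y hy i
    have h1 : ‖f y i‖ ≤ 2 := (norm_le_pi_norm (f y) i).trans hy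
    rw [Real.norm_eq_abs] at h1
    have h2 : |f y i| = 3 * |r i (y i)| := by
      simp only [f]
      rw [abs_mul]
      norm_num
    rw [h2] at h1
    linarith
  have hKcc : IsCompact {y | ‖f y‖ ≤ 2} := by
    refine (isCompact_univ_pi hK).of_isClosed_subset (isClosed_le hfc.norm continuous_const) ?_
    intro y hy i _
    exact hfn y hy i
  have hKclosed : IsClosed Kc := (hKcc.image hj.continuous).isClosed
  set W : Set X := j '' {y | ‖f y‖ < 3} with hW
  have hWopen : IsOpen W := hj.isOpenMap _ (isOpen_lt hfc.norm continuous_const)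
  have hKW : Kc ⊆ W := image_mono fun y (hy : ‖f y‖ ≤ 2) =>
    (lt_of_le_of_lt hy (by norm_num) : ‖f y‖ < 3)
  let R : X → Cube d := Function.extend j (fun y => rho (f y)) (fun _ => 0)
  have hRj : ∀ y, R (j y) = rho (f y) := fun y => hj.injective.extend_apply _ _ _
  have hR0 : ∀ x, x ∉ Kc → R x = 0 := by
    intro x hx
    by_cases h : ∃ y, j y = x
    · obtain ⟨y, rfl⟩ := h
      rw [hRj]
      apply rho_zero
      by_contra hcon
      push Not at hcon
      exact hx ⟨y, hcon.le, rfl⟩
    · exact Function.extend_apply' _ _ _ h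
  have hRc : Continuous R := by
    rw [continuous_iff_continuousAt]
    intro x
    by_cases hx : x ∈ Kc
    · obtain ⟨y, _, rfl⟩ := hx
      rw [← hj.continuousAt_iff]
      have : R ∘ j = fun y => rho (f y) := funext hRj
      rw [this]
      exact (rho_lip.continuous.comp hfc).continuousAt
    · have h1 : R =ᶠ[𝓝 x] fun _ => 0 := by
        filter_upwards [hKclosed.isOpen_compl.mem_nhds hx] with z hz using hR0 z hz
      exact continuousAt_const.congr h1.symm
  have hRs : Function.Surjective R := by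
    intro c
    have h1 : ∀ i, ∃ y, r i y = (c i : ℝ) / 3 := by
      intro i
      apply hval
      rw [abs_le]
      have h2 := (c i).2.1
      have h3 := (c i).2.2
      constructor <;> linarith
    choose y hy using h1
    refine ⟨j y, ?_⟩
    rw [hRj]
    have h2 : f y = fun i => (c i : ℝ) := by
      funext i
      simp only [f]
      rw [hy]; ring
    rw [h2, rho_cube]
  let g : Cube d → X := fun c => j fun i => q i (c i)
  have hgc : Continuous g :=
    hj.continuous.comp (continuous_pi fun i => (hq i).comp (continuous_apply i))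
  have hgW : ∀ x ∈ W, ∃ c, g c = x := by
    rintro _ ⟨y, hy, rfl⟩
    have h1 : ∀ i, ∃ s, q i s = y i := by
      intro i
      apply hcov
      have h2 : ‖f y i‖ ≤ 3 := (norm_le_pi_norm (f y) i).trans (le_of_lt hy)
      rw [Real.norm_eq_abs] at h2
      have h3 : |f y i| = 3 * |r i (y i)| := by
        simp only [f]
        rw [abs_mul]
        norm_num
      rw [h3] at h2
      linarith
    choose c hc using h1
    exact ⟨c, by simp only [g]; congr 1; funext i; exact hc i⟩
  obtain ⟨M, hM⟩ := (Set.finite_range L).bddAbove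
  have hgL : LipschitzWith (2 * (3 * M)) (R ∘ g) := by
    have h1 : R ∘ g = rho ∘ (fun c : Cube d => f fun i => q i (c i)) := funext fun c => hRj _
    rw [h1]
    refine rho_lip.comp ?_
    refine LipschitzWith.of_dist_le_mul fun c c' => ?_
    rw [dist_pi_le_iff (by positivity)]
    intro i
    have h2 := (hL i).dist_le_mul (c i) (c' i)
    have h3 : ((L i : NNReal) : ℝ) ≤ M := by exact_mod_cast hM ⟨i, rfl⟩
    have h4 : dist (c i) (c' i) ≤ dist c c' := dist_le_pi_dist c c' i
    have h5 : dist (f (fun i => q i (c i)) i) (f (fun i => q i (c' i)) i) =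
        3 * dist ((r i ∘ q i) (c i)) ((r i ∘ q i) (c' i)) := by
      simp only [f, Function.comp]
      rw [Real.dist_eq, Real.dist_eq, ← mul_sub, abs_mul]
      norm_num
    rw [h5]
    have h6 : (L i : ℝ) * dist (c i) (c' i) ≤ M * dist c c' :=
      mul_le_mul h3 h4 dist_nonneg M.2
    have h7 : ((3 * M : NNReal) : ℝ) * dist c c' = 3 * (M * dist c c') := by push_cast; ring
    rw [h7]
    linarith
  exact glue R hRc hRs (fun c => q₀ (c ⟨0, hd⟩)) (hq₀.comp (continuous_apply _))
    (by
      intro x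
      obtain ⟨s, hs'⟩ := hs x
      exact ⟨fun _ => s, hs'⟩)
    Kc W hKclosed hWopen hKW hR0 g hgc hgW _ hgL

theorem exists_region {X : Type*} [TopologicalSpace X]
    [TopologicalSpace.MetrizableSpace X] (q₀ : unitInterval → X) (hq₀ : Continuous q₀)
    (hs : Function.Surjective q₀) (O : Set X) (hO : IsOpen O)
    (h : ¬ {x : X | x ∈ O ∧ IsLocalCutPoint x}.Countable) :
    ∃ W ⊆ O, IsOpen W ∧ IsPathConnected W ∧ ∃ a b, a ∈ W ∧ b ∈ W ∧
      ¬ {e | e ∈ W ∧ ¬ JoinedIn (W \ {e}) a b}.Countable := by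
  classical
  have := locallyPathConnected_unitInterval
  have hcomp : CompactSpace X := ⟨by rw [← hs.range_eq]; exact isCompact_range hq₀⟩
  have hconn : ConnectedSpace X := hs.connectedSpace hq₀
  have hlpc : LocallyPathConnectedSpace X :=
    (hq₀.isClosedMap.isQuotientMap hq₀ hs).locallyPathConnectedSpace
  have hsc : SecondCountableTopology X := by
    let _ : MetricSpace X := TopologicalSpace.metrizableSpaceMetric X
    infer_instance
  let u : ℕ → X := TopologicalSpace.denseSeq X
  have hu : ∀ O : Set X, IsOpen O → O.Nonempty → ∃ n, u n ∈ O := fun O hO hne =>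
    (TopologicalSpace.denseRange_denseSeq X).exists_mem_open hO hne
  let 𝔅 : Set (Set X) := TopologicalSpace.countableBasis X
  have h𝔅 : TopologicalSpace.IsTopologicalBasis 𝔅 := TopologicalSpace.isBasis_countableBasis X
  have h𝔅c : 𝔅.Countable := TopologicalSpace.countable_countableBasis X
  let Ev : Set X → ℕ → ℕ → ℕ → Set X := fun V n i j =>
    {e | e ∈ pathComponentIn V (u n) ∧ ¬ JoinedIn (pathComponentIn V (u n) \ {e}) (u i) (u j)}
  by_cases hall : ∀ V ∈ {V | V ∈ 𝔅 ∧ V ⊆ O}, ∀ n i j, u i ∈ pathComponentIn V (u n) → u j ∈ pathComponentIn V (u n) →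
      (Ev V n i j).Countable
  · exfalso
    apply h
    have hsub : {x : X | x ∈ O ∧ IsLocalCutPoint x} ⊆ ⋃ V ∈ {V | V ∈ 𝔅 ∧ V ⊆ O}, ⋃ n : ℕ, ⋃ i : ℕ, ⋃ j : ℕ,
        {e | (u i ∈ pathComponentIn V (u n) ∧ u j ∈ pathComponentIn V (u n)) ∧ e ∈ Ev V n i j} := by
      rintro x ⟨hxO, U, hU, hUc, hxU, hn⟩
      obtain ⟨A, B, hA, hB, hAB, hABU, hxA, hxB⟩ := sides hU hUc hn
      obtain ⟨V, hV, hxV, hVUO⟩ := h𝔅.exists_subset_of_mem_open (show x ∈ U ∩ O from ⟨hxU, hxO⟩)
        (hU.inter hO)
      have hVU : V ⊆ U := hVUO.trans inter_subset_left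
      have hVO : V ⊆ O := hVUO.trans inter_subset_right
      have hVo : IsOpen V := h𝔅.isOpen hV
      obtain ⟨n, hn⟩ := hu (pathComponentIn V x) (hVo.pathComponentIn x)
        ⟨x, mem_pathComponentIn_self hxV⟩
      have hWeq : pathComponentIn V (u n) = pathComponentIn V x := pathComponentIn_congr hn
      have hxW : x ∈ pathComponentIn V (u n) := by rw [hWeq]; exact mem_pathComponentIn_self hxV
      have hWo : IsOpen (pathComponentIn V (u n)) := hVo.pathComponentIn _
      obtain ⟨i, hi⟩ := hu (pathComponentIn V (u n) ∩ A) (hWo.inter hA)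
        (mem_closure_iff.1 hxA _ hWo hxW)
      obtain ⟨j, hj⟩ := hu (pathComponentIn V (u n) ∩ B) (hWo.inter hB)
        (mem_closure_iff.1 hxB _ hWo hxW)
      refine mem_iUnion₂.2 ⟨V, ⟨hV, hVO⟩, mem_iUnion.2 ⟨n, mem_iUnion.2 ⟨i, mem_iUnion.2 ⟨j, ?_⟩⟩⟩⟩
      refine ⟨⟨hi.1, hj.1⟩, hxW, ?_⟩
      rintro ⟨γ, hγ⟩
      have hconnγ : IsPreconnected (range γ) := isPreconnected_range γ.continuous
      have hrangeγ : range γ ⊆ A ∪ B := by
        rintro _ ⟨t, rfl⟩
        rw [hABU]
        exact ⟨hVU (pathComponentIn_subset (hγ t).1), (hγ t).2⟩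
      have h1 : range γ ⊆ A := hconnγ.subset_left_of_subset_union hA hB hAB hrangeγ
        ⟨u i, ⟨0, γ.source⟩, hi.2⟩
      exact Set.disjoint_left.1 hAB (h1 ⟨1, γ.target⟩) hj.2
    refine Set.Countable.mono hsub ?_
    refine (h𝔅c.mono fun V hV => hV.1).biUnion fun V hV => countable_iUnion fun n => countable_iUnion fun i =>
      countable_iUnion fun j => ?_
    by_cases hij : u i ∈ pathComponentIn V (u n) ∧ u j ∈ pathComponentIn V (u n)
    · exact (hall V hV n i j hij.1 hij.2).mono fun e he => he.2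
    · have : {e | (u i ∈ pathComponentIn V (u n) ∧ u j ∈ pathComponentIn V (u n)) ∧
          e ∈ Ev V n i j} = ∅ := by
        ext e
        simp only [mem_ofPred_eq, mem_empty_iff_false, iff_false]
        exact fun he => hij he.1
      rw [this]
      exact countable_empty
  · push Not at hall
    obtain ⟨V, hV, n, i, j, hi, hj, hunc⟩ := hall
    have hVo : IsOpen V := h𝔅.isOpen hV.1
    have hnV : u n ∈ V := by
      have : JoinedIn V (u n) (u i) := hi
      exact this.source_mem
    exact ⟨pathComponentIn V (u n), pathComponentIn_subset.trans hV.2, hVo.pathComponentIn _,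
      isPathConnected_pathComponentIn hnV, u i, u j, hi, hj, hunc⟩

theorem product_of_cut {X : Type*} [TopologicalSpace X] [T2Space X] (q₀ : unitInterval → X)
    (hq₀ : Continuous q₀) (hs : Function.Surjective q₀) {k : ℕ} (hk : 0 < k)
    (Z : Fin k → Type*) [∀ i, TopologicalSpace (Z i)] [∀ i, TopologicalSpace.MetrizableSpace (Z i)]
    (p : ∀ i, unitInterval → Z i) (hp : ∀ i, Continuous (p i))
    (hps : ∀ i, Function.Surjective (p i)) (O : ∀ i, Set (Z i)) (hO : ∀ i, IsOpen (O i))
    (hcut : ∀ i, ¬ {x : Z i | x ∈ O i ∧ IsLocalCutPoint x}.Countable)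
    (j : (∀ i, O i) → X) (hj : IsOpenEmbedding j) : IsTopologicalIFSAttractor X := by
  have h1 := fun i => exists_region (p i) (hp i) (hps i) (O i) (hO i) (hcut i)
  choose W hWO hWo hWp a b ha hb hunc using h1
  have h2 := fun i => factor (p i) (hp i) (hps i) (W i) (hWo i) (hWp i) (a i) (b i) (ha i) (hb i)
    (hunc i)
  choose r q L hr hq hcov hval hL hK using h2
  let ι : (∀ i, W i) → (∀ i, O i) := fun y i => ⟨(y i : Z i), hWO i (y i).2⟩
  have hemb : ∀ i, IsOpenEmbedding (fun y : W i => (⟨(y : Z i), hWO i y.2⟩ : O i)) := by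
    intro i
    refine IsOpenEmbedding.of_comp _ (hO i).isOpenEmbedding_subtypeVal ?_
    exact (hWo i).isOpenEmbedding_subtypeVal
  have hι : IsOpenEmbedding ι := IsOpenEmbedding.piMap hemb
  exact product q₀ hq₀ hs hk (fun i => W i) r q L hr hq hcov hval hL hK (j ∘ ι) (hj.comp hι)

end Pool.Agent.H764R3.TopFractalProd
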