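import Pool.Agent.H764R3.TopFractal

/-!
# Functions from uncountably many separating points
-/

open Set Topology MeasureTheory

namespace Pool.Agent.H764R3.TopFractalSep

theorem pathConnected_unitInterval : PathConnectedSpace unitInterval :=
  isPathConnected_iff_pathConnectedSpace.1 ((convex_Icc (0 : ℝ) 1).isPathConnected ⟨0, by simp⟩)

section Basic

variable {X : Type*} [TopologicalSpace X]

/-- The points `e` such that `a` and `b` are not joined by a path in the complement of `e`. -/
def Sepa (a b : X) : Set X := {e | ¬ JoinedIn ({e}ᶜ) a b}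

theorem isOpen_joined [T2Space X] (a x : X) : IsOpen {e : X | JoinedIn ({e}ᶜ) a x} := by
  rw [isOpen_iff_forall_mem_open]
  rintro e ⟨γ, hγ⟩
  refine ⟨(range γ)ᶜ, ?_, (isCompact_range γ.continuous).isClosed.isOpen_compl, ?_⟩
  · intro e' he'
    refine ⟨γ, fun t ht => ?_⟩
    exact he' ⟨t, ht⟩
  · rintro ⟨t, ht⟩
    exact hγ t ht

theorem isClosed_sepa [T2Space X] (a x : X) : IsClosed (Sepa a x) :=
  ⟨by
    have : (Sepa a x)ᶜ = {e : X | JoinedIn ({e}ᶜ) a x} := by
      ext e; simp [Sepa]
    rw [this]; exact isOpen_joined a x⟩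

/-- A path from `a` to `z` passes through every point `y` separating them. -/
theorem joined_of_sepa {F : Set X} {a z y : X} (h : JoinedIn F a z)
    (hy : ¬ JoinedIn ({y}ᶜ) a z) : JoinedIn F a y := by
  obtain ⟨γ, hγ⟩ := h
  have hyr : y ∈ range γ := by
    by_contra hcon
    exact hy ⟨γ, fun t ht => hcon ⟨t, ht⟩⟩
  have := pathConnected_unitInterval
  have h1 := (isPathConnected_range γ.continuous).joinedIn a ⟨0, γ.source⟩ y hyr
  refine h1.mono ?_
  rintro _ ⟨t, rfl⟩
  exact hγ t

theorem two_points [T1Space X] [ConnectedSpace X] [LocallyPathConnectedSpace X] (c : X) {y z : X}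
    (hyz : y ≠ z) : JoinedIn ({z}ᶜ) c y ∨ JoinedIn ({y}ᶜ) c z := by
  by_cases hcy : c = y
  · subst hcy
    exact Or.inl (JoinedIn.refl hyz)
  by_cases hcz : c = z
  · subst hcz
    exact Or.inr (JoinedIn.refl hyz.symm)
  by_contra hcon
  push Not at hcon
  obtain ⟨h1, h2⟩ := hcon
  set F : Set X := ({y, z} : Set X)ᶜ with hF
  have hFo : IsOpen F := (Set.toFinite {y, z}).isClosed.isOpen_compl
  have hcF : c ∈ F := by simp [hF, hcy, hcz]
  have hFz : F ⊆ {z}ᶜ := compl_subset_compl.2 (by simp)
  have hFy : F ⊆ {y}ᶜ := compl_subset_compl.2 (by simp)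
  set U : Set X := pathComponentIn F c with hU
  have hUo : IsOpen U := hFo.pathComponentIn c
  have hcU : c ∈ U := mem_pathComponentIn_self hcF
  have hUc : IsClosed U := by
    rw [← closure_subset_iff_isClosed]
    intro x hx
    by_cases hxy : x = y
    · exfalso
      subst hxy
      obtain ⟨w, hw1, hw2⟩ := mem_closure_iff.1 hx (pathComponentIn {z}ᶜ x)
        (isOpen_compl_singleton.pathComponentIn x) (mem_pathComponentIn_self hyz)
      exact h1 ((JoinedIn.mono hw2 hFz).trans (JoinedIn.symm hw1))
    by_cases hxz : x = z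
    · exfalso
      subst hxz
      obtain ⟨w, hw1, hw2⟩ := mem_closure_iff.1 hx (pathComponentIn {y}ᶜ x)
        (isOpen_compl_singleton.pathComponentIn x) (mem_pathComponentIn_self hyz.symm)
      exact h2 ((JoinedIn.mono hw2 hFy).trans (JoinedIn.symm hw1))
    have hxF : x ∈ F := by simp [hF, hxy, hxz]
    obtain ⟨w, hw1, hw2⟩ := mem_closure_iff.1 hx (pathComponentIn F x)
      (hFo.pathComponentIn x) (mem_pathComponentIn_self hxF)
    exact JoinedIn.trans hw2 (JoinedIn.symm hw1)
  have hUu : U = univ := IsClopen.eq_univ ⟨hUc, hUo⟩ ⟨c, hcU⟩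
  have : y ∈ U := by rw [hUu]; trivial
  have := pathComponentIn_subset this
  simp [hF] at this

/-- Two separating points of `a, b` are comparable. -/
theorem comparable [T1Space X] [ConnectedSpace X] [LocallyPathConnectedSpace X] {a b y z : X}
    (hy : y ∈ Sepa a b) (hz : z ∈ Sepa a b) (hyz : y ≠ z) : y ∈ Sepa a z ∨ z ∈ Sepa a y := by
  rcases two_points b hyz with h | h
  · right
    intro h'
    exact hz (h'.trans h.symm)
  · left
    intro h'
    exact hy (h'.trans h.symm)

end Basic

theorem exists_function {X : Type*} [TopologicalSpace X] [PolishSpace X]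
    [ConnectedSpace X] [LocallyPathConnectedSpace X] (a b : X)
    (h : ¬ (Sepa a b).Countable) :
    ∃ r : X → ℝ, Continuous r ∧ r a = 0 ∧ r b = 1 ∧ (∀ x, 0 ≤ r x ∧ r x ≤ 1) ∧
      ∀ t, (closure {x | r x < t} ∩ {x | r x = t}).Subsingleton ∧
        (closure {x | t < r x} ∩ {x | r x = t}).Subsingleton := by
  classical
  let _ : MeasurableSpace X := borel X
  have _ : BorelSpace X := ⟨rfl⟩
  set E : Set X := Sepa a b with hE
  have hEc : IsClosed E := isClosed_sepa a b
  have hEm : MeasurableSet E := hEc.measurableSet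
  have : PolishSpace E := hEc.polishSpace
  have hEu : ¬ Countable E := fun hc => h (Set.countable_coe_iff.1 hc)
  let ν : Measure ℝ := volume.restrict (Icc (0 : ℝ) 1)
  have hν : IsProbabilityMeasure ν := ⟨by simp [ν]⟩
  have hR : ¬ Countable ℝ := fun hc => Cardinal.not_countable_real (Set.countable_univ_iff.2 hc)
  let e : E ≃ᵐ ℝ := PolishSpace.measurableEquivOfNotCountable hEu hR
  let g : ℝ → X := fun t => (e.symm t : X)
  have hg : Measurable g := measurable_subtype_coe.comp e.symm.measurable
  have hgi : Function.Injective g := Subtype.val_injective.comp e.symm.injective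
  let μ : Measure X := ν.map g
  have hμ : IsProbabilityMeasure μ := Measure.isProbabilityMeasure_map hg.aemeasurable
  have hμ0 : ∀ x, μ {x} = 0 := by
    intro x
    rw [Measure.map_apply hg (measurableSet_singleton x)]
    have hss : (g ⁻¹' {x}).Subsingleton := by
      intro s hs t ht
      exact hgi (hs.trans ht.symm)
    exact hss.measure_zero _
  have hμE : μ Eᶜ = 0 := by
    rw [Measure.map_apply hg hEm.compl]
    have : g ⁻¹' Eᶜ = ∅ := by
      ext t
      simp only [mem_preimage, mem_compl_iff, mem_empty_iff_false, iff_false, not_not]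
      exact (e.symm t).2
    rw [this, measure_empty]
  let S : X → Set X := fun x => E ∩ Sepa a x
  have hSm : ∀ x, MeasurableSet (S x) := fun x => hEm.inter (isClosed_sepa a x).measurableSet
  let r : X → ℝ := fun x => μ.real (S x)
  have hmono : ∀ x y, S x ⊆ S y → r x ≤ r y := fun x y hxy => measureReal_mono hxy
  have hrc : Continuous r := by
    rw [continuous_iff_continuousAt]
    intro x
    have h1 : Filter.Tendsto (fun y => μ (S y)) (𝓝 x) (𝓝 (μ (S x))) := by
      refine tendsto_measure_of_ae_tendsto_indicator_of_isFiniteMeasure (𝓝 x) (hSm x) hSm ?_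
      have hae : ∀ᵐ e ∂μ, e ≠ x := by
        rw [ae_iff]
        simpa using hμ0 x
      filter_upwards [hae] with e he
      have hV : pathComponentIn ({e}ᶜ) x ∈ 𝓝 x :=
        (isOpen_compl_singleton.pathComponentIn x).mem_nhds
          (mem_pathComponentIn_self (fun h' => he h'.symm))
      filter_upwards [hV] with y hy
      have hy' : JoinedIn ({e}ᶜ) x y := hy
      constructor
      · rintro ⟨h1, h2⟩
        exact ⟨h1, fun h3 => h2 (h3.trans hy')⟩
      · rintro ⟨h1, h2⟩
        exact ⟨h1, fun h3 => h2 (h3.trans hy'.symm)⟩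
    exact (ENNReal.tendsto_toReal (measure_ne_top μ _)).comp h1
  have hra : r a = 0 := by
    have hsub : S a ⊆ {a} := by
      rintro e ⟨_, he⟩
      by_contra hne
      exact he (JoinedIn.refl (fun h' => hne h'.symm))
    have : μ (S a) = 0 := measure_mono_null hsub (hμ0 a)
    simp only [r, Measure.real, this, ENNReal.toReal_zero]
  have hrb : r b = 1 := by
    have hSb : S b = E := inter_self _
    have h1 : μ E = 1 := by
      have := prob_compl_eq_zero_iff (μ := μ) hEm
      exact this.1 hμE
    simp only [r, Measure.real, hSb, h1, ENNReal.toReal_one]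
  -- monotonicity facts
  have F1 : ∀ y z, y ∈ Sepa a z → S y ⊆ S z := by
    rintro y z hyz e ⟨h1, h2⟩
    exact ⟨h1, fun h3 => h2 (joined_of_sepa h3 hyz)⟩
  -- the function is locally constant off `E`
  have hloc : ∀ y, (∀ V, IsOpen V → y ∈ V → ∃ x ∈ V, r x ≠ r y) → y ∈ E := by
    intro y hy
    by_contra hyE
    obtain ⟨x, hx, hne⟩ := hy (pathComponentIn Eᶜ y) (hEc.isOpen_compl.pathComponentIn y)
      (mem_pathComponentIn_self hyE)
    apply hne
    have hxy : JoinedIn Eᶜ y x := hx
    have hS : S x = S y := by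
      ext e
      constructor
      · rintro ⟨h1, h2⟩
        refine ⟨h1, fun h3 => h2 (h3.trans (hxy.mono ?_))⟩
        intro w hw hwe
        exact hw (hwe ▸ h1)
      · rintro ⟨h1, h2⟩
        refine ⟨h1, fun h3 => h2 (h3.trans (hxy.mono ?_).symm)⟩
        intro w hw hwe
        exact hw (hwe ▸ h1)
    simp only [r, hS]
  refine ⟨r, hrc, hra, hrb, fun x => ⟨measureReal_nonneg, measureReal_le_one⟩, fun t => ⟨?_, ?_⟩⟩
  · -- lower side
    have key : ∀ y z, y ∈ closure {x | r x < t} → z ∈ closure {x | r x < t} → r y = t →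
        r z = t → y ≠ z → y ∈ Sepa a z → y ∈ E → False := by
      intro y z _ hz hyt _ hyz hsep hyE
      have hN : IsOpen (pathComponentIn ({y}ᶜ) z) := isOpen_compl_singleton.pathComponentIn z
      obtain ⟨x, hx, hxt⟩ := mem_closure_iff.1 hz _ hN (mem_pathComponentIn_self hyz.symm)
      have hx' : JoinedIn ({y}ᶜ) z x := hx
      have h1 : y ∈ Sepa a x := fun h' => hsep (h'.trans hx'.symm)
      have h2 := hmono _ _ (F1 y x h1)
      have h3 : r x < t := hxt
      linarith
    rintro y ⟨hy, hyt⟩ z ⟨hz, hzt⟩
    by_contra hyz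
    have hyt' : r y = t := hyt
    have hzt' : r z = t := hzt
    have hmemE : ∀ w, w ∈ closure {x | r x < t} → r w = t → w ∈ E := by
      intro w hw hwt
      apply hloc
      intro V hV hwV
      obtain ⟨x, hx, hxt⟩ := mem_closure_iff.1 hw V hV hwV
      exact ⟨x, hx, by rw [hwt]; exact ne_of_lt hxt⟩
    have hyE := hmemE y hy hyt'
    have hzE := hmemE z hz hzt'
    rcases comparable hyE hzE hyz with h' | h'
    · exact key y z hy hz hyt' hzt' hyz h' hyE
    · exact key z y hz hy hzt' hyt' (Ne.symm hyz) h' hzE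
  · -- upper side
    have key : ∀ y z, y ∈ closure {x | t < r x} → z ∈ closure {x | t < r x} → r y = t →
        r z = t → y ≠ z → y ∈ Sepa a z → z ∈ E → False := by
      intro y z hy _ _ hzt hyz hsep hzE
      have hay : JoinedIn ({z}ᶜ) a y := by
        rcases two_points a hyz with h' | h'
        · exact h'
        · exact absurd h' hsep
      obtain ⟨x, hx, hxt⟩ := mem_closure_iff.1 hy _ (isOpen_compl_singleton.pathComponentIn y)
        (mem_pathComponentIn_self hyz)
      have hax : JoinedIn ({z}ᶜ) a x := hay.trans hx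
      have hsub : S x ⊆ S z := by
        rintro e ⟨he1, he2⟩
        refine ⟨he1, fun h3 => ?_⟩
        have hez : e ≠ z := by
          rintro rfl
          exact absurd h3 (fun h4 => (h4.mem.2) rfl)
        rcases comparable he1 hzE hez with h' | h'
        · exact h' h3
        · exact h' (joined_of_sepa hax he2)
      have h2 := hmono _ _ hsub
      have h3 : t < r x := hxt
      linarith
    rintro y ⟨hy, hyt⟩ z ⟨hz, hzt⟩
    by_contra hyz
    have hyt' : r y = t := hyt
    have hzt' : r z = t := hzt
    have hmemE : ∀ w, w ∈ closure {x | t < r x} → r w = t → w ∈ E := by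
      intro w hw hwt
      apply hloc
      intro V hV hwV
      obtain ⟨x, hx, hxt⟩ := mem_closure_iff.1 hw V hV hwV
      exact ⟨x, hx, by rw [hwt]; exact ne_of_gt hxt⟩
    have hyE := hmemE y hy hyt'
    have hzE := hmemE z hz hzt'
    rcases comparable hyE hzE hyz with h' | h'
    · exact key y z hy hz hyt' hzt' hyz h' hzE
    · exact key z y hz hy hzt' hyt' (Ne.symm hyz) h' hyE

end Pool.Agent.H764R3.TopFractalSep
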